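import Pool.Agent.Helper11K9.PR.Prim

/-!
Images of products of curves under maps such that every factor descends or generates.
-/

set_option autoImplicit false
set_option linter.overlappingInstances false
set_option linter.unusedSectionVars false

open FF IntermediateField

namespace Pool.Agent.Helper11K9.PR

open Pool.Agent.W603.LV Pool.Agent.W602.RG
open Pool.Agent.W602.GT (Divisorial RegAt IsPluri KodGe LogSec)
open Pool.Agent.W619.PQ (extForm IsUniruled)
open Pool.Agent.R882.Over (GenusZero)
open Pool.Agent.Helper11K9.PC Pool.Agent.Helper11K9.MT Pool.Agent.Helper11K9.OD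

/-- **Images of products of curves** under maps such that every factor descends or generates. -/
theorem main {K : Type} [Field K] [Algebra ℂ K] {n : ℕ} (F : Fin n → IntermediateField ℂ K)
    [∀ i, IsFF ℂ (F i)] (hsup : ⨆ i, F i = ⊤) (hn : Algebra.trdeg ℂ K = n)
    (L : IntermediateField ℂ K) [FiniteDimensional L K]
    (hH : ∀ i, F i ≤ L ∨ IntermediateField.adjoin L (F i : Set K) = ⊤)
    (hg : ∀ i, Module.finrank L K ≤ Module.finrank ℂ (regularForms (F i)))
    (hg2 : ∀ i, 2 ≤ Module.finrank ℂ (regularForms (F i)))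
    (hstr : ∀ i j, i ≠ j →
      ((∀ t : F i, Transcendental ℂ t → 3 ≤ Module.finrank ℂ⟮t⟯ (F i)) ∧
        Module.finrank L K + 2 ≤ Module.finrank ℂ (regularForms (F i))) ∨
      ((∀ t : F j, Transcendental ℂ t → 3 ≤ Module.finrank ℂ⟮t⟯ (F j)) ∧
        Module.finrank L K + 2 ≤ Module.finrank ℂ (regularForms (F j)))) :
    (GenusZero L n → IsUniruled ℂ L n) ∧
      (IsUniruled ℂ L n ∨ KodGe ℂ L n (fun _ => False) (n - 1)) ∧
      (KodGe ℂ L n (fun _ => False) n ∨ ∃ p, ∀ j, j ≠ p → F j ≤ L) := by
  classical
  have hK0 : CharZero K := charZero_of_injective_algebraMap (algebraMap ℂ K).injective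
  have hL0 : CharZero L := charZero_of_injective_algebraMap (algebraMap ℂ L).injective
  have hessK : Algebra.EssFiniteType ℂ K := ess_top F hsup
  have hessL : Algebra.EssFiniteType ℂ L := Pool.Agent.TH466.QG.ess_below (K := K)
  have hL : Algebra.trdeg ℂ L = n := Pool.Agent.Y184.NT.trdeg_below (K := K) hn
  obtain ⟨z, E, hz, hE⟩ := Pool.Agent.Y172.exists_crd (k := ℂ) (K := L) hL
  choose E' hE' using fun i => Pool.Agent.Y172.exists_lift (k := ℂ) (K := L) (L := K) hL (E i)
  have hzK : IsTranscendenceBasis ℂ (fun j => algebraMap L K (z j)) := hz.algebraMap_comp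
  have hE'd := Pool.Agent.Y172.lift_dual hE hE'
  obtain ⟨D, hDe⟩ : ∃ D : ∀ i, Derivation ℂ (F i) (F i), D = fun i => der ℂ (F i) := ⟨_, rfl⟩
  have hD : ∀ i, D i ≠ 0 := by
    intro i
    rw [hDe]
    exact der_ne
  have hfl : ∀ i, Module.finrank ℂ (regularForms (F i)) ≤ Module.finrank ℂ (RR (D i) (hD i)) :=
    fun i => forms_le (hD i)
  have hpos : 0 < Module.finrank L K := Module.finrank_pos
  -- two regular differentials with a nonconstant ratio
  choose f1 f0 hf1 hf0 htr using fun i =>
    exists_ratio (hD i) ((hg2 i).trans (hfl i))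
  choose x hx using fun i => IsFF.exists_transcendental (k := ℂ) (K := F i)
  have hxb : IsTranscendenceBasis ℂ fun i => algebraMap (F i) K (x i) :=
    Pool.Agent.W619.PQ.basis_of_iSup F hsup hn x hx
  obtain ⟨J, hJ⟩ : ∃ J : K, J = extForm 1 D x (fun _ => 1) E' := ⟨_, rfl⟩
  have hJ0 : J ≠ 0 := by
    obtain ⟨G, hG⟩ := Pool.Agent.W619.PQ.extForm_ne (K := K) 1 D x (fun _ => 1)
      (fun i => one_ne_zero) (fun i => der_ne_zero (hD i) (hx i)) hxb
    have h1 := Pool.Agent.Y172.pluri_coord hzK hE'd (m := 1)
      (ω := extForm 1 D x (fun _ => 1)) (Pool.Agent.W619.PQ.extForm_pluri 1 D x _) G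
    rw [h1] at hG
    rw [hJ]
    exact right_ne_zero_of_mul hG
  by_cases hTex : ∃ g : ∀ i, F i, (∀ i, RegD (D i) (g i)) ∧
      Algebra.trace L K (J * ∏ i, (g i : K)) ≠ 0
  swap
  · -- all traces vanish
    push Not at hTex
    have hne : ∃ p, ¬ F p ≤ L := by
      by_contra hcon
      push Not at hcon
      have htop : L = ⊤ := by
        rw [eq_top_iff, ← hsup]
        exact iSup_le hcon
      have h1 := hTex f0 hf0
      obtain ⟨w, hw⟩ : ∃ w : L, algebraMap L K w = J * ∏ i, (f0 i : K) :=
        ⟨⟨J * ∏ i, (f0 i : K), by rw [htop]; trivial⟩, rfl⟩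
      rw [← hw, Algebra.trace_algebraMap, smul_eq_zero] at h1
      rcases h1 with h1 | h1
      · omega
      · rw [h1, map_zero] at hw
        refine mul_ne_zero hJ0 (Finset.prod_ne_zero_iff.2 fun i _ h => ?_) hw.symm
        exact (hf0 i).1 (Subtype.ext h)
    obtain ⟨p, hp⟩ := hne
    have hall : ∀ j, j ≠ p → F j ≤ L := by
      intro j hj
      by_contra hcon
      exact one_copy hD hJ0 hf0 hTex hj ((hH j).resolve_left hcon) ((hH p).resolve_left hp)
        (by have := hg j; have := hfl j; omega) (by have := hg p; have := hfl p; omega)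
        (by
          rcases hstr j p hj with ⟨h, h'⟩ | ⟨h, h'⟩
          · exact Or.inl ⟨h, by have := hfl j; omega⟩
          · exact Or.inr ⟨h, by have := hfl p; omega⟩)
    have huni : IsUniruled ℂ L n := by
      refine uni_of_line F hsup hn L hD hx hz hE hE' hJ p L le_rfl inferInstance hall
        (fun j _ => hf0 j) ?_
      intro f hf
      have h1 := hTex (Function.update f0 p (f p)) fun j => by
        by_cases hj : j = p
        · subst hj
          rw [Function.update_self]
          exact hf j (Finset.mem_singleton_self j)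
        · rw [Function.update_of_ne hj]
          exact hf0 j
      obtain ⟨ε, hε⟩ : ∃ ε : L, algebraMap L K ε = ∏ l ∈ Finset.univ.erase p, (f0 l : K) :=
        ⟨⟨∏ l ∈ Finset.univ.erase p, (f0 l : K), prod_mem fun l hl =>
          (hall l (Finset.ne_of_mem_erase hl)) (f0 l).2⟩, rfl⟩
      have hε0 : ε ≠ 0 := by
        intro h
        rw [h, map_zero] at hε
        refine Finset.prod_ne_zero_iff.2 (fun i _ h => ?_) hε.symm
        exact (hf0 i).1 (Subtype.ext h)
      have h2 : J * ∏ i, ((Function.update f0 p (f p) i : F i) : K) =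
          ε • (J * (f p : K)) := by
        rw [← Finset.mul_prod_erase _ _ (Finset.mem_univ p), Function.update_self]
        have h3 : ∏ l ∈ Finset.univ.erase p, ((Function.update f0 p (f p) l : F l) : K) =
            ∏ l ∈ Finset.univ.erase p, (f0 l : K) :=
          Finset.prod_congr rfl fun l hl => by
            rw [Function.update_of_ne (Finset.ne_of_mem_erase hl)]
        rw [h3, ← hε, Algebra.smul_def]
        ring
      rw [h2, map_smul, smul_eq_zero] at h1
      rw [Finset.prod_singleton]
      exact h1.resolve_left hε0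
    exact ⟨fun _ => huni, Or.inl huni, Or.inr ⟨p, hall⟩⟩
  · obtain ⟨g, hgr, hTg⟩ := hTex
    obtain ⟨N, hN⟩ : ∃ N : IntermediateField ℂ L, N = IntermediateField.adjoin ℂ
      {t : L | ∃ f : ∀ i, F i, (∀ i, RegD (D i) (f i)) ∧
        t = Algebra.trace L K (J * ∏ i, (f i : K)) /
        Algebra.trace L K (J * ∏ i, (g i : K))} := ⟨_, rfl⟩
    have hNm : ∀ f : ∀ i, F i, (∀ i, RegD (D i) (f i)) →
        Algebra.trace L K (J * ∏ i, (f i : K)) /
          Algebra.trace L K (J * ∏ i, (g i : K)) ∈ N := by
      intro f hf
      rw [hN]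
      exact IntermediateField.subset_adjoin _ _ ⟨f, hf, rfl⟩
    have hkod : ∀ P : Finset (Fin n), (∀ p ∈ P, ∀ u : F p, IsAlgebraic N (u : K)) →
        KodGe ℂ L n (fun _ => False) P.card := fun P hP =>
      kod_of_alg F hsup hn L hD hx hz hE hE' hJ hgr hTg P fun p hp => by
        rw [← hN]
        exact hP p hp (x p)
    -- the traces are regular forms
    obtain ⟨T, hT⟩ : ∃ T : (∀ i, F i) → L, T = fun f => Algebra.trace L K (J * ∏ i, (f i : K)) :=
      ⟨_, rfl⟩
    have hTreg : ∀ f : ∀ i, F i, (∀ i, RegD (D i) (f i)) → Rg z 1 (T f) := by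
      intro f hf P hP
      have h1 := Pool.Agent.R882.LT.trForm_regAt hL hz hE hE' _
        (Pool.Agent.W619.PQ.extForm_pluri 1 D x f) P hP fun Q e hQ =>
          ext_reg hD hx hf Q (Pool.Agent.Y172.divisorial_up hQ hP)
      rw [ext_val, ← hJ] at h1
      have h2 : pf z 1 (T f) = Pool.Agent.Y184.NT.trForm z
          (Algebra.trace L K (J * ∏ i, (f i : K))) := by
        funext G
        rw [pf, Pool.Agent.Y184.NT.trForm, pow_one, hT]
      rw [h2]
      exact h1
    have hT0 : T g ≠ 0 := by
      rw [hT]
      exact hTg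
    -- factors in `L`
    have halgL : ∀ l, F l ≤ L → ∀ u : F l, IsAlgebraic N (u : K) := by
      intro l hl u
      refine alg_factor N (htr l) ?_ u
      have hf : ∀ w : F l, RegD (D l) w → ∀ j, RegD (D j) (Function.update g l w j) := by
        intro w hw j
        by_cases hj : j = l
        · subst hj
          rw [Function.update_self]
          exact hw
        · rw [Function.update_of_ne hj]
          exact hgr j
      have h1 : ∀ w : F l, RegD (D l) w → IsAlgebraic N ((w : K) / (g l : K)) := by
        intro w hw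
        have h2 := hNm _ (hf w hw)
        obtain ⟨w', hw'⟩ : ∃ w' : L, algebraMap L K w' = (w : K) / (g l : K) :=
          ⟨⟨(w : K) / (g l : K), L.div_mem (hl w.2) (hl (g l).2)⟩, rfl⟩
        have hgl : (g l : K) ≠ 0 := fun h => (hgr l).1 (Subtype.ext h)
        have h3 : J * ∏ i, ((Function.update g l w i : F i) : K) =
            w' • (J * ∏ i, (g i : K)) := by
          rw [← Finset.mul_prod_erase _ _ (Finset.mem_univ l), Function.update_self,
            ← Finset.mul_prod_erase _ (fun i => (g i : K)) (Finset.mem_univ l)]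
          have h3 : ∏ j ∈ Finset.univ.erase l, ((Function.update g l w j : F j) : K) =
              ∏ j ∈ Finset.univ.erase l, (g j : K) :=
            Finset.prod_congr rfl fun j hj => by
              rw [Function.update_of_ne (Finset.ne_of_mem_erase hj)]
          rw [h3, Algebra.smul_def, hw']
          field_simp
        rw [h3, map_smul, smul_eq_mul, mul_div_assoc, div_self hTg, mul_one] at h2
        rw [← hw']
        exact isAlgebraic_algebraMap (A := K) (⟨w', h2⟩ : N)
      have h2 := (h1 (f1 l) (hf1 l)).mul (h1 (f0 l) (hf0 l)).inv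
      have hgl : (g l : K) ≠ 0 := fun h => (hgr l).1 (Subtype.ext h)
      have h3 : (f1 l : K) / (g l : K) * ((f0 l : K) / (g l : K))⁻¹ =
          ((f1 l / f0 l : F l) : K) := by
        have h4 : ((f1 l / f0 l : F l) : K) = (f1 l : K) / (f0 l : K) := rfl
        rw [h4]
        have hfl0 : (f0 l : K) ≠ 0 := fun h => (hf0 l).1 (Subtype.ext h)
        field_simp
      rw [← h3]
      exact h2
    -- at most one factor is not algebraic over `N`
    have hone : ∀ p q : Fin n, p ≠ q → (∀ u : F p, IsAlgebraic N (u : K)) ∨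
        ∀ u : F q, IsAlgebraic N (u : K) := by
      intro p q hpq
      rcases hH p with hp | hp
      · exact Or.inl (halgL p hp)
      rcases hH q with hq | hq
      · exact Or.inr (halgL q hq)
      exact alg_of_two hD N hJ0 hgr hTg hNm hpq hp hq
        (by have := hg p; have := hfl p; omega) (by have := hg q; have := hfl q; omega)
        (by
          rcases hstr p q hpq with ⟨h, h'⟩ | ⟨h, h'⟩
          · exact Or.inl ⟨h, by have := hfl p; omega⟩
          · exact Or.inr ⟨h, by have := hfl q; omega⟩)
    refine ⟨fun h0 => ?_, ?_, ?_⟩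
    · exfalso
      apply hTg
      have h1 := Pool.Agent.Y692.NT.t_Tr L K n hL h0 (extForm 1 D x g)
        (Pool.Agent.W619.PQ.extForm_pluri 1 D x g)
        (fun P hP => ext_reg hD hx hgr P hP) E E' hE'
      rw [ext_val, ← hJ] at h1
      exact h1
    · right
      obtain ⟨P, hPd⟩ : ∃ P : Finset (Fin n), P = Finset.univ.filter fun p =>
        ∀ u : F p, IsAlgebraic N (u : K) := ⟨_, rfl⟩
      have h1 := hkod P fun p hp => by
        rw [hPd, Finset.mem_filter] at hp
        exact hp.2
      refine Pool.Agent.R882.UA.kod_mono h1 ?_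
      by_contra hcon
      have h2 : 1 < (Finset.univ \ P).card := by
        rw [Finset.card_sdiff_of_subset (Finset.subset_univ P), Finset.card_univ,
          Fintype.card_fin]
        omega
      obtain ⟨p, hp, q, hq, hpq⟩ := Finset.one_lt_card.1 h2
      rw [hPd, Finset.mem_sdiff, Finset.mem_filter] at hp hq
      rcases hone p q hpq with h | h
      · exact hp.2 ⟨Finset.mem_univ _, h⟩
      · exact hq.2 ⟨Finset.mem_univ _, h⟩
    · by_cases hall : ∀ p, ∀ u : F p, IsAlgebraic N (u : K)
      · left
        have h1 := hkod Finset.univ fun p _ => hall p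
        rwa [Finset.card_univ, Fintype.card_fin] at h1
      push Not at hall
      obtain ⟨p, hp⟩ := hall
      by_cases hall2 : ∀ j, j ≠ p → F j ≤ L
      · exact Or.inr ⟨p, hall2⟩
      left
      push Not at hall2
      obtain ⟨l, hlp, hl⟩ := hall2
      obtain ⟨b, hb⟩ := exists_prim ((hH l).resolve_left hl)
      have hNN : N ≤ Nf z := by
        rw [hN, IntermediateField.adjoin_le_iff]
        rintro _ ⟨f, hf, rfl⟩
        refine mem_Nf.2 ⟨1, T f, T g, hTreg f hf, hTreg g hgr, hT0, ?_⟩
        rw [hT]
      have hup : ∀ u : K, IsAlgebraic N u → IsAlgebraic (Nf z) u := by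
        intro u hu
        let _ : Algebra N (Nf z) := (IntermediateField.inclusion hNN).toRingHom.toAlgebra
        have : IsScalarTower N (Nf z) K := IsScalarTower.of_algebraMap_eq fun _ => rfl
        exact hu.extendScalars (IntermediateField.inclusion hNN).toRingHom.injective
      have halg : ∀ j, j ≠ p → ∀ u : F j, IsAlgebraic N (u : K) := fun j hj =>
        (hone j p hj).resolve_right fun h => by
          obtain ⟨u, hu⟩ := hp
          exact hu (h u)
      have hbN : IsAlgebraic (Nf z) (b : K) := hup _ (halg l hlp b)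
      have hreg : ∀ w : F p, RegD (D p) w → ∀ j, RegD (D j) (Function.update g p w j) := by
        intro w hw j
        by_cases hj : j = p
        · subst hj
          rw [Function.update_self]
          exact hw
        · rw [Function.update_of_ne hj]
          exact hgr j
      have h1 : ∀ w : F p, RegD (D p) w → IsAlgebraic (Nf z)
          (J * ((w : K) * ∏ j ∈ Finset.univ.erase p, (g j : K)) / algebraMap L K (T g)) := by
        intro w hw
        have h2 := iit hL hz hE hE' hb hbN
          (Pool.Agent.W619.PQ.extForm_pluri 1 D x (Function.update g p w))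
          (fun Q hQ => ext_reg hD hx (hreg w hw) Q hQ) hT0 (hTreg g hgr)
        rw [ext_val, ← hJ] at h2
        have h3 : ∏ i, ((Function.update g p w i : F i) : K) =
            (w : K) * ∏ j ∈ Finset.univ.erase p, (g j : K) := by
          rw [← Finset.mul_prod_erase _ _ (Finset.mem_univ p), Function.update_self]
          congr 1
          exact Finset.prod_congr rfl fun j hj => by
            rw [Function.update_of_ne (Finset.ne_of_mem_erase hj)]
        rw [h3] at h2
        exact h2
      have hpr0 : ∏ j ∈ Finset.univ.erase p, (g j : K) ≠ 0 :=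
        Finset.prod_ne_zero_iff.2 fun i _ h => (hgr i).1 (Subtype.ext h)
      have hT0' : algebraMap L K (T g) ≠ 0 := (_root_.map_ne_zero _).2 hT0
      have h2 : IsAlgebraic (Nf z) ((f1 p / f0 p : F p) : K) := by
        have h3 := (h1 (f1 p) (hf1 p)).mul (h1 (f0 p) (hf0 p)).inv
        have h4 : ((f1 p / f0 p : F p) : K) = (f1 p : K) / (f0 p : K) := rfl
        have h5 : J * ((f1 p : K) * ∏ j ∈ Finset.univ.erase p, (g j : K)) /
            algebraMap L K (T g) * (J * ((f0 p : K) * ∏ j ∈ Finset.univ.erase p, (g j : K)) /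
            algebraMap L K (T g))⁻¹ = ((f1 p / f0 p : F p) : K) := by
          rw [h4]
          have hfl0 : (f0 p : K) ≠ 0 := fun h => (hf0 p).1 (Subtype.ext h)
          field_simp
        rw [← h5]
        exact h3
      refine kod_top (K := K) hE hT0 (hTreg g hgr) (x := fun i => (x i : K)) hxb.1 fun i => ?_
      by_cases hi : i = p
      · subst hi
        exact alg_factor (Nf z) (htr i) h2 (x i)
      · exact hup _ (halg i hi (x i))

end Pool.Agent.Helper11K9.PR
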