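import Pool.Agent.Helper11K9.PR.Main2
import Pool.Agent.Helper11K9.PR.Main

/-!
Images of products of curves of large genus: the statement with genera and gonalities.
-/

set_option autoImplicit false
set_option linter.overlappingInstances false
set_option linter.unusedSectionVars false

open FF IntermediateField Pool.Agent.W602.GT

namespace Pool.Agent.Helper11K9.PR

open Pool.Agent.W619.PQ (IsUniruled)
open Pool.Agent.R882.Over (GenusZero)

/-- the gonality of a curve -/
noncomputable def gon (F : Type) [Field F] [Algebra ℂ F] : ℕ :=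
  sInf {d : ℕ | ∃ t : F, Transcendental ℂ t ∧
    d = Module.finrank (IntermediateField.adjoin ℂ {t}) F}

/-- the genus of a curve -/
noncomputable def gen (k F : Type) [Field k] [Field F] [Algebra k F] : ℕ :=
  Module.finrank k (regForms k F)

theorem gen_eq (F : Type) [Field F] [Algebra ℂ F] :
    gen ℂ F = Module.finrank ℂ (Pool.Agent.Helper11K9.OD.regularForms F) := rfl

theorem gon_le {F : Type} [Field F] [Algebra ℂ F] {t : F} (ht : Transcendental ℂ t) :
    gon F ≤ Module.finrank (IntermediateField.adjoin ℂ {t}) F := Nat.sInf_le ⟨t, ht, rfl⟩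

theorem two_le_gon' {F : Type} [Field F] [Algebra ℂ F] [IsFF ℂ F] (hg : 0 < gen ℂ F) :
    2 ≤ gon F := by
  have hne : {d : ℕ | ∃ t : F, Transcendental ℂ t ∧
      d = Module.finrank (IntermediateField.adjoin ℂ {t}) F}.Nonempty := by
    obtain ⟨t, ht⟩ := IsFF.exists_transcendental (k := ℂ) (K := F)
    exact ⟨_, t, ht, rfl⟩
  obtain ⟨t, ht, hd⟩ := Nat.sInf_mem hne
  have h1 : gon F = Module.finrank (IntermediateField.adjoin ℂ {t}) F := hd
  rw [h1]
  refine Pool.Agent.Helper11K9.OD.two_le ?_ ht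
  rw [gen_eq] at hg
  exact hg

/-- maps of prime degree -/
theorem of_prime {K : Type} [Field K] [Algebra ℂ K] {n : ℕ} (F : Fin n → IntermediateField ℂ K)
    (L : IntermediateField ℂ K) [FiniteDimensional L K] (hp : (Module.finrank L K).Prime)
    (i : Fin n) : F i ≤ L ∨ IntermediateField.adjoin L (F i : Set K) = ⊤ := by
  have hmul := Module.finrank_mul_finrank L (IntermediateField.adjoin L (F i : Set K)) K
  rcases (Nat.dvd_prime hp).1 (Dvd.intro _ hmul) with h | h
  · left
    rw [IntermediateField.finrank_eq_one_iff] at h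
    intro w hw
    have h2 : w ∈ IntermediateField.adjoin L (F i : Set K) :=
      IntermediateField.subset_adjoin L _ hw
    rw [h, IntermediateField.mem_bot] at h2
    obtain ⟨w', hw'⟩ := h2
    rw [← hw']
    exact w'.2
  · right
    rw [h] at hmul
    have h3 : Module.finrank (IntermediateField.adjoin L (F i : Set K)) K = 1 := by
      have h4 := hp.pos
      exact Nat.eq_of_mul_eq_mul_left h4 (by rw [hmul, mul_one])
    exact IntermediateField.finrank_eq_one_iff_eq_top.1 h3

/-- the equivalences -/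
theorem tfae_of {K : Type} [Field K] [Algebra ℂ K] {n : ℕ} [Algebra.EssFiniteType ℂ K]
    (hn : Algebra.trdeg ℂ K = n) (L : IntermediateField ℂ K) [FiniteDimensional L K]
    (key : GenusZero L n → IsUniruled ℂ L n) :
    [GenusZero L n, ¬ KodGe ℂ L n (fun _ => False) 0, ¬ Psef ℂ L n (fun _ => False),
      IsUniruled ℂ L n].TFAE := by
  have hessL : Algebra.EssFiniteType ℂ L := Pool.Agent.TH466.QG.ess_below (K := K)
  have hL : Algebra.trdeg ℂ L = n := Pool.Agent.Y184.NT.trdeg_below (K := K) hn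
  have h21 : ¬ KodGe ℂ L n (fun _ => False) 0 → GenusZero L n := by
    intro h ω hω hreg D
    by_contra hne
    refine h ⟨1, one_pos, fun _ => ω, fun _ => ⟨hω, fun P hP D' hD' => ?_,
      fun P hP _ => hreg P hP⟩, D, hne, ?_⟩
    · exact hreg P hP D' fun i => Pool.Agent.TH466.QG.derReg_of_log (hD' i)
    · exact algebraicIndependent_empty_type
  have h43 : IsUniruled ℂ L n → ¬ Psef ℂ L n (fun _ => False) := fun h h' =>
    (Pool.Agent.W619.Y.uniruled_neg n hL h).1 ((Pool.Agent.TH466.QG.psef_iff n).1 h')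
  have h32 : ¬ Psef ℂ L n (fun _ => False) → ¬ KodGe ℂ L n (fun _ => False) 0 :=
    fun h h' => h (psef_of_kodGe h')
  tfae_have 1 → 4 := key
  tfae_have 4 → 3 := h43
  tfae_have 3 → 2 := h32
  tfae_have 2 → 1 := h21
  tfae_finish

/-- **Images of products of curves of large genus.** -/
theorem final {n : ℕ} {K : Type} [Field K] [Algebra ℂ K] (F : Fin n → IntermediateField ℂ K)
    [∀ i, IsFF ℂ (F i)] (hsup : ⨆ i, F i = ⊤) (hn : Algebra.trdeg ℂ K = n)
    (L : IntermediateField ℂ K) [FiniteDimensional L K] {r : ℕ} (hr : Module.finrank L K = r)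
    (hg : ∀ i, r ≤ gen ℂ (F i) ∧ 2 ≤ gen ℂ (F i))
    (hpair : ∀ i j, i ≠ j → (3 ≤ gon (F i) ∧ r + 2 ≤ gen ℂ (F i)) ∨
      (3 ≤ gon (F j) ∧ r + 2 ≤ gen ℂ (F j)))
    (hmap : r.Prime ∨ (∀ i, F i ≤ L ∨ IntermediateField.adjoin L (F i : Set K) = ⊤) ∨
      ∀ i j, i ≠ j → 2 * r < r.minFac * gon (F j) ∨
        2 * r < gon (F i) + r.minFac * (gon (F j) - 2)) :
    [GenusZero L n, ¬ KodGe ℂ L n (fun _ => False) 0, ¬ Psef ℂ L n (fun _ => False),
      IsUniruled ℂ L n].TFAE ∧
    (IsUniruled ℂ L n ∨ KodGe ℂ L n (fun _ => False) (n - 1)) ∧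
    (KodGe ℂ L n (fun _ => False) n ∨ CoveredLow L n) ∧
    (r.Prime ∨ (∀ i, F i ≤ L ∨ IntermediateField.adjoin L (F i : Set K) = ⊤) →
      KodGe ℂ L n (fun _ => False) n ∨ ∃ p, ∀ j, j ≠ p → F j ≤ L) := by
  have hessK : Algebra.EssFiniteType ℂ K := Pool.Agent.Helper11K9.PC.ess_top F hsup
  subst hr
  have hγ : ∀ i (t : F i), Transcendental ℂ t →
      gon (F i) ≤ Module.finrank (IntermediateField.adjoin ℂ {t}) (F i) := fun i t ht => gon_le ht
  have hγ2 : ∀ i, 2 ≤ gon (F i) := fun i => two_le_gon' (by have := (hg i).2; omega)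
  have hℓ : ∀ q, q ∣ Module.finrank L K → q ≠ 1 → (Module.finrank L K).minFac ≤ q :=
    fun q hq hq1 => Nat.minFac_le_of_dvd (by
      rcases Nat.eq_zero_or_pos q with h | h
      · exfalso
        subst h
        have h1 : 0 < Module.finrank L K := Module.finrank_pos
        have h2 := Nat.eq_zero_of_zero_dvd hq
        omega
      · omega) hq
  obtain ⟨h1, h2, h3⟩ := main2 F hsup hn hγ hγ2 L hℓ (fun i => (hg i).1) (fun i => (hg i).2)
    hpair (by
      rcases hmap with h | h | h
      · exact Or.inl fun i => of_prime F L h i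
      · exact Or.inl h
      · exact Or.inr h)
  refine ⟨tfae_of hn L h1, h2, h3, fun h => ?_⟩
  refine (main F hsup hn L (by
    rcases h with h | h
    · exact fun i => of_prime F L h i
    · exact h) (fun i => (hg i).1) (fun i => (hg i).2) (fun i j hij => ?_)).2.2
  rcases hpair i j hij with ⟨h, h'⟩ | ⟨h, h'⟩
  · exact Or.inl ⟨fun t ht => h.trans (hγ i t ht), h'⟩
  · exact Or.inr ⟨fun t ht => h.trans (hγ j t ht), h'⟩

end Pool.Agent.Helper11K9.PR
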