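import Mathlib

/-!
Linear systems with the traces of powers as coefficients.
-/

set_option autoImplicit false
set_option linter.overlappingInstances false
set_option linter.unusedSectionVars false

namespace Pool.Agent.Helper11K9.PR

section

variable {L : Type} [Field L]

/-- solutions of linear systems over a subring -/
theorem cramer_mem {s : ℕ} {M : Matrix (Fin s) (Fin s) L} {c v : Fin s → L}
    (h : M.mulVec c = v) (hM : M.det ≠ 0) (R : Subring L) (hR : ∀ i j, M i j ∈ R)
    (hv : ∀ j, v j ∈ R) (hd : M.det⁻¹ ∈ R) (i : Fin s) : c i ∈ R := by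
  have h1 : M.adjugate.mulVec v = M.det • c := by
    rw [← h, Matrix.mulVec_mulVec, Matrix.adjugate_mul, Matrix.smul_mulVec, Matrix.one_mulVec]
  have h2 : c i = M.det⁻¹ * ∑ j, M.adjugate i j * v j := by
    have h3 := congrFun h1 i
    rw [Pi.smul_apply, smul_eq_mul] at h3
    have h4 : M.adjugate.mulVec v i = ∑ j, M.adjugate i j * v j := rfl
    rw [← h4, h3, ← mul_assoc, inv_mul_cancel₀ hM, one_mul]
  rw [h2]
  refine R.mul_mem hd (R.sum_mem fun j _ => R.mul_mem ?_ (hv j))
  rw [Matrix.adjugate_apply, Matrix.det_apply]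
  refine R.sum_mem fun σ _ => ?_
  rw [Units.smul_def]
  refine R.zsmul_mem (R.prod_mem fun k _ => ?_) _
  rw [Matrix.updateRow_apply]
  split_ifs with h5
  · by_cases h6 : k = i
    · subst h6
      rw [Pi.single_eq_same]
      exact R.one_mem
    · rw [Pi.single_eq_of_ne h6]
      exact R.zero_mem
  · exact hR _ _

end

section

variable {L K : Type} [Field L] [Field K] [Algebra L K] [FiniteDimensional L K]

/-- the powers of an element -/
theorem exists_pow (L : Type) {K : Type} [Field L] [Field K] [Algebra L K]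
    [FiniteDimensional L K] (u : K) : ∃ s : ℕ,
    LinearIndependent L (fun i : Fin s => u ^ (i : ℕ)) ∧
    ∀ x ∈ IntermediateField.adjoin L {u}, ∃ c : Fin s → L,
      x = ∑ i, algebraMap L K (c i) * u ^ (i : ℕ) := by
  have hu : IsIntegral L u := Algebra.IsIntegral.isIntegral u
  refine ⟨(minpoly L u).natDegree, linearIndependent_pow u, fun x hx => ?_⟩
  let pb := IntermediateField.adjoin.powerBasis hu
  have h1 := pb.basis.sum_repr ⟨x, hx⟩
  have h2 := congrArg (algebraMap (IntermediateField.adjoin L {u}) K) h1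
  rw [map_sum] at h2
  refine ⟨fun i => pb.basis.repr ⟨x, hx⟩ i, h2.symm.trans ?_⟩
  refine Finset.sum_congr rfl fun i _ => ?_
  rw [PowerBasis.coe_basis, Algebra.smul_def, map_mul, map_pow]
  rfl

/-- the matrix of the traces of the powers -/
noncomputable def trm (L : Type) {K : Type} [Field L] [Field K] [Algebra L K] (u : K) (s : ℕ) :
    Matrix (Fin s) (Fin s) L :=
  Matrix.of fun i j => Algebra.trace L K (u ^ ((i : ℕ) + (j : ℕ)))

theorem trm_det [CharZero L] {u : K} {s : ℕ}
    (h1 : LinearIndependent L (fun i : Fin s => u ^ (i : ℕ)))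
    (h2 : ∀ x ∈ IntermediateField.adjoin L {u}, ∃ c : Fin s → L,
      x = ∑ i, algebraMap L K (c i) * u ^ (i : ℕ)) : (trm L u s).det ≠ 0 := by
  intro h0
  obtain ⟨v, hv0, hv⟩ := Matrix.exists_mulVec_eq_zero_iff.2 h0
  obtain ⟨x, hx⟩ : ∃ x, x = ∑ i, algebraMap L K (v i) * u ^ (i : ℕ) := ⟨_, rfl⟩
  have hx0 : x ≠ 0 := by
    intro h
    refine hv0 (funext fun i => ?_)
    refine Fintype.linearIndependent_iff.1 h1 v ?_ i
    rw [← h, hx]
    exact Finset.sum_congr rfl fun i _ => Algebra.smul_def _ _
  have hxm : x ∈ IntermediateField.adjoin L {u} := by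
    rw [hx]
    exact sum_mem fun i _ => mul_mem ((IntermediateField.adjoin L {u}).algebraMap_mem _)
      (pow_mem (IntermediateField.mem_adjoin_simple_self L u) _)
  obtain ⟨c, hc⟩ := h2 x⁻¹ (inv_mem hxm)
  have h3 : Algebra.trace L K (x * x⁻¹) = 0 := by
    conv_lhs => rw [hc]
    rw [Finset.mul_sum, map_sum]
    refine Finset.sum_eq_zero fun j _ => ?_
    have h4 : x * (algebraMap L K (c j) * u ^ (j : ℕ)) = c j • (x * u ^ (j : ℕ)) := by
      rw [Algebra.smul_def]
      ring
    rw [h4, map_smul]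
    have h5 : Algebra.trace L K (x * u ^ (j : ℕ)) = (trm L u s).mulVec v j := by
      rw [hx, Finset.sum_mul, map_sum]
      refine Finset.sum_congr rfl fun i _ => ?_
      have h6 : algebraMap L K (v i) * u ^ (i : ℕ) * u ^ (j : ℕ) =
          v i • u ^ ((j : ℕ) + (i : ℕ)) := by
        rw [Algebra.smul_def, pow_add]
        ring
      rw [h6, map_smul, smul_eq_mul, mul_comm]
      rfl
    rw [h5, hv, Pi.zero_apply, smul_zero]
  rw [mul_inv_cancel₀ hx0] at h3
  have h4 := Algebra.trace_algebraMap (R := L) (S := K) 1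
  rw [map_one, h3, nsmul_eq_mul, mul_one] at h4
  exact (Nat.cast_ne_zero.2 (Module.finrank_pos (R := L) (M := K)).ne') h4.symm

/-- the coefficients of an element with traces in a subring -/
theorem coef_mem {u : K} {s : ℕ} (hdet : (trm L u s).det ≠ 0) {x : K} {c : Fin s → L}
    (hc : x = ∑ i, algebraMap L K (c i) * u ^ (i : ℕ)) (R : Subring L)
    (hR : ∀ k : ℕ, Algebra.trace L K (u ^ k) ∈ R)
    (hx : ∀ j : ℕ, Algebra.trace L K (x * u ^ j) ∈ R) (hd : (trm L u s).det⁻¹ ∈ R) (i : Fin s) :
    c i ∈ R := by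
  refine cramer_mem (M := trm L u s) (v := fun j => Algebra.trace L K (x * u ^ (j : ℕ))) ?_ hdet R
    (fun i j => hR _) (fun j => hx _) hd i
  funext j
  have h5 : Algebra.trace L K (x * u ^ (j : ℕ)) = (trm L u s).mulVec c j := by
    rw [hc, Finset.sum_mul, map_sum]
    refine Finset.sum_congr rfl fun i _ => ?_
    have h6 : algebraMap L K (c i) * u ^ (i : ℕ) * u ^ (j : ℕ) =
        c i • u ^ ((j : ℕ) + (i : ℕ)) := by
      rw [Algebra.smul_def, pow_add]
      ring
    rw [h6, map_smul, smul_eq_mul, mul_comm]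
    rfl
  exact h5.symm

end

section

variable {L K : Type} [Field L] [Field K] [Algebra ℂ L] [Algebra L K] [FiniteDimensional L K]

/-- an element is algebraic over a field which contains the traces of its powers -/
theorem alg_of_traces (N : IntermediateField ℂ L) {u : K}
    (h : ∀ k : ℕ, 1 ≤ k → Algebra.trace L K (u ^ k) ∈ N) : IsAlgebraic N u := by
  have hL0 : CharZero L := charZero_of_injective_algebraMap (algebraMap ℂ L).injective
  obtain ⟨s, h1, h2⟩ := exists_pow L u
  have hdet := trm_det h1 h2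
  have hR : ∀ k : ℕ, Algebra.trace L K (u ^ k) ∈ N := by
    intro k
    rcases Nat.eq_zero_or_pos k with hk | hk
    · subst hk
      have h4 := Algebra.trace_algebraMap (R := L) (S := K) 1
      rw [map_one] at h4
      rw [pow_zero, h4]
      exact nsmul_mem N.one_mem _
    · exact h k hk
  obtain ⟨c, hc⟩ := h2 (u ^ s) (pow_mem (IntermediateField.mem_adjoin_simple_self L u) _)
  have hd : (trm L u s).det ∈ N := by
    rw [Matrix.det_apply]
    refine sum_mem fun σ _ => ?_
    rw [Units.smul_def]
    exact zsmul_mem (prod_mem fun k _ => hR _) _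
  have h3 : ∀ i, c i ∈ N := fun i =>
    coef_mem hdet hc N.toSubfield.toSubring hR (fun j => by
      rw [← pow_add]
      exact hR _) (N.inv_mem hd) i
  refine ⟨Polynomial.X ^ s - ∑ i : Fin s, Polynomial.C (⟨c i, h3 i⟩ : N) * Polynomial.X ^ (i : ℕ),
    ?_, ?_⟩
  · intro h4
    have h5 := congrArg (fun p => Polynomial.coeff p s) h4
    simp only [Polynomial.coeff_sub, Polynomial.coeff_X_pow, if_true, Polynomial.coeff_zero,
      Polynomial.finsetSum_coeff, Polynomial.coeff_C_mul] at h5
    rw [Finset.sum_eq_zero (fun i _ => by rw [if_neg i.2.ne', mul_zero]), sub_zero] at h5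
    exact one_ne_zero h5
  · rw [map_sub, map_pow, Polynomial.aeval_X, map_sum, sub_eq_zero]
    conv_lhs => rw [hc]
    refine Finset.sum_congr rfl fun i _ => ?_
    rw [map_mul, map_pow, Polynomial.aeval_X, Polynomial.aeval_C]
    rfl

end

end Pool.Agent.Helper11K9.PR
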