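import Pool.Agent.Helper11K9.PR.Forms
import Pool.Agent.Helper11K9.PR.Cram

/-!
The ratio of a regular form upstairs and a regular form downstairs is algebraic over the field of the
ratios of the regular pluricanonical forms downstairs, if a primitive element is.
-/

set_option autoImplicit false
set_option linter.overlappingInstances false
set_option linter.unusedSectionVars false

open FF Pool.Agent.W602.GT Pool.Agent.W603.LV Pool.Agent.Y172

namespace Pool.Agent.Helper11K9.PR

/-- the ring of the functions which are regular at a place -/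
def rgs {F : Type} [Field F] [Algebra ℂ F] (P : Place ℂ F) : Subring F where
  carrier := {x | Ge P 0 x}
  mul_mem' := fun {a b} ha hb => by
    have h1 : Ge P 0 a := ha
    have h2 : Ge P 0 b := hb
    have h3 := h1.mul h2
    rw [zero_add] at h3
    exact h3
  one_mem' := Ge.one
  add_mem' := fun {a b} ha hb => by
    have h1 : Ge P 0 a := ha
    have h2 : Ge P 0 b := hb
    exact h1.add h2
  zero_mem' := Ge.zero
  neg_mem' := fun {a} ha => by
    have h1 : Ge P 0 a := ha
    exact h1.neg

section

variable {L K : Type} [Field L] [Field K] [Algebra ℂ L] [Algebra ℂ K] [Algebra L K]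
  [IsScalarTower ℂ L K] [FiniteDimensional L K] {n : ℕ}

/-- at a place where the powers of a primitive element are an integral basis with unit discriminant,
mild poles are no poles -/
theorem good_reg {P : Place ℂ L} {b : K}
    (hb : ∀ (Q : Place ℂ K) (e : ℕ), Over Q P e → Ge Q 0 b) {s : ℕ}
    (h2 : ∀ x : K, ∃ c : Fin s → L, x = ∑ i, algebraMap L K (c i) * b ^ (i : ℕ))
    (hdet : (trm L b s).det ≠ 0) (hd : Ge P 0 (trm L b s).det⁻¹) {z : K}
    (hz : ∀ (Q : Place ℂ K) (e : ℕ), Over Q P e → Ge Q (1 - e) z) (Q : Place ℂ K) (e : ℕ)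
    (hQ : Over Q P e) : Ge Q 0 z := by
  obtain ⟨c, hc⟩ := h2 z
  have hb' : ∀ (k : ℕ) (Q : Place ℂ K) (e : ℕ), Over Q P e → Ge Q 0 (b ^ k) := fun k Q e hQ => by
    have h3 := (hb Q e hQ).pow k
    rwa [mul_zero] at h3
  have h3 : ∀ i, c i ∈ rgs P := coef_mem hdet hc (rgs P)
    (fun k => Pool.Agent.Y692.NT.trace_reg P _ fun Q e hQ => (hb' k Q e hQ).mono (by
      have := hQ.1
      omega))
    (fun j => Pool.Agent.Y692.NT.trace_reg P _ fun Q e hQ => by
      have h3 := (hz Q e hQ).mul (hb' j Q e hQ)
      rwa [add_zero] at h3) hd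
  rw [hc]
  refine Ge.sum _ _ fun i _ => ?_
  have h4 : Ge Q 0 (algebraMap L K (c i)) := by
    have h5 := (over_ge hQ (c := 0) (f := c i)).2 (h3 i)
    rwa [mul_zero] at h5
  have h6 := h4.mul (hb' i Q e hQ)
  rwa [add_zero] at h6

/-- the leading coefficient of an algebraic equation vanishes below the poles -/
theorem lead_ge {P : Place ℂ L} {Q : Place ℂ K} {e : ℕ} (hQ : Over Q P e) {x : K}
    (hx : Q.ord x < 0) {d : ℕ} {α : ℕ → L} (hα : ∀ i, i < d → Ge P 0 (α i))
    (h : ∑ i ∈ Finset.range (d + 1), algebraMap L K (α i) * x ^ i = 0) : Ge P 1 (α d) := by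
  have hx0 : x ≠ 0 := by
    intro h0
    rw [h0, Q.ord_zero] at hx
    omega
  have h1 : algebraMap L K (α d) =
      -∑ i ∈ Finset.range d, algebraMap L K (α i) * (x⁻¹) ^ (d - i) := by
    rw [Finset.sum_range_succ, add_comm, ← eq_neg_iff_add_eq_zero] at h
    have h2 : algebraMap L K (α d) = algebraMap L K (α d) * x ^ d * (x⁻¹) ^ d := by
      rw [mul_assoc, ← mul_pow, mul_inv_cancel₀ hx0, one_pow, mul_one]
    rw [h2, h, neg_mul, Finset.sum_mul]
    congr 1
    refine Finset.sum_congr rfl fun i hi => ?_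
    rw [Finset.mem_range] at hi
    have h3 : (x⁻¹) ^ d = (x⁻¹) ^ i * (x⁻¹) ^ (d - i) := by
      rw [← pow_add]
      congr 1
      omega
    rw [h3, mul_assoc, ← mul_assoc (x ^ i), ← mul_pow, mul_inv_cancel₀ hx0, one_pow, one_mul]
  have h2 : Ge Q 1 (algebraMap L K (α d)) := by
    rw [h1]
    refine Ge.neg (Ge.sum _ _ fun i hi => ?_)
    rw [Finset.mem_range] at hi
    have h3 : Ge Q 0 (algebraMap L K (α i)) := by
      have h5 := (over_ge hQ (c := 0) (f := α i)).2 (hα i hi)
      rwa [mul_zero] at h5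
    have h4 : Ge Q 1 x⁻¹ := Or.inr (by
      rw [Q.ord_inv]
      omega)
    have h5 := h3.mul (h4.pow (d - i))
    refine h5.mono ?_
    have : 1 ≤ d - i := by omega
    omega
  rcases h2 with h2 | h2
  · left
    rwa [map_eq_zero] at h2
  · right
    rw [hQ.2] at h2
    have h3 : (0 : ℤ) < e := by exact_mod_cast hQ.1
    by_contra hcon
    have h4 : P.ord (α d) ≤ 0 := by omega
    nlinarith

/-- a form which vanishes below the poles of an algebraic element -/
theorem alg_lead {y : Fin n → L} {x : K} (hx : IsAlgebraic (Nf y) x) :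
    ∃ (m : ℕ) (G : L), G ≠ 0 ∧ Rg y m G ∧ ∀ (P : Place ℂ L), Divisorial n P →
      ∀ (yP : Fin n → L) (EP : Fin n → Derivation ℂ L L) (i0 : Fin n), Loc P yP EP i0 →
      ∀ (Q : Place ℂ K) (e : ℕ), Over Q P e → Q.ord x < 0 → Ge P 1 (pf y m G EP) := by
  obtain ⟨p, hp0, hp⟩ := hx
  obtain ⟨m, B, hB, hB0, h⟩ := common_den (y := y) (Finset.range (p.natDegree + 1))
    (fun i => (p.coeff i : L)) fun i _ => (p.coeff i).2
  refine ⟨m, (p.coeff p.natDegree : L) * B, mul_ne_zero ?_ hB0,
    h _ (Finset.mem_range.2 (Nat.lt_succ_self _)), fun P hP yP EP i0 hl Q e hQ hxQ => ?_⟩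
  · intro h0
    have h1 : p.coeff p.natDegree = 0 := Subtype.ext h0
    exact hp0 (Polynomial.leadingCoeff_eq_zero.1 h1)
  · refine lead_ge hQ hxQ (α := fun i => pf y m ((p.coeff i : L) * B) EP) (fun i hi => ?_) ?_
    · exact (regAt_iff hl).1 (h i (Finset.mem_range.2 (by omega)) P hP)
    · rw [Polynomial.aeval_eq_sum_range] at hp
      have h1 : ∀ i, algebraMap L K (pf y m ((p.coeff i : L) * B) EP) * x ^ i =
          algebraMap L K ((Matrix.of fun i j => EP i (y j) : Matrix (Fin n) (Fin n) L).det ^ m *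
            B) * (p.coeff i • x ^ i) := by
        intro i
        have h2 : p.coeff i • x ^ i = algebraMap L K (p.coeff i : L) * x ^ i :=
          Algebra.smul_def _ _
        rw [h2]
        unfold pf
        simp only [map_mul]
        ring
      simp only [h1]
      rw [← Finset.mul_sum, hp, mul_zero]

/-- traces of algebraic elements are algebraic -/
theorem trace_alg (N : IntermediateField ℂ L) {x : K} (hx : IsAlgebraic N x) :
    IsAlgebraic N (Algebra.trace L K x) := by
  have hL0 : CharZero L := charZero_of_injective_algebraMap (algebraMap ℂ L).injective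
  have h1 := trace_eq_sum_embeddings (K := L) (L := K) (AlgebraicClosure K) (x := x)
  have h2 : IsAlgebraic N (algebraMap L (AlgebraicClosure K) (Algebra.trace L K x)) := by
    rw [h1, ← mem_algebraicClosure_iff]
    refine sum_mem fun σ _ => ?_
    rw [mem_algebraicClosure_iff]
    exact (isAlgebraic_algHom_iff (σ.restrictScalars N) σ.injective).2 hx
  exact (isAlgebraic_algebraMap_iff (algebraMap L (AlgebraicClosure K)).injective).1 h2

theorem det_alg (N : IntermediateField ℂ L) {b : K} (hb : IsAlgebraic N b) (s : ℕ) :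
    IsAlgebraic N (algebraMap L K (trm L b s).det⁻¹) := by
  have h1 : (trm L b s).det⁻¹ ∈ algebraicClosure N L := by
    refine inv_mem ?_
    rw [Matrix.det_apply]
    refine sum_mem fun σ _ => ?_
    rw [Units.smul_def]
    refine zsmul_mem (prod_mem fun k _ => ?_) _
    rw [mem_algebraicClosure_iff]
    exact trace_alg N (hb.pow _)
  rw [mem_algebraicClosure_iff] at h1
  exact h1.algebraMap


/-- **Forms upstairs and downstairs.** -/
theorem iit [Algebra.EssFiniteType ℂ L] [Algebra.EssFiniteType ℂ K]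
    (hn : Algebra.trdeg ℂ L = n) {y : Fin n → L} {E : Fin n → Derivation ℂ L L}
    (hy : IsTranscendenceBasis ℂ y) (hE : ∀ i j, E i (y j) = if i = j then 1 else 0)
    {E' : Fin n → Derivation ℂ K K} (hE' : ∀ i f, E' i (algebraMap L K f) = algebraMap L K (E i f))
    {b : K} (hb : IntermediateField.adjoin L {b} = ⊤) (hbN : IsAlgebraic (Nf y) b)
    {W : (Fin n → Derivation ℂ K K) → K} (hW : IsPluri 1 W)
    (hreg : ∀ Q : Place ℂ K, Divisorial n Q → RegAt Q W) {T : L} (hT0 : T ≠ 0)
    (hT : Rg y 1 T) : IsAlgebraic (Nf y) (W E' / algebraMap L K T) := by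
  classical
  have hL0 : CharZero L := charZero_of_injective_algebraMap (algebraMap ℂ L).injective
  have hnK : Algebra.trdeg ℂ K = n := trdeg_up (K := L) hn
  obtain ⟨s, h1, h2⟩ := exists_pow L b
  have h2' : ∀ x : K, ∃ c : Fin s → L, x = ∑ i, algebraMap L K (c i) * b ^ (i : ℕ) :=
    fun x => h2 x (by rw [hb]; trivial)
  have hdet := trm_det h1 h2
  obtain ⟨m1, G1, hG10, hG1, hl1⟩ := alg_lead hbN
  obtain ⟨m2, G2, hG20, hG2, hl2⟩ := alg_lead (det_alg (Nf y) hbN s)
  obtain ⟨θ, hθ⟩ : ∃ θ, θ = W E' := ⟨_, rfl⟩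
  rw [← hθ]
  refine alg_of_traces (Nf y) fun k hk => ?_
  -- the form of weight `k`
  have hA : Rg y (k * (m1 + m2) + k * 1) ((G1 * G2) ^ k * Algebra.trace L K (θ ^ k)) := by
    intro P hP
    obtain ⟨yP, EP, i0, hl⟩ := exists_loc hn hP
    rw [regAt_iff hl, pf_mul, pf_pow]
    choose EP' hEP' using fun i => exists_lift (L := K) hn (EP i)
    obtain ⟨θP, hθP⟩ : ∃ θP, θP = W EP' := ⟨_, rfl⟩
    have hval : pf y (k * 1) (Algebra.trace L K (θ ^ k)) EP = Algebra.trace L K (θP ^ k) := by
      have h3 := pluri_coord (hy.algebraMap_comp (A := K)) (lift_dual hE hE') hW EP'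
      have h4 : (Matrix.of fun i j => EP' i ((algebraMap L K ∘ y) j) :
          Matrix (Fin n) (Fin n) K).det =
          algebraMap L K (Matrix.of fun i j => EP i (y j) : Matrix (Fin n) (Fin n) L).det := by
        rw [RingHom.map_det]
        congr 1
        ext i j
        rw [Matrix.of_apply, RingHom.mapMatrix_apply, Matrix.map_apply, Matrix.of_apply]
        exact hEP' i (y j)
      have h5 : θP ^ k = (Matrix.of fun i j => EP i (y j) : Matrix (Fin n) (Fin n) L).det ^ k •
          θ ^ k := by
        rw [hθP, h3, pow_one, Algebra.smul_def, map_pow, ← h4, mul_pow, hθ]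
      rw [h5, map_smul, smul_eq_mul, pf, mul_one]
    have hge : ∀ (Q : Place ℂ K) (e : ℕ), Over Q P e → Ge Q (1 - e) θP := by
      intro Q e hQ
      have hQd : Divisorial n Q := divisorial_up hQ hP
      have h1 := down_ge hnK hQ hQd hl hEP' hW (c := 0) (fun G' hG' => by
        rcases hreg Q hQd G' hG' with h | h
        · exact Or.inl h
        · exact Or.inr (by exact_mod_cast h))
      rw [← hθP] at h1
      rcases h1 with h1 | h1
      · exact Or.inl h1
      · right
        have h2 : ((1 - e : ℤ) : ℝ) ≤ (Q.ord θP : ℝ) := by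
          push_cast
          push_cast at h1
          linarith
        exact_mod_cast h2
    have hP1 : Ge P 0 (pf y m1 G1 EP) := (regAt_iff hl).1 (hG1 P hP)
    have hP2 : Ge P 0 (pf y m2 G2 EP) := (regAt_iff hl).1 (hG2 P hP)
    rw [hval, pf_mul]
    by_cases hgood : (∀ (Q : Place ℂ K) (e : ℕ), Over Q P e → Ge Q 0 b) ∧
        Ge P 0 (trm L b s).det⁻¹
    · have h3 := good_reg hgood.1 h2' hdet hgood.2 hge
      have h4 : Ge P 0 (Algebra.trace L K (θP ^ k)) :=
        Pool.Agent.Y692.NT.trace_reg P _ fun Q e hQ => by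
          have h5 := (h3 Q e hQ).pow k
          rw [mul_zero] at h5
          exact h5.mono (by
            have := hQ.1
            omega)
      have h5 := ((hP1.mul hP2).pow k).mul h4
      rw [add_zero, add_zero, mul_zero] at h5
      exact h5
    · have h3 : Ge P 1 (pf y m1 G1 EP * pf y m2 G2 EP) := by
        rw [not_and_or] at hgood
        rcases hgood with hg | hg
        · push Not at hg
          obtain ⟨Q, e, hQ, hbQ⟩ := hg
          have h4 : Q.ord b < 0 := by
            by_contra hcon
            exact hbQ (Or.inr (by omega))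
          have h5 := (hl1 P hP yP EP i0 hl Q e hQ h4).mul hP2
          rwa [add_zero] at h5
        · obtain ⟨Q, e, hQ⟩ := exists_above (L := K) P
          have h4 : P.ord (trm L b s).det⁻¹ < 0 := by
            by_contra hcon
            exact hg (Or.inr (by omega))
          have h6 : (0 : ℤ) < e := by exact_mod_cast hQ.1
          have h5 := hP1.mul (hl2 P hP yP EP i0 hl Q e hQ (by
            rw [hQ.2]
            exact mul_neg_of_pos_of_neg h6 h4))
          rwa [zero_add] at h5
      have h4 : Ge P (1 - k) (Algebra.trace L K (θP ^ k)) := by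
        have h5 : Ge P 0 (yP i0 ^ (k - 1) * Algebra.trace L K (θP ^ k)) := by
          rw [← smul_eq_mul, ← map_smul]
          refine Pool.Agent.Y692.NT.trace_reg P _ fun Q e hQ => ?_
          rw [Algebra.smul_def, map_pow]
          have h6 : Ge Q e (algebraMap L K (yP i0)) := Or.inr (by
            rw [hQ.2, hl.unif, mul_one])
          have h7 := (h6.pow (k - 1)).mul ((hge Q e hQ).pow k)
          refine h7.mono ?_
          have h8 : ((k - 1 : ℕ) : ℤ) = k - 1 := by omega
          rw [h8]
          have h9 : (1 : ℤ) ≤ k := by exact_mod_cast hk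
          nlinarith
        have h6 := Ge.of_mul (pow_ne_zero _ hl.ne) h5
        rw [P.ord_pow, hl.unif, mul_one] at h6
        refine h6.mono ?_
        omega
      have h5 := (h3.pow k).mul h4
      exact h5.mono (by omega)
  have hB : Rg y (k * (m1 + m2) + k * 1) ((G1 * G2) ^ k * T ^ k) :=
    ((hG1.mul hG2).pow k).mul (hT.pow k)
  have hG0 : (G1 * G2) ^ k ≠ 0 := pow_ne_zero _ (mul_ne_zero hG10 hG20)
  refine mem_Nf.2 ⟨_, _, _, hA, hB, mul_ne_zero hG0 (pow_ne_zero _ hT0), ?_⟩
  rw [mul_div_mul_left _ _ hG0]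
  have h3 : (θ / algebraMap L K T) ^ k = (T ^ k)⁻¹ • θ ^ k := by
    rw [Algebra.smul_def, map_inv₀, map_pow, div_pow, div_eq_inv_mul]
  rw [h3, map_smul, smul_eq_mul, div_eq_inv_mul]

end

end Pool.Agent.Helper11K9.PR
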