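import Pool.Agent.Helper11K9.PR.Pair2
import Pool.Agent.Helper11K9.PR.Iit
import Pool.Agent.Helper11K9.MT.Kod
import Pool.Agent.Helper11K9.OD.Main

/-!
Primitive elements in the factors, one copy of the embeddings, and the general type.
-/

set_option autoImplicit false
set_option linter.overlappingInstances false
set_option linter.unusedSectionVars false

open FF IntermediateField

namespace Pool.Agent.Helper11K9.PR

open Pool.Agent.W603.LV Pool.Agent.W602.RG
open Pool.Agent.W602.GT (Divisorial RegAt IsPluri KodGe LogSec)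
open Pool.Agent.W619.PQ (extForm IsUniruled)
open Pool.Agent.Helper11K9.PC Pool.Agent.Helper11K9.MT Pool.Agent.Helper11K9.OD

section

variable {K : Type} [Field K] [Algebra ℂ K] {n : ℕ}
  {F : Fin n → IntermediateField ℂ K} [∀ i, IsFF ℂ (F i)] {D : ∀ i, Derivation ℂ (F i) (F i)}
  {L : IntermediateField ℂ K} [FiniteDimensional L K]

/-- a factor which generates `K` over `L` contains a primitive element -/
theorem exists_prim {p : Fin n} (hp : IntermediateField.adjoin L (F p : Set K) = ⊤) :
    ∃ b : F p, IntermediateField.adjoin L {(b : K)} = ⊤ := by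
  classical
  have hL0 : CharZero L := charZero_of_injective_algebraMap (algebraMap ℂ L).injective
  let V : (K →ₐ[L] AlgebraicClosure K) × (K →ₐ[L] AlgebraicClosure K) → Submodule ℂ (F p) :=
    fun s =>
    { carrier := {u | s.1 (u : K) = s.2 (u : K)}
      add_mem' := fun {a b} ha hb => by
        change s.1 ((a : K) + b) = s.2 ((a : K) + b)
        rw [map_add, map_add, show s.1 (a : K) = s.2 a from ha, show s.1 (b : K) = s.2 b from hb]
      zero_mem' := by
        change s.1 (0 : K) = s.2 (0 : K)
        rw [map_zero, map_zero]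
      smul_mem' := fun c a ha => by
        change s.1 (c • (a : K)) = s.2 (c • (a : K))
        have h1 : c • (a : K) = algebraMap L K (algebraMap ℂ L c) * a := by
          rw [← IsScalarTower.algebraMap_apply, Algebra.smul_def]
        rw [h1, map_mul, map_mul, AlgHom.commutes, AlgHom.commutes,
          show s.1 (a : K) = s.2 a from ha] }
  let S : Finset (Submodule ℂ (F p)) := (Finset.univ.filter fun s : (K →ₐ[L] AlgebraicClosure K) ×
    (K →ₐ[L] AlgebraicClosure K) => s.1 ≠ s.2).image V
  have hS : ⊤ ∉ S := by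
    intro h
    obtain ⟨s, hs, hs'⟩ := Finset.mem_image.1 h
    refine (Finset.mem_filter.1 hs).2 (emb_eq hp fun u => ?_)
    have h1 : u ∈ V s := by
      rw [hs']
      trivial
    exact h1
  have h1 := Subspace.biUnion_ne_univ_of_top_notMem hS
  obtain ⟨b, hb⟩ := (Set.ne_univ_iff_exists_notMem _).1 h1
  refine ⟨b, (Field.primitive_element_iff_algHom_eq_of_eval' L (AlgebraicClosure K)
    (fun x => IsAlgClosed.splits _) (b : K)).2 fun σ σ' h => ?_⟩
  by_contra hne
  refine hb (Set.mem_iUnion₂.2 ⟨V (σ, σ'), Finset.mem_image.2 ⟨(σ, σ'), Finset.mem_filter.2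
    ⟨Finset.mem_univ _, hne⟩, rfl⟩, h⟩)

/-- one copy: two factors which generate `K` over `L` give a nonzero trace -/
theorem one_copy (hD : ∀ i, D i ≠ 0) {J : K} (hJ : J ≠ 0)
    {g : ∀ i, F i} (hg : ∀ i, RegD (D i) (g i))
    (hT : ∀ f : ∀ i, F i, (∀ i, RegD (D i) (f i)) → Algebra.trace L K (J * ∏ i, (f i : K)) = 0)
    {p q : Fin n} (hpq : p ≠ q) (hp : IntermediateField.adjoin L (F p : Set K) = ⊤)
    (hq : IntermediateField.adjoin L (F q : Set K) = ⊤)
    (hgp : Module.finrank L K ≤ 2 * Module.finrank ℂ (RR (D p) (hD p)))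
    (hgq : Module.finrank L K ≤ 2 * Module.finrank ℂ (RR (D q) (hD q)))
    (hstr : ((∀ t : F p, Transcendental ℂ t → 3 ≤ Module.finrank ℂ⟮t⟯ (F p)) ∧
        Module.finrank L K + 2 < 2 * Module.finrank ℂ (RR (D p) (hD p))) ∨
      ((∀ t : F q, Transcendental ℂ t → 3 ≤ Module.finrank ℂ⟮t⟯ (F q)) ∧
        Module.finrank L K + 2 < 2 * Module.finrank ℂ (RR (D q) (hD q)))) : False := by
  classical
  have hL0 : CharZero L := charZero_of_injective_algebraMap (algebraMap ℂ L).injective
  have hcard : Fintype.card (K →ₐ[L] AlgebraicClosure K) = Module.finrank L K := AlgHom.card _ _ _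
  have hpos : 0 < Module.finrank L K := Module.finrank_pos
  let φ : (K →ₐ[L] AlgebraicClosure K) → K →ₐ[ℂ] AlgebraicClosure K :=
    fun σ => σ.restrictScalars ℂ
  have hinj : ∀ {l : Fin n}, IntermediateField.adjoin L (F l : Set K) = ⊤ →
      Function.Injective (vl F φ l) := fun {l} hl σ σ' h =>
    emb_eq hl fun u => DFunLike.congr_fun h u
  have hqp : q ∈ Finset.univ.erase p := Finset.mem_erase.2 ⟨hpq.symm, Finset.mem_univ q⟩
  have h1 := vec_orth (D₁ := D p) (D₂ := D q) (τ₁ := vl F φ p) (τ₂ := vl F φ q)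
    (C := fun σ => σ J * ∏ l ∈ (Finset.univ.erase p).erase q, σ (g l : K))
    (fun σ => mul_ne_zero ((_root_.map_ne_zero _).2 hJ) (Finset.prod_ne_zero_iff.2 fun l _ => by
      rw [_root_.map_ne_zero]
      intro h
      exact (hg l).1 (Subtype.ext h)))
    (fun f₁ f₂ h₁ h₂ => by
      have h2 := hT (Function.update (Function.update g p f₁) q f₂) fun l => by
        by_cases hlq : l = q
        · subst hlq
          rw [Function.update_self]
          exact h₂
        · rw [Function.update_of_ne hlq]
          by_cases hlp : l = p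
          · subst hlp
            rw [Function.update_self]
            exact h₁
          · rw [Function.update_of_ne hlp]
            exact hg l
      have h2' := congrArg (algebraMap L (AlgebraicClosure K)) h2
      rw [trace_emb, map_zero] at h2'
      rw [← h2']
      refine Finset.sum_congr rfl fun σ _ => ?_
      rw [← Finset.mul_prod_erase _ _ (Finset.mem_univ p), ← Finset.mul_prod_erase _ _ hqp,
        Function.update_of_ne hpq, Function.update_self, Function.update_self]
      have h3 : ∏ l ∈ (Finset.univ.erase p).erase q,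
          ((Function.update (Function.update g p f₁) q f₂ l : F l) : K) =
          ∏ l ∈ (Finset.univ.erase p).erase q, (g l : K) :=
        Finset.prod_congr rfl fun l hl => by
          rw [Function.update_of_ne (Finset.ne_of_mem_erase hl),
            Function.update_of_ne (Finset.ne_of_mem_erase (Finset.mem_of_mem_erase hl))]
      rw [h3, map_mul, map_mul, map_mul, map_prod]
      change _ * (σ (f₁ : K) * σ (f₂ : K)) = _
      ring)
  have h2 := vec_clif (hD p) _ (hinj hp) (by rw [hcard]; exact hgp)
  have h3 := vec_clif (hD q) _ (hinj hq) (by rw [hcard]; exact hgq)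
  rcases hstr with ⟨h4, h5⟩ | ⟨h4, h5⟩
  · have h6 := vec_strict (hD p) _ (hinj hp) (by rw [hcard]; exact hpos) h4
      (by rw [hcard]; exact h5)
    omega
  · have h6 := vec_strict (hD q) _ (hinj hq) (by rw [hcard]; exact hpos) h4
      (by rw [hcard]; exact h5)
    omega

end

section

variable {L K : Type} [Field L] [Field K] [Algebra ℂ L] [Algebra ℂ K] [Algebra L K]
  [IsScalarTower ℂ L K]

/-- a curve with a nonconstant algebraic function is algebraic -/
theorem alg_factor (N : IntermediateField ℂ L) {F : IntermediateField ℂ K} [IsFF ℂ F] {t : F}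
    (ht : Transcendental ℂ t) (htN : IsAlgebraic N (t : K)) (u : F) : IsAlgebraic N (u : K) := by
  have hfin : Module.Finite ℂ⟮t⟯ F := IsFF.finite ht
  have h1 : IsAlgebraic ℂ⟮t⟯ u := Algebra.IsAlgebraic.isAlgebraic u
  let A : IntermediateField ℂ K := (algebraicClosure N K).restrictScalars ℂ
  have h2 : ∀ w : ℂ⟮t⟯, ((w : F) : K) ∈ A := by
    intro w
    have h3 : ℂ⟮t⟯ ≤ IntermediateField.comap F.val A := by
      rw [IntermediateField.adjoin_simple_le_iff]
      change (t : K) ∈ A
      exact mem_algebraicClosure_iff.2 htN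
    exact h3 w.2
  let ψ : ℂ⟮t⟯ →+* A :=
    { toFun := fun w => ⟨((w : F) : K), h2 w⟩
      map_one' := rfl
      map_mul' := fun _ _ => rfl
      map_zero' := rfl
      map_add' := fun _ _ => rfl }
  have h3 : IsAlgebraic A (u : K) := by
    obtain ⟨p, hp0, hp⟩ := h1
    refine ⟨p.map ψ, (Polynomial.map_ne_zero_iff ψ.injective).2 hp0, ?_⟩
    have h4 := congrArg (algebraMap F K) hp
    rw [map_zero, Polynomial.aeval_def, Polynomial.hom_eval₂] at h4
    rw [Polynomial.aeval_def, Polynomial.eval₂_map]
    exact h4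
  have h4 : IsAlgebraic (algebraicClosure N K) (u : K) := h3
  exact h4.restrictScalars N

/-- a ratio of regular differentials which is not constant -/
theorem exists_ratio {F : Type} [Field F] [Algebra ℂ F] [IsFF ℂ F] {D : Derivation ℂ F F}
    (hD : D ≠ 0) (h2 : 2 ≤ Module.finrank ℂ (RR D hD)) :
    ∃ f g, RegD D f ∧ RegD D g ∧ Transcendental ℂ (f / g) := by
  by_contra hcon
  push Not at hcon
  have hfin : Module.Finite ℂ (RR D hD) := finDim_LL _
  have h1 : RR D hD ≠ ⊥ := by
    intro h
    rw [h, finrank_bot] at h2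
    omega
  obtain ⟨g, hg, hg0⟩ := (Submodule.ne_bot_iff _).1 h1
  have hgr : RegD D g := ⟨hg0, (mem_RR.1 hg).resolve_left hg0⟩
  have h3 : RR D hD ≤ Submodule.span ℂ {g} := by
    intro f hf
    by_cases hf0 : f = 0
    · rw [hf0]
      exact Submodule.zero_mem _
    have h4 : IsAlgebraic ℂ (f / g) := by
      by_contra h
      exact hcon f g ⟨hf0, (mem_RR.1 hf).resolve_left hf0⟩ hgr h
    have hdeg := minpoly.degree_eq_one_iff.1 (IsAlgClosed.degree_eq_one_of_irreducible ℂ
      (minpoly.irreducible h4.isIntegral))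
    obtain ⟨c, hc⟩ := hdeg
    refine Submodule.mem_span_singleton.2 ⟨c, ?_⟩
    rw [Algebra.smul_def, hc, div_mul_cancel₀ _ hg0]
  have h4 := Submodule.finrank_mono h3
  rw [finrank_span_singleton hg0] at h4
  omega

end

section

variable {L K : Type} [Field L] [Field K] [Algebra ℂ L] [Algebra ℂ K] [Algebra L K]
  [IsScalarTower ℂ L K] {n : ℕ}

/-- the general type from algebraically independent elements which are algebraic over the field of
the ratios of the pluricanonical forms -/
theorem kod_top {y : Fin n → L} {E : Fin n → Derivation ℂ L L}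
    (hE : ∀ i j, E i (y j) = if i = j then 1 else 0) {T : L} (hT0 : T ≠ 0) (hT : Rg y 1 T)
    {h : ℕ} {x : Fin h → K} (hx : AlgebraicIndependent ℂ x)
    (hxN : ∀ i, IsAlgebraic (Nf y) (x i)) : KodGe ℂ L n (fun _ => False) h := by
  classical
  have hself : IntermediateField.adjoin ℂ (Nf y : Set L) = Nf y :=
    IntermediateField.adjoin_self ℂ (Nf y)
  obtain ⟨w, hw, hwi⟩ := exists_ind (S := (Nf y : Set L)) hx (by
    rw [hself]
    exact hxN)
  obtain ⟨m, B, hB, hB0, hwB⟩ := common_den (y := y) Finset.univ w fun i _ => hw i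
  have hdet : (Matrix.of fun i j => E i (y j) : Matrix (Fin n) (Fin n) L) = 1 := by
    ext i j
    rw [Matrix.of_apply, hE, Matrix.one_apply]
  have hval : ∀ a : L, pf y (m + 1) a E = a := fun a => by
    rw [pf, hdet, Matrix.det_one, one_pow, one_mul]
  obtain ⟨a, ha⟩ : ∃ a : Fin (h + 1) → L, a = Fin.cons (B * T) fun i => w i * B * T := ⟨_, rfl⟩
  have hreg : ∀ j, Rg y (m + 1) (a j) := by
    intro j
    rw [ha]
    refine Fin.cases ?_ (fun j => ?_) j
    · rw [Fin.cons_zero]
      exact hB.mul hT
    · rw [Fin.cons_succ]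
      exact (hwB j (Finset.mem_univ j)).mul hT
  refine ⟨m + 1, Nat.succ_pos m, fun j => pf y (m + 1) (a j), fun j => ⟨pf_pluri y (m + 1) (a j),
    fun P hP D' hD' => hreg j P hP D' fun i => Pool.Agent.TH466.QG.derReg_of_log (hD' i),
    fun P hP _ => hreg j P hP⟩, E, ?_, ?_⟩
  · change pf y (m + 1) (a 0) E ≠ 0
    rw [hval, ha, Fin.cons_zero]
    exact mul_ne_zero hB0 hT0
  · have h1 : (fun i : Fin h => pf y (m + 1) (a i.succ) E / pf y (m + 1) (a 0) E) = w := by
      funext i
      rw [hval, hval, ha, Fin.cons_zero, Fin.cons_succ, mul_assoc]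
      exact mul_div_cancel_right₀ _ (mul_ne_zero hB0 hT0)
    change AlgebraicIndependent ℂ
      (fun i : Fin h => pf y (m + 1) (a i.succ) E / pf y (m + 1) (a 0) E)
    rw [h1]
    exact hwi

end

end Pool.Agent.Helper11K9.PR
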