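import Pool.Agent.Helper11K9.PR.LowB
import Pool.Agent.Helper11K9.PR.Prim

/-!
If all factors but one are algebraic over the field of the ratios of the pluricanonical forms then
the image is of general type or covered by curves of genus at most one.
-/

set_option autoImplicit false
set_option linter.overlappingInstances false
set_option linter.unusedSectionVars false

open FF IntermediateField

namespace Pool.Agent.Helper11K9.PR

open Pool.Agent.W603.LV Pool.Agent.W602.RG
open Pool.Agent.W602.GT (Divisorial RegAt IsPluri KodGe LogSec)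
open Pool.Agent.W619.PQ (extForm IsUniruled)
open Pool.Agent.Y184.NT (trForm trForm_pluri)
open Pool.Agent.Helper11K9.PC Pool.Agent.Helper11K9.MT Pool.Agent.Helper11K9.OD

section

variable {L K : Type} [Field L] [Field K] [Algebra ℂ L] [Algebra ℂ K] [Algebra L K]
  [IsScalarTower ℂ L K] [FiniteDimensional L K]

/-- a generating subspace contains a primitive element -/
theorem exists_prim' (S : Submodule ℂ K) (hS : IntermediateField.adjoin L (S : Set K) = ⊤) :
    ∃ b ∈ S, IntermediateField.adjoin L {b} = ⊤ := by
  classical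
  have hL0 : CharZero L := charZero_of_injective_algebraMap (algebraMap ℂ L).injective
  let V : (K →ₐ[L] AlgebraicClosure K) × (K →ₐ[L] AlgebraicClosure K) → Submodule ℂ S :=
    fun s =>
    { carrier := {u | s.1 (u : K) = s.2 (u : K)}
      add_mem' := fun {a b} ha hb => by
        change s.1 ((a : K) + b) = s.2 ((a : K) + b)
        rw [map_add, map_add, show s.1 (a : K) = s.2 a from ha, show s.1 (b : K) = s.2 b from hb]
      zero_mem' := by
        change s.1 (0 : K) = s.2 (0 : K)
        rw [map_zero, map_zero]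
      smul_mem' := fun c a ha => by
        change s.1 (c • (a : K)) = s.2 (c • (a : K))
        have h1 : c • (a : K) = algebraMap L K (algebraMap ℂ L c) * a := by
          rw [← IsScalarTower.algebraMap_apply, Algebra.smul_def]
        rw [h1, map_mul, map_mul, AlgHom.commutes, AlgHom.commutes,
          show s.1 (a : K) = s.2 a from ha] }
  let T : Finset (Submodule ℂ S) := (Finset.univ.filter fun s : (K →ₐ[L] AlgebraicClosure K) ×
    (K →ₐ[L] AlgebraicClosure K) => s.1 ≠ s.2).image V
  have hT : ⊤ ∉ T := by
    intro h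
    obtain ⟨s, hs, hs'⟩ := Finset.mem_image.1 h
    refine (Finset.mem_filter.1 hs).2 ?_
    let C0 : IntermediateField L K :=
      { carrier := {z | s.1 z = s.2 z}
        mul_mem' := fun {a b} ha hb => by
          change s.1 (a * b) = s.2 (a * b)
          rw [map_mul, map_mul, show s.1 a = s.2 a from ha, show s.1 b = s.2 b from hb]
        add_mem' := fun {a b} ha hb => by
          change s.1 (a + b) = s.2 (a + b)
          rw [map_add, map_add, show s.1 a = s.2 a from ha, show s.1 b = s.2 b from hb]
        algebraMap_mem' := fun c => by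
          change s.1 _ = s.2 _
          rw [AlgHom.commutes, AlgHom.commutes]
        inv_mem' := fun a ha => by
          change s.1 a⁻¹ = s.2 a⁻¹
          rw [map_inv₀, map_inv₀, show s.1 a = s.2 a from ha] }
    have h3 : (⊤ : IntermediateField L K) ≤ C0 := by
      rw [← hS, IntermediateField.adjoin_le_iff]
      intro z hz
      have h1 : (⟨z, hz⟩ : S) ∈ V s := by
        rw [hs']
        trivial
      exact h1
    ext z
    exact h3 (show z ∈ (⊤ : IntermediateField L K) from trivial)
  have h1 := Subspace.biUnion_ne_univ_of_top_notMem hT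
  obtain ⟨b, hb⟩ := (Set.ne_univ_iff_exists_notMem _).1 h1
  refine ⟨b, b.2, (Field.primitive_element_iff_algHom_eq_of_eval' L (AlgebraicClosure K)
    (fun x => IsAlgClosed.splits _) (b : K)).2 fun σ σ' h => ?_⟩
  by_contra hne
  refine hb (Set.mem_iUnion₂.2 ⟨V (σ, σ'), Finset.mem_image.2 ⟨(σ, σ'), Finset.mem_filter.2
    ⟨Finset.mem_univ _, hne⟩, rfl⟩, h⟩)

end

/-- **All factors but one.** -/
theorem low_or_general {K : Type} [Field K] [Algebra ℂ K] {n : ℕ}
    (F : Fin n → IntermediateField ℂ K) [∀ i, IsFF ℂ (F i)] (hsup : ⨆ i, F i = ⊤)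
    (hn : Algebra.trdeg ℂ K = n) (L : IntermediateField ℂ K) [FiniteDimensional L K]
    {D : ∀ i, Derivation ℂ (F i) (F i)} (hD : ∀ i, D i ≠ 0) {x : ∀ i, F i}
    (hx : ∀ i, Transcendental ℂ (x i)) {z : Fin n → L} {E : Fin n → Derivation ℂ L L}
    (hz : IsTranscendenceBasis ℂ z) (hE : ∀ i j, E i (z j) = if i = j then 1 else 0)
    {c : ∀ i, F i} (hc : ∀ i, RegD (D i) (c i)) {T : L} (hT0 : T ≠ 0) (hT : Rg z 1 T) {p : Fin n}
    (halg : ∀ j, j ≠ p → ∀ u : F j, IsAlgebraic (Nf z) (u : K)) :
    KodGe ℂ L n (fun _ => False) n ∨ CoveredLow L n := by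
  classical
  by_contra hcon
  rw [not_or] at hcon
  obtain ⟨hkod, hlow⟩ := hcon
  have hK0 : CharZero K := charZero_of_injective_algebraMap (algebraMap ℂ K).injective
  have hL0 : CharZero L := charZero_of_injective_algebraMap (algebraMap ℂ L).injective
  have hessK : Algebra.EssFiniteType ℂ K := ess_top F hsup
  have hessL : Algebra.EssFiniteType ℂ L := Pool.Agent.TH466.QG.ess_below (K := K)
  have hL : Algebra.trdeg ℂ L = n := Pool.Agent.Y184.NT.trdeg_below (K := K) hn
  obtain ⟨m, rfl⟩ : ∃ m, n = m + 1 := ⟨n - 1, by have := p.pos; omega⟩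
  have hBtr : Algebra.trdeg ℂ (Bf F p) = (m : ℕ) := by
    have h1 := trdeg_Bf F hsup hn p
    have h2 : Algebra.trdeg ℂ (Bf F p) + 1 = (m : Cardinal) + 1 := by
      rw [h1]
      push_cast
      rfl
    exact (Cardinal.add_nat_inj 1).1 (by exact_mod_cast h2)
  have hLK : Algebra.trdeg (Bf F p) K = (1 : ℕ) := Pool.Agent.Y174.trdeg_LK (r := 1) hBtr hn
  -- the elements of the field of the other factors are algebraic
  have hBalg : ∀ u ∈ Bf F p, IsAlgebraic (Nf z) u := by
    have h1 : Bf F p ≤ (algebraicClosure (Nf z) K).restrictScalars ℂ :=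
      Bf_le F fun j hj u hu => mem_algebraicClosure_iff.2 (halg j hj ⟨u, hu⟩)
    exact fun u hu => mem_algebraicClosure_iff.1 (h1 hu)
  -- the algebraic elements are in the field of the other factors
  have halgB : ∀ u : K, IsAlgebraic (Nf z) u → u ∈ Bf F p := by
    intro u hu
    by_contra huB
    apply hkod
    obtain ⟨tB, htB⟩ := Pool.Agent.W636.PG.exists_basis ℂ (Bf F p) m hBtr
    have hut : Transcendental (Bf F p) u := fun h => huB (Bf_closed F hsup hn p h)
    have hxB : IsTranscendenceBasis (Bf F p) (fun _ : Fin (0 + 1) => u) := by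
      have h1 : AlgebraicIndependent (Bf F p) (fun _ : Fin (0 + 1) => u) := by
        have : Unique (Fin (0 + 1)) := inferInstanceAs (Unique (Fin 1))
        rw [algebraicIndependent_unique_type_iff]
        exact hut
      refine h1.isTranscendenceBasis_of_lift_trdeg_le_of_finite ?_
      rw [hLK]
      simp
    have hZ := Pool.Agent.Y174.basis_append htB hxB
    refine kod_top (K := K) hE hT0 hT (h := m + 1) hZ.1 fun i => ?_
    refine Fin.addCases (fun i => ?_) (fun i => ?_) i
    · rw [Fin.append_left]
      exact hBalg _ (tB i).2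
    · rw [Fin.append_right]
      exact hu
  -- the field generated by `L` and the other factors
  obtain ⟨M, hM⟩ : ∃ M : IntermediateField ℂ K, M = L ⊔ Bf F p := ⟨_, rfl⟩
  have hLM : L ≤ M := by
    rw [hM]
    exact le_sup_left
  have hBM : Bf F p ≤ M := by
    rw [hM]
    exact le_sup_right
  let iLM : Algebra L M := (IntermediateField.inclusion hLM).toRingHom.toAlgebra
  have hval : ∀ u : L, ((algebraMap L M u : M) : K) = u := fun u => rfl
  have tLMK : IsScalarTower L M K := IsScalarTower.of_algebraMap_eq fun _ => rfl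
  have tCLM : IsScalarTower ℂ L M := IsScalarTower.of_algebraMap_eq fun _ => Subtype.ext rfl
  have hfinLM : FiniteDimensional L M := FiniteDimensional.left L M K
  have hfinMK : FiniteDimensional M K := FiniteDimensional.right L M K
  have hessM : Algebra.EssFiniteType ℂ M := Pool.Agent.TH466.QG.ess_below (K := K)
  have hMtr : Algebra.trdeg ℂ M = (m + 1 : ℕ) := Pool.Agent.Y184.NT.trdeg_below (K := K) hn
  -- a primitive element
  obtain ⟨b, hbS, hb⟩ : ∃ b : M, (b : K) ∈ Bf F p ∧ IntermediateField.adjoin L {b} = ⊤ := by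
    let S : Submodule ℂ M := (Bf F p).toSubmodule.comap M.val.toLinearMap
    have hmemS : ∀ u : M, u ∈ S ↔ (u : K) ∈ Bf F p := fun u => Iff.rfl
    obtain ⟨b, hbS, hb⟩ := exists_prim' (L := L) S (by
      obtain ⟨A, hA⟩ : ∃ A : IntermediateField L M, A = IntermediateField.adjoin L (S : Set M) :=
        ⟨_, rfl⟩
      rw [← hA]
      let C : IntermediateField ℂ K := (A.restrictScalars ℂ).map M.val
      have h1 : M ≤ C := by
        conv_lhs => rw [hM]
        refine sup_le (fun u hu => ?_) (fun u hu => ?_)
        · exact ⟨algebraMap L M ⟨u, hu⟩, A.algebraMap_mem _, rfl⟩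
        · refine ⟨⟨u, hBM hu⟩, ?_, rfl⟩
          change (⟨u, hBM hu⟩ : M) ∈ A
          rw [hA]
          exact IntermediateField.subset_adjoin _ _ ((hmemS _).2 hu)
      rw [eq_top_iff]
      intro u _
      obtain ⟨v, hv, hvu⟩ := h1 u.2
      have h2 : v = u := Subtype.ext hvu
      rw [← h2]
      exact hv)
    exact ⟨b, (hmemS b).1 hbS, hb⟩
  have hbN : IsAlgebraic (Nf z) b := by
    have h1 := hBalg _ hbS
    exact (isAlgebraic_algebraMap_iff (R := Nf z) (algebraMap M K).injective).1 h1
  -- coordinates
  choose EM hEM using fun i => Pool.Agent.Y172.exists_lift (k := ℂ) (K := L) (L := M) hL (E i)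
  choose EK hEK using fun i => Pool.Agent.Y172.exists_lift (k := ℂ) (K := M) (L := K) hMtr (EM i)
  have hzM : IsTranscendenceBasis ℂ (fun j => algebraMap L M (z j)) := hz.algebraMap_comp
  have hEMd := Pool.Agent.Y172.lift_dual hE hEM
  have hzK : IsTranscendenceBasis ℂ (fun j => algebraMap M K (algebraMap L M (z j))) :=
    hzM.algebraMap_comp
  have hEKd := Pool.Agent.Y172.lift_dual hEMd hEK
  have hVfin : Module.Finite ℂ (RR (D p) (hD p)) := finDim_LL _
  let β := Module.finBasis ℂ (RR (D p) (hD p))
  have hbreg : ∀ j, RegD (D p) (β j : F p) := by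
    intro j
    have h1 : (β j : F p) ≠ 0 := fun h => β.ne_zero j (Subtype.ext h)
    exact ⟨h1, (mem_RR.1 (β j).2).resolve_left h1⟩
  have hupd : ∀ j l, RegD (D l) (Function.update c p (β j : F p) l) := by
    intro j l
    by_cases hl : l = p
    · subst hl
      rw [Function.update_self]
      exact hbreg j
    · rw [Function.update_of_ne hl]
      exact hc l
  -- the traces are in the field of the other factors, up to a common factor
  have htrB : ∀ j, ((Algebra.trace M K (extForm 1 D x (Function.update c p (β j : F p)) EK) : M) :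
      K) / (T : K) ∈ Bf F p := by
    intro j
    have h1 := iit (L := L) (K := M) hL hz hE hEM hb hbN
      (W := trForm (fun j => algebraMap L M (z j))
        (Algebra.trace M K (extForm 1 D x (Function.update c p (β j : F p)) EK)))
      (trForm_pluri _ _)
      (fun P hP => Pool.Agent.R882.LT.trForm_regAt hMtr hzM hEMd hEK _
        (Pool.Agent.W619.PQ.extForm_pluri 1 D x _) P hP fun Q e hQ =>
          ext_reg hD hx (hupd j) Q (Pool.Agent.Y172.divisorial_up hQ hP)) hT0 hT
    have h2 : (Matrix.of fun i j => EM i (algebraMap L M (z j)) :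
        Matrix (Fin (m + 1)) (Fin (m + 1)) M) = 1 := by
      ext i j
      rw [Matrix.of_apply, hEMd, Matrix.one_apply]
    rw [trForm, h2, Matrix.det_one, one_mul] at h1
    refine halgB _ ?_
    have h3 := (isAlgebraic_algebraMap_iff (R := Nf z) (algebraMap M K).injective).2 h1
    rw [map_div₀] at h3
    exact h3
  -- the covering
  have hfinE' : FiniteDimensional (IntermediateField.extendScalars hBM) K := hfinMK
  have hcov := low (n := m) hn (Bf F p) hBtr
    (fun w hw => Bf_closed F hsup hn p hw) (IntermediateField.extendScalars hBM)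
    (fun j => extForm 1 D x (Function.update c p (β j : F p)))
    (fun j => Pool.Agent.W619.PQ.extForm_pluri 1 D x _)
    (fun j P hP => ext_reg hD hx (hupd j) P hP)
    (span_fib hsup hn hD hx p c (fun j _ => (hc j).1) (fun j => (β j : F p)) (fun l hl => by
      have h1 : l ∈ RR (D p) (hD p) := mem_RR.2 hl
      have h2 := congrArg (RR (D p) (hD p)).subtype (β.sum_repr ⟨l, h1⟩)
      rw [map_sum] at h2
      simp only [map_smul, Submodule.subtype_apply] at h2
      rw [← h2]
      exact Submodule.sum_mem _ fun j _ =>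
        Submodule.smul_mem _ _ (Submodule.subset_span ⟨j, rfl⟩)))
    (by
      rw [IntermediateField.extendScalars_restrictScalars]
      intro D0 D1 hD1
      obtain ⟨δ, hδ⟩ : ∃ δ : M, δ = (Matrix.of fun a l => D0 a (algebraMap L M (z l)) :
        Matrix (Fin (m + 1)) (Fin (m + 1)) M).det := ⟨_, rfl⟩
      refine ⟨(δ : K) * (T : K), M.mul_mem δ.2 (hLM T.2), fun j => ?_⟩
      refine ⟨⟨_, htrB j⟩, ?_⟩
      have h1 := Pool.Agent.Y172.pluri_coord hzK hEKd (m := 1)
        (ω := extForm 1 D x (Function.update c p (β j : F p)))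
        (Pool.Agent.W619.PQ.extForm_pluri 1 D x _) D1
      have h5 : algebraMap M K δ =
          (Matrix.of fun a l => D1 a (algebraMap M K (algebraMap L M (z l)))).det := by
        rw [hδ, RingHom.map_det]
        congr 1
        ext a l
        rw [RingHom.mapMatrix_apply, Matrix.map_apply, Matrix.of_apply, Matrix.of_apply]
        exact (hD1 a (algebraMap L M (z l))).symm
      have h6 : extForm 1 D x (Function.update c p (β j : F p)) D1 =
          δ • extForm 1 D x (Function.update c p (β j : F p)) EK := by
        rw [h1, pow_one, Algebra.smul_def, h5]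
      rw [h6, map_smul, smul_eq_mul]
      have hTK : (T : K) ≠ 0 := fun h => hT0 (Subtype.ext h)
      change (δ : K) * ((Algebra.trace M K
        (extForm 1 D x (Function.update c p (β j : F p)) EK) : M) : K) =
        ((Algebra.trace M K (extForm 1 D x (Function.update c p (β j : F p)) EK) : M) : K) /
          (T : K) * ((δ : K) * (T : K))
      field_simp)
  rw [IntermediateField.extendScalars_restrictScalars] at hcov
  apply hlow
  obtain ⟨Λ, Φ, i1, i2, i3, i4, i5, i6, h1, h2, h3, h4, ⟨ψ⟩⟩ := hcov
  exact ⟨Λ, Φ, i1, i2, i3, i4, i5, i6, h1, h2, h3, h4,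
    ⟨ψ.comp (IntermediateField.inclusion hLM)⟩⟩

end Pool.Agent.Helper11K9.PR
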