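import Pool.Agent.Helper11K9.PR.LowB
import Pool.Agent.Helper11K9.OD.Span

/-!
Uniruled varieties are covered by curves of genus at most one.
-/

set_option autoImplicit false
set_option linter.overlappingInstances false
set_option linter.unusedSectionVars false

open Polynomial FF IntermediateField

namespace Pool.Agent.Helper11K9.PR

open Pool.Agent.W603.LV Pool.Agent.W619.PQ Pool.Agent.Helper11K9.OD Pool.Agent.Helper11K9.PC

theorem covered_of_uniruled {L : Type} [Field L] [Algebra ℂ L] {n : ℕ}
    (h : IsUniruled ℂ L n) : CoveredLow L n := by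
  classical
  obtain ⟨M, i1, i2, hess, htr, ⟨ψ⟩⟩ := h
  let Λ := AlgebraicClosure M
  have hFF : IsFF Λ (RatFunc Λ) := by
    refine IsFF.of_finite (f := (RatFunc.X : RatFunc Λ)) RatFunc.transcendental_X ?_
    rw [RatFunc.adjoin_X]
    exact Module.finite_of_finrank_pos (by
      rw [IntermediateField.finrank_top]
      exact one_pos)
  have hΛ0 : CharZero Λ := charZero_of_injective_algebraMap (algebraMap ℂ Λ).injective
  have hD : der Λ (RatFunc Λ) ≠ 0 := der_ne
  have hone : Module.finrank Λ⟮(RatFunc.X : RatFunc Λ)⟯ (RatFunc Λ) = 1 := by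
    rw [RatFunc.adjoin_X]
    exact IntermediateField.finrank_top
  have hgen : Module.finrank Λ (regForms Λ (RatFunc Λ)) ≤ 1 := by
    refine genus_le_one (w := 0) hD fun f hf0 hf => ?_
    exfalso
    have h1 := two_le_gon hD (f := f) ⟨hf0, hf⟩
      (RatFunc.transcendental_X (K := Λ))
    rw [hone] at h1
    omega
  have htrΛ : Algebra.trdeg ℂ Λ + 1 = n := by
    have h1 := trdeg_add_eq ℂ M (A := Λ)
    have h2 : Algebra.trdeg M Λ = 0 := trdeg_eq_zero
    rw [h2, add_zero] at h1
    rw [← h1]
    exact htr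
  refine ⟨Λ, RatFunc Λ, inferInstance, inferInstance, inferInstance, inferInstance, inferInstance,
    inferInstance, inferInstance, htrΛ, hFF, hgen, ⟨AlgHom.comp ?_ ψ⟩⟩
  exact RatFunc.mapAlgHom (Polynomial.mapAlgHom (IsScalarTower.toAlgHom ℂ M Λ)) (by
    intro p hp
    rw [Submonoid.mem_comap, mem_nonZeroDivisors_iff_ne_zero]
    rw [mem_nonZeroDivisors_iff_ne_zero] at hp
    exact (Polynomial.map_ne_zero_iff (algebraMap M Λ).injective).2 hp)

end Pool.Agent.Helper11K9.PR
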