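import Pool.Agent.R882.LTr

/-!
Regular pluricanonical forms in coordinates, and the field of their ratios.
-/

set_option autoImplicit false
set_option linter.overlappingInstances false
set_option linter.unusedSectionVars false

open FF Pool.Agent.W602.GT Pool.Agent.W603.LV Pool.Agent.Y172

namespace Pool.Agent.Helper11K9.PR

section

variable {L : Type} [Field L] [Algebra ℂ L] {n : ℕ}

/-- the `m`-canonical form with coefficient `a` in the coordinates `y` -/
noncomputable def pf (y : Fin n → L) (m : ℕ) (a : L) (G : Fin n → Derivation ℂ L L) : L :=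
  (Matrix.of fun i j => G i (y j) : Matrix (Fin n) (Fin n) L).det ^ m * a

theorem pf_pluri (y : Fin n → L) (m : ℕ) (a : L) : IsPluri m (pf y m a) := by
  intro A D
  have e1 : (Matrix.of fun a b => (∑ j, A a j • D j) (y b)) =
      A * (Matrix.of fun i j => D i (y j) : Matrix (Fin n) (Fin n) L) := by
    ext a b
    rw [Matrix.of_apply, Matrix.mul_apply, Pool.Agent.Y172.sum_smul_apply]
    rfl
  unfold pf
  rw [e1, Matrix.det_mul, mul_pow]
  ring

theorem pf_mul (y : Fin n → L) (m m' : ℕ) (a a' : L) (G : Fin n → Derivation ℂ L L) :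
    pf y (m + m') (a * a') G = pf y m a G * pf y m' a' G := by
  unfold pf
  rw [pow_add]
  ring

theorem pf_pow (y : Fin n → L) (m k : ℕ) (a : L) (G : Fin n → Derivation ℂ L L) :
    pf y (k * m) (a ^ k) G = pf y m a G ^ k := by
  unfold pf
  rw [mul_pow, ← pow_mul, mul_comm k m]

/-- the form is regular at all prime divisors -/
def Rg (y : Fin n → L) (m : ℕ) (a : L) : Prop :=
  ∀ P : Place ℂ L, Divisorial n P → RegAt P (pf y m a)

theorem Rg.mul {y : Fin n → L} {m m' : ℕ} {a a' : L} (h : Rg y m a) (h' : Rg y m' a') :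
    Rg y (m + m') (a * a') := by
  intro P hP G hG
  rw [pf_mul]
  exact P.reg_mul (h P hP G hG) (h' P hP G hG)

theorem Rg.add {y : Fin n → L} {m : ℕ} {a a' : L} (h : Rg y m a) (h' : Rg y m a') :
    Rg y m (a + a') := by
  intro P hP G hG
  have h1 : pf y m (a + a') G = pf y m a G + pf y m a' G := by
    unfold pf
    ring
  rw [h1]
  have h2 : Ge P 0 (pf y m a G) := h P hP G hG
  have h3 : Ge P 0 (pf y m a' G) := h' P hP G hG
  exact h2.add h3

theorem Rg.const {y : Fin n → L} {m : ℕ} {a : L} (h : Rg y m a) (c : ℂ) :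
    Rg y m (algebraMap ℂ L c * a) := by
  intro P hP G hG
  have h1 : pf y m (algebraMap ℂ L c * a) G = algebraMap ℂ L c * pf y m a G := by
    unfold pf
    ring
  rw [h1]
  have h2 : Ge P 0 (pf y m a G) := h P hP G hG
  have h3 : Ge P 0 (algebraMap ℂ L c * pf y m a G) := by
    simpa using (Ge.const (P := P) c).mul h2
  exact h3

theorem Rg.zero {y : Fin n → L} {m : ℕ} : Rg y m 0 := by
  intro P hP G hG
  have h1 : pf y m 0 G = 0 := by
    unfold pf
    ring
  rw [h1]
  exact P.reg_zero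

theorem Rg.neg {y : Fin n → L} {m : ℕ} {a : L} (h : Rg y m a) : Rg y m (-a) := by
  have h1 := h.const (-1)
  rwa [map_neg, map_one, neg_one_mul] at h1

theorem Rg.one {y : Fin n → L} : Rg y 0 1 := by
  intro P hP G hG
  have h1 : pf y 0 1 G = 1 := by
    unfold pf
    ring
  rw [h1]
  exact P.reg_one

theorem Rg.pow {y : Fin n → L} {m : ℕ} {a : L} (h : Rg y m a) (k : ℕ) : Rg y (k * m) (a ^ k) := by
  intro P hP G hG
  rw [pf_pow]
  have h2 : Ge P 0 (pf y m a G) := h P hP G hG
  have h3 := h2.pow k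
  rw [mul_zero] at h3
  exact h3

/-- regularity in the coordinates of a place -/
theorem regAt_iff {y : Fin n → L} {m : ℕ} {a : L} {P : Place ℂ L} {yP : Fin n → L}
    {EP : Fin n → Derivation ℂ L L} {i0 : Fin n} (hl : Loc P yP EP i0) :
    RegAt P (pf y m a) ↔ Ge P 0 (pf y m a EP) := by
  constructor
  · intro h
    exact h EP hl.pres
  · intro h G hG
    rw [pluri_coord hl.bas hl.dual (pf_pluri y m a) G]
    have h1 : Ge P 0 (Matrix.of fun i j => G i (yP j) : Matrix (Fin n) (Fin n) L).det :=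
      ge_det P _ _ (fun _ _ => 0) (fun a b => hG a _ (hl.reg b)) fun σ => by simp
    have h2 := (h1.pow m).mul h
    rw [mul_zero, zero_add] at h2
    exact h2

/-- the field of the ratios of the regular pluricanonical forms -/
def Nf (y : Fin n → L) : IntermediateField ℂ L where
  carrier := {c | ∃ (m : ℕ) (A B : L), Rg y m A ∧ Rg y m B ∧ B ≠ 0 ∧ c = A / B}
  mul_mem' := by
    rintro _ _ ⟨m, A, B, hA, hB, hB0, rfl⟩ ⟨m', A', B', hA', hB', hB0', rfl⟩
    exact ⟨m + m', A * A', B * B', hA.mul hA', hB.mul hB', mul_ne_zero hB0 hB0',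
      div_mul_div_comm _ _ _ _⟩
  add_mem' := by
    rintro _ _ ⟨m, A, B, hA, hB, hB0, rfl⟩ ⟨m', A', B', hA', hB', hB0', rfl⟩
    exact ⟨m + m', A * B' + B * A', B * B', (hA.mul hB').add (hB.mul hA'), hB.mul hB',
      mul_ne_zero hB0 hB0', div_add_div _ _ hB0 hB0'⟩
  algebraMap_mem' := fun c => by
    refine ⟨0, algebraMap ℂ L c * 1, 1, Rg.one.const c, Rg.one, one_ne_zero, ?_⟩
    rw [mul_one, div_one]
  inv_mem' := by
    rintro _ ⟨m, A, B, hA, hB, hB0, rfl⟩
    by_cases hA0 : A = 0
    · refine ⟨m, A, B, hA, hB, hB0, ?_⟩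
      rw [hA0, zero_div, inv_zero]
    · exact ⟨m, B, A, hB, hA, hA0, inv_div _ _⟩

theorem mem_Nf {y : Fin n → L} {c : L} : c ∈ Nf y ↔
    ∃ (m : ℕ) (A B : L), Rg y m A ∧ Rg y m B ∧ B ≠ 0 ∧ c = A / B := Iff.rfl

/-- common denominators -/
theorem common_den {y : Fin n → L} {ι : Type} (s : Finset ι) (c : ι → L)
    (hc : ∀ i ∈ s, c i ∈ Nf y) :
    ∃ (m : ℕ) (B : L), Rg y m B ∧ B ≠ 0 ∧ ∀ i ∈ s, Rg y m (c i * B) := by
  classical
  induction s using Finset.induction_on with
  | empty => exact ⟨0, 1, Rg.one, one_ne_zero, fun i hi => absurd hi (Finset.notMem_empty i)⟩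
  | insert i s hi ih =>
    obtain ⟨m, B, hB, hB0, h⟩ := ih fun j hj => hc j (Finset.mem_insert_of_mem hj)
    obtain ⟨m', A', B', hA', hB', hB0', hci⟩ := mem_Nf.1 (hc i (Finset.mem_insert_self i s))
    refine ⟨m + m', B * B', hB.mul hB', mul_ne_zero hB0 hB0', fun j hj => ?_⟩
    rcases Finset.mem_insert.1 hj with rfl | hj
    · have h1 : c j * (B * B') = B * A' := by
        rw [hci]
        field_simp
      rw [h1]
      exact hB.mul hA'
    · rw [← mul_assoc]
      exact (h j hj).mul hB'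

end

end Pool.Agent.Helper11K9.PR
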