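import Pool.Agent.R882.GLd
import Pool.Agent.Helper11K9.OD.Main

/-!
Fibrations by curves whose traces are proportional: the genus is at most one.
-/

set_option autoImplicit false
set_option linter.overlappingInstances false
set_option linter.unusedSectionVars false

open IntermediateField Module FF Pool.Agent.W619.PQ Pool.Agent.W603.LV
open Pool.Agent.W602.GT (Divisorial RegAt IsPluri DerReg)

namespace Pool.Agent.Helper11K9.PR

section

/-- The regular differential forms of the curve with the function field `F` over `k`: the `F`-linear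
maps from the derivations of `F` over `k` (the rational vector fields) to `F` whose values on the
vector fields which are regular at a place are regular at this place. -/
def regForms (k F : Type) [Field k] [Field F] [Algebra k F] :
    Submodule k (Derivation k F F →ₗ[F] F) where
  carrier := {ω | ∀ (P : Place k F) (δ : Derivation k F F), DerReg P δ → P.Reg (ω δ)}
  add_mem' := fun {a b} ha hb P δ hδ => by
    have h1 : Ge P 0 (a δ) := ha P δ hδ
    have h2 : Ge P 0 (b δ) := hb P δ hδ
    exact h1.add h2
  zero_mem' := fun P δ _ => Or.inl rfl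
  smul_mem' := fun c a ha P δ hδ => by
    have h1 : Ge P 0 (a δ) := ha P δ hδ
    have h2 : Ge P 0 (algebraMap k F c * a δ) := by
      simpa using (Ge.const (P := P) c).mul h1
    have h3 : (c • a) δ = algebraMap k F c * a δ := by
      rw [LinearMap.smul_apply, Algebra.smul_def]
    change Ge P 0 _
    rw [h3]
    exact h2

variable {k F : Type} [Field k] [Field F] [Algebra k F] [CharZero k] [IsFF k F] [IsAlgClosed k]

theorem derReg_of_vo {P : Place k F} {δ : Derivation k F F} (hδ : δ ≠ 0)
    (h : 0 ≤ vo P δ) : DerReg P δ := by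
  intro f hf
  obtain ⟨g, hg, hfg⟩ := der_mul P (ord_unif P) hδ (f := f) hf
  rw [hfg]
  have h1 : Ge P 0 (δ (unif P)) := Or.inr h
  change Ge P 0 _
  simpa using h1.mul hg

/-- the values of regular forms -/
theorem val_of_regForm {D : Derivation k F F} (hD : D ≠ 0) {ω : Derivation k F F →ₗ[F] F}
    (hω : ω ∈ regForms k F) (P : Place k F) : Ge P (vo P D) (ω D) := by
  obtain ⟨δ, hδ⟩ : ∃ δ : Derivation k F F, δ = (unif P) ^ (-vo P D) • D := ⟨_, rfl⟩
  have hu : unif P ≠ 0 := by
    intro h
    have h1 := ord_unif P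
    rw [h, P.ord_zero] at h1
    omega
  have hu2 : (unif P) ^ (-vo P D) ≠ 0 := zpow_ne_zero _ hu
  have hord : P.ord ((unif P) ^ (-vo P D)) = -vo P D := by
    rw [P.ord_zpow, ord_unif, mul_one]
  have h1 : vo P δ = 0 := by
    rw [hδ, vo_smul P hD hu2, hord]
    ring
  have hδ0 : δ ≠ 0 := by
    rw [hδ]
    exact smul_ne_zero hu2 hD
  have h2 : Ge P 0 (ω δ) := hω P δ (derReg_of_vo hδ0 h1.ge)
  rw [hδ, map_smul, smul_eq_mul] at h2
  have h3 := h2.of_mul hu2
  rw [hord] at h3
  exact h3.mono (by omega)

/-- the genus is at most one if the values of the regular forms are proportional -/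
theorem genus_le_one {D : Derivation k F F} (hD : D ≠ 0) {w : F}
    (h : ∀ f : F, f ≠ 0 → (∀ P : Place k F, vo P D ≤ P.ord f) → f ∈ Submodule.span k {w}) :
    Module.finrank k (regForms k F) ≤ 1 := by
  let Φ : regForms k F →ₗ[k] Submodule.span k {w} :=
    { toFun := fun ω => ⟨(ω : Derivation k F F →ₗ[F] F) D, by
        by_cases h0 : (ω : Derivation k F F →ₗ[F] F) D = 0
        · rw [h0]
          exact Submodule.zero_mem _
        · exact h _ h0 fun P => (val_of_regForm hD ω.2 P).resolve_left h0⟩
      map_add' := fun a b => Subtype.ext rfl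
      map_smul' := fun c a => Subtype.ext rfl }
  have h1 := LinearMap.finrank_le_finrank_of_injective (f := Φ) (by
    intro ω ω' hω
    have h1 : (ω : Derivation k F F →ₗ[F] F) D = (ω' : Derivation k F F →ₗ[F] F) D :=
      congrArg Subtype.val hω
    refine Subtype.ext (LinearMap.ext fun δ => ?_)
    obtain ⟨h, hh⟩ := der_smul (D' := δ) hD
    rw [hh, map_smul, map_smul, h1])
  refine h1.trans ?_
  by_cases hw : w = 0
  · rw [hw, Submodule.span_singleton_eq_bot.2 rfl, finrank_bot]
    exact Nat.zero_le _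
  · rw [finrank_span_singleton hw]

end

section

variable {B K Λ F : Type} [Field B] [Field K] [Field Λ] [Field F] [Algebra B K] [Algebra B Λ]
  [Algebra Λ F] [Algebra K F] [Algebra B F] [IsScalarTower B Λ F] [IsScalarTower B K F]
  [CharZero B] [Algebra.IsAlgebraic B Λ] [IsAlgClosed Λ]

/-- **The geometric generic fibre.** If the restrictions of the `g j` generate the
regular differentials of the geometric generic fibre and have proportional traces to `E` then the
geometric generic fibre of `E` has genus at most one. -/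
theorem low_fib (hF : IsFF Λ F)
    (hcl : ∀ x : K, IsIntegral B x → ∃ y : B, algebraMap B K y = x)
    (hgenF : IntermediateField.adjoin Λ (Set.range (algebraMap K F)) = ⊤)
    (E : IntermediateField B K) [FiniteDimensional E K] (FE : IntermediateField Λ F)
    (hFE : FE = IntermediateField.adjoin Λ (algebraMap K F '' E)) {ξ : K} (hξE : ξ ∈ E)
    (hξ : Transcendental Λ (algebraMap K F ξ)) {D : Derivation Λ F F}
    (hD : D (algebraMap K F ξ) = 1) {J : Type} [Finite J] (g : J → K)
    (hspan : ∀ f : F, f ≠ 0 → (∀ Q : Place Λ F, vo Q D ≤ Q.ord f) →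
      f ∈ Submodule.span Λ (Set.range fun j => algebraMap K F (g j))) {w : E}
    (htr : ∀ j, ∃ β : B, Algebra.trace E K (g j) = algebraMap B E β * w) :
    IsFF Λ FE ∧ Module.finrank Λ (regForms Λ FE) ≤ 1 := by
  classical
  have hΛ0 : CharZero Λ := charZero_of_injective_algebraMap (algebraMap B Λ).injective
  obtain ⟨hfin, htrace⟩ := Pool.Agent.R882.GL.trace_fib (F := F) hcl hgenF E FE hFE
  have hess : Algebra.EssFiniteType Λ F := hF.ess
  have hessE : Algebra.EssFiniteType Λ FE := Pool.Agent.TH466.QG.ess_below (K := F)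
  have htrE : Algebra.trdeg Λ FE = 1 := by
    have h1 := trdeg_add_eq Λ FE (A := F)
    have h2 : Algebra.trdeg FE F = 0 := trdeg_eq_zero
    rw [h2, add_zero, hF.trdeg] at h1
    exact h1
  have hFFE : IsFF Λ FE := ⟨hessE, htrE⟩
  refine ⟨hFFE, ?_⟩
  have hξF : algebraMap K F ξ ∈ FE := by
    rw [hFE]
    exact IntermediateField.subset_adjoin _ _ ⟨ξ, hξE, rfl⟩
  have hwF : algebraMap K F (w : K) ∈ FE := by
    rw [hFE]
    exact IntermediateField.subset_adjoin _ _ ⟨w, w.2, rfl⟩
  have hξ' : Transcendental Λ (⟨algebraMap K F ξ, hξF⟩ : FE) := by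
    intro h
    apply hξ
    exact (isAlgebraic_algebraMap_iff (algebraMap FE F).injective).2 h
  have hd0 := der_ne (k := Λ) (K := FE)
  have hd1 := der_ne_zero hd0 hξ'
  obtain ⟨DE, hDE⟩ : ∃ DE : Derivation Λ FE FE,
      DE = (der Λ FE ⟨algebraMap K F ξ, hξF⟩)⁻¹ • der Λ FE := ⟨_, rfl⟩
  have hDE1 : DE ⟨algebraMap K F ξ, hξF⟩ = 1 := by
    rw [hDE, Derivation.smul_apply, smul_eq_mul, inv_mul_cancel₀ hd1]
  have hDE0 : DE ≠ 0 := by
    intro h
    rw [h] at hDE1
    exact zero_ne_one hDE1
  have hD0 : D ≠ 0 := by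
    intro h
    rw [h] at hD
    exact zero_ne_one hD
  obtain ⟨D2, hD2, hext2⟩ := exists_ext (E := F) DE hDE0
  have hDD : ∀ z : F, D2 z = D z := by
    refine der_ext hξ ?_
    have h1 := hext2 ⟨algebraMap K F ξ, hξF⟩
    rw [hDE1, map_one] at h1
    rw [hD]
    exact h1
  have hext : ∀ z : FE, D (algebraMap FE F z) = algebraMap FE F (DE z) := fun z => by
    rw [← hDD, hext2]
  refine genus_le_one (w := ⟨algebraMap K F (w : K), hwF⟩) hDE0 fun f hf0 hf => ?_
  have hf0' : algebraMap FE F f ≠ 0 := (_root_.map_ne_zero _).2 hf0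
  have hfreg : ∀ Q : Place Λ F, vo Q D ≤ Q.ord (algebraMap FE F f) := by
    intro Q
    obtain ⟨q, e, hq⟩ := Pool.Agent.Y172.exists_below (K := FE) Q
    have h1 := vo_over hq hDE0 hD0 hext
    have h2 := hf q
    have h3 : Q.ord (algebraMap FE F f) = e * q.ord f := hq.2 f
    have h4 : (1 : ℤ) ≤ e := by exact_mod_cast hq.1
    rw [h1, h3]
    have h5 := mul_le_mul_of_nonneg_left h2 (by omega : (0 : ℤ) ≤ e)
    linarith
  have hmem := hspan _ hf0' hfreg
  have hsub : Submodule.span Λ (Set.range fun j => algebraMap K F (g j)) ≤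
      (Submodule.span Λ {(⟨algebraMap K F (w : K), hwF⟩ : FE)}).comap
        ((Algebra.trace FE F).restrictScalars Λ) := by
    rw [Submodule.span_le]
    rintro _ ⟨j, rfl⟩
    change Algebra.trace FE F (algebraMap K F (g j)) ∈ Submodule.span Λ _
    obtain ⟨β, hβ⟩ := htr j
    refine Submodule.mem_span_singleton.2 ⟨algebraMap B Λ β, ?_⟩
    apply Subtype.ext
    rw [htrace, hβ]
    change algebraMap B Λ β • algebraMap K F (w : K) = algebraMap K F (algebraMap B K β * w)
    rw [map_mul, Algebra.smul_def, ← IsScalarTower.algebraMap_apply B Λ F,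
      ← IsScalarTower.algebraMap_apply B K F]
  have h1 : Algebra.trace FE F (algebraMap FE F f) ∈
      Submodule.span Λ {(⟨algebraMap K F (w : K), hwF⟩ : FE)} := hsub hmem
  rw [Algebra.trace_algebraMap] at h1
  have h3 : 0 < Module.finrank FE F := Module.finrank_pos
  have h4 : (Module.finrank FE F : Λ) ≠ 0 := by exact_mod_cast h3.ne'
  have h5 : f = (Module.finrank FE F : Λ)⁻¹ • (Module.finrank FE F • f) := by
    rw [← Nat.cast_smul_eq_nsmul Λ, smul_smul, inv_mul_cancel₀ h4, one_smul]
  rw [h5]
  exact Submodule.smul_mem _ _ h1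

end

end Pool.Agent.Helper11K9.PR
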