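import Pool.Agent.Helper11K9.PR.Rel2

/-!
Two curves and an extension: one of the two is algebraic over the field of the ratios of the traces.
-/

set_option autoImplicit false
set_option linter.overlappingInstances false
set_option linter.unusedSectionVars false

open Polynomial FF IntermediateField

namespace Pool.Agent.Helper11K9.PR

open Pool.Agent.W603.LV Pool.Agent.W619.PQ Pool.Agent.Helper11K9.PC Pool.Agent.Helper11K9.MT
  Pool.Agent.Helper11K9.OD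

/-- the numerical part: a large fibre -/
theorem num_big' {r d ℓ γ₁ γ₂ m₁ k₁ : ℕ} (hd : m₁ * k₁ = d) (hdr : d ∣ r) (hr0 : 0 < r)
    (hℓ : ∀ q, q ∣ r → q ≠ 1 → ℓ ≤ q) (hm : m₁ ≠ 1) (hk : γ₂ ≤ k₁) (hγk : γ₁ * k₁ ≤ 2 * d)
    (h₁ : 2 ≤ γ₁) (h₂ : 2 ≤ γ₂)
    (h12 : r.Prime ∨ 2 * r < ℓ * γ₂ ∨ 2 * r < γ₁ + ℓ * (γ₂ - 2)) : False := by
  have hle : d ≤ r := Nat.le_of_dvd hr0 hdr
  have hm₁r : m₁ ∣ r := (Dvd.intro _ hd).trans hdr
  have hk₁r : k₁ ∣ r := (Dvd.intro_left _ hd).trans hdr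
  have hℓm : ℓ ≤ m₁ := hℓ m₁ hm₁r hm
  rcases h12 with hp | h12
  · have h1 : m₁ = r := ((Nat.dvd_prime hp).1 hm₁r).resolve_left hm
    have h2 : k₁ = r := ((Nat.dvd_prime hp).1 hk₁r).resolve_left (by omega)
    have h3 := hp.two_le
    rw [h1, h2] at hd
    nlinarith
  · obtain ⟨b, rfl⟩ := Nat.exists_eq_add_of_le h₂
    have e1 : ℓ * (2 + b) ≤ d := by
      rw [← hd]
      exact Nat.mul_le_mul hℓm hk
    have e3 : γ₁ * (2 + b) ≤ 2 * d := (Nat.mul_le_mul_left _ hk).trans hγk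
    have e4 : 2 + b - 2 = b := by omega
    rw [e4] at h12
    rcases h12 with h12 | h12
    · omega
    · have e5 : γ₁ < ℓ := by nlinarith
      nlinarith

/-- the numerical part: a small fibre -/
theorem num_small {r d ℓ γ₁ γ₂ m₂ k₂ : ℕ} (hd : m₂ * k₂ = d) (hdr : d ∣ r) (hr0 : 0 < r)
    (hℓ : ∀ q, q ∣ r → q ≠ 1 → ℓ ≤ q) (hm : m₂ ≠ 1) (hk : k₂ ≠ 1) (hγk : γ₂ * k₂ ≤ 2 * d)
    (h : γ₁ + k₂ * (γ₂ - 2) ≤ 2 * d)
    (h12 : r.Prime ∨ 2 * r < ℓ * γ₂ ∨ 2 * r < γ₁ + ℓ * (γ₂ - 2)) : False := by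
  have hle : d ≤ r := Nat.le_of_dvd hr0 hdr
  have hm₂r : m₂ ∣ r := (Dvd.intro _ hd).trans hdr
  have hk₂r : k₂ ∣ r := (Dvd.intro_left _ hd).trans hdr
  have hℓk : ℓ ≤ k₂ := hℓ k₂ hk₂r hk
  rcases h12 with hp | h12
  · have h1 : m₂ = r := ((Nat.dvd_prime hp).1 hm₂r).resolve_left hm
    have h2 : k₂ = r := ((Nat.dvd_prime hp).1 hk₂r).resolve_left hk
    have h3 := hp.two_le
    rw [h1, h2] at hd
    nlinarith
  · have e1 : ℓ * γ₂ ≤ k₂ * γ₂ := Nat.mul_le_mul_right _ hℓk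
    have e2 : ℓ * (γ₂ - 2) ≤ k₂ * (γ₂ - 2) := Nat.mul_le_mul_right _ hℓk
    have e3 : k₂ * γ₂ = γ₂ * k₂ := mul_comm _ _
    omega

section

variable {L M : Type} [Field L] [Field M] [Algebra ℂ L] [Algebra ℂ M] [Algebra L M]
  [IsScalarTower ℂ L M] [FiniteDimensional L M]

/-- the number of members with a given restriction -/
theorem fib_count {F : Type} [Field F] [Algebra ℂ F] [IsFF ℂ F] (τ : F →ₐ[ℂ] M) {N : IntermediateField ℂ L}
    {Ω : Type} [Field Ω] [Algebra ℂ Ω] {a b : AlgebraicClosure L →ₐ[ℂ] Ω}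
    (hab : ∀ u u' : AlgebraicClosure L, b u = a u' → IsAlgebraic N u') {u : F}
    (hu : ¬ IsAlgebraic N (τ u)) [DecidableEq (F →ₐ[ℂ] Ω)]
    (s' : (M →ₐ[L] AlgebraicClosure L) ⊕ (M →ₐ[L] AlgebraicClosure L)) :
    ((Finset.univ : Finset ((M →ₐ[L] AlgebraicClosure L) ⊕ (M →ₐ[L] AlgebraicClosure L))).filter
      fun s => (psi a b s).comp τ = (psi a b s').comp τ).card =
      Module.finrank (IntermediateField.adjoin L (Set.range τ)) M := by
  classical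
  have halg : ∀ (σ : M →ₐ[L] AlgebraicClosure L), ¬ IsAlgebraic N (σ (τ u)) := fun σ h =>
    hu ((isAlgebraic_algHom_iff (σ.restrictScalars N) σ.injective).1 h)
  rcases s' with σ' | σ'
  · rw [← fiber_card τ σ']
    symm
    refine Finset.card_bij (fun σ _ => Sum.inl σ) (fun σ hσ => ?_)
      (fun σ _ σ' _ h => Sum.inl_injective h) (fun s hs => ?_)
    · refine Finset.mem_filter.2 ⟨Finset.mem_univ _, ?_⟩
      ext f
      have h1 : σ (τ f) = σ' (τ f) := DFunLike.congr_fun (Finset.mem_filter.1 hσ).2 f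
      exact congrArg a h1
    · rcases s with σ | σ
      · refine ⟨σ, Finset.mem_filter.2 ⟨Finset.mem_univ _, ?_⟩, rfl⟩
        ext f
        have h1 : a (σ (τ f)) = a (σ' (τ f)) :=
          DFunLike.congr_fun (Finset.mem_filter.1 hs).2 f
        exact a.injective h1
      · exfalso
        have h1 : b (σ (τ u)) = a (σ' (τ u)) :=
          DFunLike.congr_fun (Finset.mem_filter.1 hs).2 u
        exact halg σ' (hab _ _ h1)
  · rw [← fiber_card τ σ']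
    symm
    refine Finset.card_bij (fun σ _ => Sum.inr σ) (fun σ hσ => ?_)
      (fun σ _ σ' _ h => Sum.inr_injective h) (fun s hs => ?_)
    · refine Finset.mem_filter.2 ⟨Finset.mem_univ _, ?_⟩
      ext f
      have h1 : σ (τ f) = σ' (τ f) := DFunLike.congr_fun (Finset.mem_filter.1 hσ).2 f
      exact congrArg b h1
    · rcases s with σ | σ
      · exfalso
        have h1 : a (σ (τ u)) = b (σ' (τ u)) :=
          DFunLike.congr_fun (Finset.mem_filter.1 hs).2 u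
        exact halg σ (hab _ _ h1.symm)
      · refine ⟨σ, Finset.mem_filter.2 ⟨Finset.mem_univ _, ?_⟩, rfl⟩
        ext f
        have h1 : b (σ (τ f)) = b (σ' (τ f)) :=
          DFunLike.congr_fun (Finset.mem_filter.1 hs).2 f
        exact b.injective h1

/-- members with the same restrictions to two generating curves are equal -/
theorem psi_inj {F₁ F₂ : Type} [Field F₁] [Algebra ℂ F₁] [Field F₂] [Algebra ℂ F₂]
    [IsFF ℂ F₁] [IsFF ℂ F₂]
    (τ₁ : F₁ →ₐ[ℂ] M) (τ₂ : F₂ →ₐ[ℂ] M)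
    (hgen : IntermediateField.adjoin L (Set.range τ₁ ∪ Set.range τ₂) = ⊤)
    {N : IntermediateField ℂ L} {Ω : Type} [Field Ω] [Algebra ℂ Ω]
    {a b : AlgebraicClosure L →ₐ[ℂ] Ω}
    (hab : ∀ u u' : AlgebraicClosure L, b u = a u' → IsAlgebraic N u') {u : F₁}
    (hu : ¬ IsAlgebraic N (τ₁ u))
    (s s' : (M →ₐ[L] AlgebraicClosure L) ⊕ (M →ₐ[L] AlgebraicClosure L))
    (h₁ : (psi a b s).comp τ₁ = (psi a b s').comp τ₁)
    (h₂ : (psi a b s).comp τ₂ = (psi a b s').comp τ₂) : s = s' := by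
  have halg : ∀ (σ : M →ₐ[L] AlgebraicClosure L), ¬ IsAlgebraic N (σ (τ₁ u)) := fun σ h =>
    hu ((isAlgebraic_algHom_iff (σ.restrictScalars N) σ.injective).1 h)
  rcases s with σ | σ <;> rcases s' with σ' | σ'
  · congr 1
    refine emb_inj_two τ₁ τ₂ hgen σ σ' ?_ ?_
    · ext f
      have h3 : a (σ (τ₁ f)) = a (σ' (τ₁ f)) := DFunLike.congr_fun h₁ f
      exact a.injective h3
    · ext f
      have h3 : a (σ (τ₂ f)) = a (σ' (τ₂ f)) := DFunLike.congr_fun h₂ f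
      exact a.injective h3
  · exfalso
    have h3 : a (σ (τ₁ u)) = b (σ' (τ₁ u)) := DFunLike.congr_fun h₁ u
    exact halg σ (hab _ _ h3.symm)
  · exfalso
    have h3 : b (σ (τ₁ u)) = a (σ' (τ₁ u)) := DFunLike.congr_fun h₁ u
    exact halg σ' (hab _ _ h3)
  · congr 1
    refine emb_inj_two τ₁ τ₂ hgen σ σ' ?_ ?_
    · ext f
      have h3 : b (σ (τ₁ f)) = b (σ' (τ₁ f)) := DFunLike.congr_fun h₁ f
      exact b.injective h3
    · ext f
      have h3 : b (σ (τ₂ f)) = b (σ' (τ₂ f)) := DFunLike.congr_fun h₂ f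
      exact b.injective h3

open Classical in
/-- the number of values is at least the gonality -/
theorem many_values {F₁ F₂ : Type} [Field F₁] [Algebra ℂ F₁] [Field F₂] [Algebra ℂ F₂]
    [IsFF ℂ F₁] {D₁ : Derivation ℂ F₁ F₁} (hD₁ : D₁ ≠ 0)
    (τ₁ : F₁ →ₐ[ℂ] M) (τ₂ : F₂ →ₐ[ℂ] M) {N : IntermediateField ℂ L} {γ₁ : ℕ}
    (hγ₁ : ∀ t : F₁, Transcendental ℂ t → γ₁ ≤ Module.finrank ℂ⟮t⟯ F₁)
    {Ω : Type} [Field Ω] [Algebra ℂ Ω] {a b : AlgebraicClosure L →ₐ[ℂ] Ω}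
    (hab : ∀ u u' : AlgebraicClosure L, b u = a u' → IsAlgebraic N u') {u : F₁}
    (hu : ¬ IsAlgebraic N (τ₁ u)) {c : M} {g₁ : F₁} {g₂ : F₂}
    (ht : Algebra.trace L M (c * (τ₁ g₁ * τ₂ g₂)) ≠ 0)
    {C : (M →ₐ[L] AlgebraicClosure L) ⊕ (M →ₐ[L] AlgebraicClosure L) → Ω} {lam : Ω}
    (hlam : lam ≠ 0) (hC : ∀ σ, C (Sum.inl σ) = lam * a (σ c))
    (hrel : ∀ f₁, RegD D₁ f₁ → ∑ s, C s * (psi a b s (τ₁ f₁) * psi a b s (τ₂ g₂)) = 0) :
    γ₁ * Module.finrank (IntermediateField.adjoin L (Set.range τ₁)) M ≤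
      2 * Module.finrank L M := by
  have hL0 : CharZero L := charZero_of_injective_algebraMap (algebraMap ℂ L).injective
  by_contra hcon
  push Not at hcon
  obtain ⟨k₁, hk₁⟩ : ∃ k₁, k₁ = Module.finrank (IntermediateField.adjoin L (Set.range τ₁)) M :=
    ⟨_, rfl⟩
  rw [← hk₁] at hcon
  have halg : ∀ (σ : M →ₐ[L] AlgebraicClosure L), ¬ IsAlgebraic N (σ (τ₁ u)) := fun σ h =>
    hu ((isAlgebraic_algHom_iff (σ.restrictScalars N) σ.injective).1 h)
  obtain ⟨v, hv⟩ : ∃ v : (M →ₐ[L] AlgebraicClosure L) ⊕ (M →ₐ[L] AlgebraicClosure L) →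
    F₁ →ₐ[ℂ] Ω, v = fun s => (psi a b s).comp τ₁ := ⟨_, rfl⟩
  have hfib : ∀ s', ((Finset.univ : Finset ((M →ₐ[L] AlgebraicClosure L) ⊕
      (M →ₐ[L] AlgebraicClosure L))).filter fun s => v s = v s').card = k₁ := fun s' => by
    rw [hv, hk₁]
    exact fib_count τ₁ hab hu s'
  have hcard : Fintype.card ((M →ₐ[L] AlgebraicClosure L) ⊕ (M →ₐ[L] AlgebraicClosure L)) =
      2 * Module.finrank L M := by
    rw [Fintype.card_sum, AlgHom.card]
    ring
  obtain ⟨X, hX⟩ : ∃ X, X = (Finset.univ : Finset ((M →ₐ[L] AlgebraicClosure L) ⊕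
      (M →ₐ[L] AlgebraicClosure L))).image v := ⟨_, rfl⟩
  have hXcard : X.card * k₁ = 2 * Module.finrank L M := by
    rw [← hcard, ← Finset.card_univ,
      Finset.card_eq_sum_card_fiberwise (f := v) (t := X) (fun σ _ => by
        rw [hX]
        exact Finset.mem_coe.2 (Finset.mem_image_of_mem _ (Finset.mem_univ σ)))]
    rw [Finset.sum_const_nat (m := k₁)]
    intro w hw
    rw [hX] at hw
    obtain ⟨σ', -, rfl⟩ := Finset.mem_image.1 hw
    exact hfib σ'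
  have hXlt : X.card < γ₁ := by
    rw [← hXcard] at hcon
    exact lt_of_mul_lt_mul_right hcon (Nat.zero_le _)
  have h4 := sep_emb (Ω := Ω) hD₁ (fun w : X => (w : F₁ →ₐ[ℂ] Ω)) Subtype.val_injective
    (fun t ht => by
      rw [Fintype.card_coe]
      exact lt_of_lt_of_le hXlt (hγ₁ t ht))
    (fun w => ∑ s ∈ (Finset.univ : Finset ((M →ₐ[L] AlgebraicClosure L) ⊕
      (M →ₐ[L] AlgebraicClosure L))).filter (fun s => v s = w), C s * psi a b s (τ₂ g₂))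
    (fun f hf0 hf => by
      have h5 := hrel f ⟨hf0, hf⟩
      rw [← Finset.sum_fiberwise_of_maps_to (t := X) (g := v) (fun s _ => by
        rw [hX]
        exact Finset.mem_image_of_mem _ (Finset.mem_univ s)), ← Finset.sum_coe_sort X] at h5
      rw [← h5]
      refine Finset.sum_congr rfl fun w _ => ?_
      rw [Finset.sum_mul]
      refine Finset.sum_congr rfl fun s hs => ?_
      have h6 : psi a b s (τ₁ f) = (w : F₁ →ₐ[ℂ] Ω) f := by
        have h7 := (Finset.mem_filter.1 hs).2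
        rw [hv] at h7
        exact DFunLike.congr_fun h7 f
      rw [h6]
      ring)
  -- the sums over the classes vanish
  have h1 : ∀ σ0 : M →ₐ[L] AlgebraicClosure L,
      ∑ σ ∈ (Finset.univ : Finset (M →ₐ[L] AlgebraicClosure L)).filter
        (fun σ => v (Sum.inl σ) = v (Sum.inl σ0)), a (σ (c * τ₂ g₂)) = 0 := by
    intro σ0
    have h2 := congrFun h4 ⟨v (Sum.inl σ0), by
      rw [hX]
      exact Finset.mem_image_of_mem _ (Finset.mem_univ _)⟩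
    rw [Pi.zero_apply] at h2
    change ∑ s ∈ (Finset.univ : Finset ((M →ₐ[L] AlgebraicClosure L) ⊕
      (M →ₐ[L] AlgebraicClosure L))).filter (fun s => v s = v (Sum.inl σ0)),
        C s * psi a b s (τ₂ g₂) = 0 at h2
    rw [Finset.sum_filter, Fintype.sum_sum_type] at h2
    rw [Finset.sum_eq_zero (s := (Finset.univ : Finset (M →ₐ[L] AlgebraicClosure L)))
      (f := fun σ => if v (Sum.inr σ) = v (Sum.inl σ0) then
        C (Sum.inr σ) * psi a b (Sum.inr σ) (τ₂ g₂) else 0)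
      (fun σ _ => if_neg (fun h => by
        rw [hv] at h
        have h3 : b (σ (τ₁ u)) = a (σ0 (τ₁ u)) := DFunLike.congr_fun h u
        exact halg σ0 (hab _ _ h3))), add_zero, ← Finset.sum_filter] at h2
    have h3 : ∑ σ ∈ (Finset.univ : Finset (M →ₐ[L] AlgebraicClosure L)).filter
        (fun σ => v (Sum.inl σ) = v (Sum.inl σ0)),
        C (Sum.inl σ) * psi a b (Sum.inl σ) (τ₂ g₂) =
        lam * ∑ σ ∈ (Finset.univ : Finset (M →ₐ[L] AlgebraicClosure L)).filter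
        (fun σ => v (Sum.inl σ) = v (Sum.inl σ0)), a (σ (c * τ₂ g₂)) := by
      rw [Finset.mul_sum]
      refine Finset.sum_congr rfl fun σ _ => ?_
      rw [hC, map_mul, map_mul, mul_assoc]
      rfl
    rw [h3] at h2
    exact (mul_eq_zero.1 h2).resolve_left hlam
  apply ht
  apply (algebraMap L (AlgebraicClosure L)).injective
  rw [trace_emb', map_zero]
  apply a.injective
  rw [map_zero, map_sum]
  rw [← Finset.sum_fiberwise_of_maps_to (s := (Finset.univ : Finset (M →ₐ[L] AlgebraicClosure L)))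
    (t := Finset.univ.image fun σ => v (Sum.inl σ)) (g := fun σ => v (Sum.inl σ))
    (fun σ _ => Finset.mem_image_of_mem _ (Finset.mem_univ σ))]
  refine Finset.sum_eq_zero fun w hw => ?_
  obtain ⟨σ0, -, rfl⟩ := Finset.mem_image.1 hw
  have h5 : ∑ σ ∈ (Finset.univ : Finset (M →ₐ[L] AlgebraicClosure L)).filter
      (fun σ => v (Sum.inl σ) = v (Sum.inl σ0)), a (σ (c * (τ₁ g₁ * τ₂ g₂))) =
      a (σ0 (τ₁ g₁)) * ∑ σ ∈ (Finset.univ : Finset (M →ₐ[L] AlgebraicClosure L)).filter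
      (fun σ => v (Sum.inl σ) = v (Sum.inl σ0)), a (σ (c * τ₂ g₂)) := by
    rw [Finset.mul_sum]
    refine Finset.sum_congr rfl fun σ hσ => ?_
    have h6 : a (σ (τ₁ g₁)) = a (σ0 (τ₁ g₁)) := by
      have h7 := (Finset.mem_filter.1 hσ).2
      rw [hv] at h7
      exact DFunLike.congr_fun h7 g₁
    rw [← h6, ← map_mul, ← map_mul]
    congr 2
    ring
  exact h5.trans (by rw [h1, mul_zero])

/-- **Two curves.** -/
theorem pair_two {F₁ F₂ : Type} [Field F₁] [Algebra ℂ F₁] [Field F₂] [Algebra ℂ F₂]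
    [IsFF ℂ F₁] [IsFF ℂ F₂] {D₁ : Derivation ℂ F₁ F₁} (hD₁ : D₁ ≠ 0)
    {D₂ : Derivation ℂ F₂ F₂} (hD₂ : D₂ ≠ 0)
    (τ₁ : F₁ →ₐ[ℂ] M) (τ₂ : F₂ →ₐ[ℂ] M) {N : IntermediateField ℂ L} {γ₁ γ₂ r ℓ : ℕ}
    (hγ₁ : ∀ t : F₁, Transcendental ℂ t → γ₁ ≤ Module.finrank ℂ⟮t⟯ F₁)
    (hγ₂ : ∀ t : F₂, Transcendental ℂ t → γ₂ ≤ Module.finrank ℂ⟮t⟯ F₂) (h1 : 2 ≤ γ₁) (h2 : 2 ≤ γ₂)
    (hgen : IntermediateField.adjoin L (Set.range τ₁ ∪ Set.range τ₂) = ⊤)
    (hr0 : 0 < r) (hdr : Module.finrank L M ∣ r) (hℓ : ∀ q, q ∣ r → q ≠ 1 → ℓ ≤ q)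
    (hg₁ : r ≤ Module.finrank ℂ (RR D₁ hD₁)) (hg₂ : r ≤ Module.finrank ℂ (RR D₂ hD₂))
    (hpar : (3 ≤ γ₁ ∧ r + 2 ≤ Module.finrank ℂ (RR D₁ hD₁)) ∨
      (3 ≤ γ₂ ∧ r + 2 ≤ Module.finrank ℂ (RR D₂ hD₂)))
    (h12 : r.Prime ∨ 2 * r < ℓ * γ₂ ∨ 2 * r < γ₁ + ℓ * (γ₂ - 2))
    (h21 : r.Prime ∨ 2 * r < ℓ * γ₁ ∨ 2 * r < γ₂ + ℓ * (γ₁ - 2))
    (hm₁ : Module.finrank L (IntermediateField.adjoin L (Set.range τ₁)) ≠ 1)
    (hm₂ : Module.finrank L (IntermediateField.adjoin L (Set.range τ₂)) ≠ 1)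
    {c : M} {g₁ : F₁} {g₂ : F₂} (hr₁ : RegD D₁ g₁) (hr₂ : RegD D₂ g₂)
    (ht : Algebra.trace L M (c * (τ₁ g₁ * τ₂ g₂)) ≠ 0)
    (hN : ∀ f₁ f₂, RegD D₁ f₁ → RegD D₂ f₂ → Algebra.trace L M (c * (τ₁ f₁ * τ₂ f₂)) /
      Algebra.trace L M (c * (τ₁ g₁ * τ₂ g₂)) ∈ N) {u : F₁} (hu : ¬ IsAlgebraic N (τ₁ u))
    {v : F₂} (hv : ¬ IsAlgebraic N (τ₂ v)) : False := by
  classical
  have hL0 : CharZero L := charZero_of_injective_algebraMap (algebraMap ℂ L).injective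
  have hc0 : c ≠ 0 := by
    rintro rfl
    rw [zero_mul, map_zero] at ht
    exact ht rfl
  obtain ⟨Ω, i1, i2, a, b, C, lam, hlam, hC, hC0, hab, hrel⟩ := exists_rel2 τ₁ τ₂ N hc0 ht hN
  have hα₁ := many_values hD₁ τ₁ τ₂ hγ₁ hab hu ht hlam hC fun f hf => hrel f g₂ hf hr₂
  have hα₂ := many_values (c := c) (g₁ := g₂) (g₂ := g₁) hD₂ τ₂ τ₁ hγ₂ hab hv (by
    rw [mul_comm (τ₂ g₂)]
    exact ht) hlam hC fun f hf => by
      rw [← hrel g₁ f hr₁ hf]
      exact Finset.sum_congr rfl fun s _ => by ring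
  have hcard : Fintype.card ((M →ₐ[L] AlgebraicClosure L) ⊕ (M →ₐ[L] AlgebraicClosure L)) =
      2 * Module.finrank L M := by
    rw [Fintype.card_sum, AlgHom.card]
    ring
  have hmul₁ := Module.finrank_mul_finrank L (IntermediateField.adjoin L (Set.range τ₁)) M
  have hmul₂ := Module.finrank_mul_finrank L (IntermediateField.adjoin L (Set.range τ₂)) M
  have hle : Module.finrank L M ≤ r := Nat.le_of_dvd hr0 hdr
  have hinj := psi_inj τ₁ τ₂ hgen hab hu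
  have hfib₁ := fun s' => fib_count τ₁ hab hu s'
  have hfib₂ := fun s' => fib_count τ₂ hab hv s'
  obtain ⟨σ0⟩ : Nonempty (M →ₐ[L] AlgebraicClosure L) := ⟨IsAlgClosed.lift⟩
  have hb₁ := fun (h : Module.finrank (IntermediateField.adjoin L (Set.range τ₁)) M < γ₂) =>
    pair_abs hD₁ hD₂ (fun s => (psi a b s).comp τ₁) (fun s => (psi a b s).comp τ₂) hγ₁ hγ₂ h2
      hinj hfib₁ hfib₂ (by rw [hcard]; exact hα₂) h (Sum.inl σ0) hC0 hrel
  have hb₂ := fun (h : Module.finrank (IntermediateField.adjoin L (Set.range τ₂)) M < γ₁) =>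
    pair_abs hD₂ hD₁ (fun s => (psi a b s).comp τ₂) (fun s => (psi a b s).comp τ₁) hγ₂ hγ₁ h1
      (fun s s' h h' => hinj s s' h' h) hfib₂ hfib₁ (by rw [hcard]; exact hα₁) h (Sum.inl σ0) hC0
      (fun f₂ f₁ hf₂ hf₁ => by
        rw [← hrel f₁ f₂ hf₁ hf₂]
        refine Finset.sum_congr rfl fun s _ => ?_
        change C s * (psi a b s (τ₂ f₂) * psi a b s (τ₁ f₁)) = _
        ring)
  rw [hcard] at hb₁ hb₂
  have hbig₁ : Module.finrank (IntermediateField.adjoin L (Set.range τ₁)) M < γ₂ := by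
    by_contra hcon
    push Not at hcon
    exact num_big' hmul₁ hdr hr0 hℓ hm₁ hcon hα₁ h1 h2 h12
  have hbig₂ : Module.finrank (IntermediateField.adjoin L (Set.range τ₂)) M < γ₁ := by
    by_contra hcon
    push Not at hcon
    exact num_big' hmul₂ hdr hr0 hℓ hm₂ hcon hα₂ h2 h1 h21
  have hone₂ : Module.finrank (IntermediateField.adjoin L (Set.range τ₂)) M = 1 := by
    by_contra hne
    exact num_small hmul₂ hdr hr0 hℓ hm₂ hne hα₂ (hb₁ hbig₁) h12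
  have hone₁ : Module.finrank (IntermediateField.adjoin L (Set.range τ₁)) M = 1 := by
    by_contra hne
    exact num_small hmul₁ hdr hr0 hℓ hm₁ hne hα₁ (hb₂ hbig₂) h21
  have hi₁ : Function.Injective fun s => (psi a b s).comp τ₁ := by
    intro s s' h
    have h3 := hfib₁ s'
    rw [hone₁, Finset.card_eq_one] at h3
    obtain ⟨w, hw⟩ := h3
    have h4 : s ∈ ({w} : Finset _) := by
      rw [← hw]
      exact Finset.mem_filter.2 ⟨Finset.mem_univ _, h⟩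
    have h5 : s' ∈ ({w} : Finset _) := by
      rw [← hw]
      exact Finset.mem_filter.2 ⟨Finset.mem_univ _, rfl⟩
    rw [Finset.mem_singleton] at h4 h5
    rw [h4, h5]
  have hi₂ : Function.Injective fun s => (psi a b s).comp τ₂ := by
    intro s s' h
    have h3 := hfib₂ s'
    rw [hone₂, Finset.card_eq_one] at h3
    obtain ⟨w, hw⟩ := h3
    have h4 : s ∈ ({w} : Finset _) := by
      rw [← hw]
      exact Finset.mem_filter.2 ⟨Finset.mem_univ _, h⟩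
    have h5 : s' ∈ ({w} : Finset _) := by
      rw [← hw]
      exact Finset.mem_filter.2 ⟨Finset.mem_univ _, rfl⟩
    rw [Finset.mem_singleton] at h4 h5
    rw [h4, h5]
  have h3 := vec_orth (D₁ := D₁) (D₂ := D₂) (τ₁ := fun s => (psi a b s).comp τ₁)
    (τ₂ := fun s => (psi a b s).comp τ₂) (C := C) hC0 hrel
  have hpos : 0 < Module.finrank L M := Module.finrank_pos
  have h4 := vec_clif hD₁ _ hi₁ (by rw [hcard]; omega)
  have h5 := vec_clif hD₂ _ hi₂ (by rw [hcard]; omega)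
  rw [hcard] at h3 h4 h5
  rcases hpar with ⟨h6, h7⟩ | ⟨h6, h7⟩
  · have h8 := vec_strict hD₁ _ hi₁ (by rw [hcard]; omega)
      (fun t ht => h6.trans (hγ₁ t ht)) (by rw [hcard]; omega)
    rw [hcard] at h8
    omega
  · have h8 := vec_strict hD₂ _ hi₂ (by rw [hcard]; omega)
      (fun t ht => h6.trans (hγ₂ t ht)) (by rw [hcard]; omega)
    rw [hcard] at h8
    omega

end

end Pool.Agent.Helper11K9.PR
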