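import Pool.Agent.Helper11K9.PR.Str
import Pool.Agent.Helper11K9.PR.Pair3
import Pool.Agent.Helper11K9.PR.Cov

/-!
Images of products of curves of large genus.
-/

set_option autoImplicit false
set_option linter.overlappingInstances false
set_option linter.unusedSectionVars false

open FF IntermediateField

namespace Pool.Agent.Helper11K9.PR

open Pool.Agent.W603.LV Pool.Agent.W602.RG
open Pool.Agent.W602.GT (Divisorial RegAt IsPluri KodGe LogSec)
open Pool.Agent.W619.PQ (extForm IsUniruled)
open Pool.Agent.R882.Over (GenusZero)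
open Pool.Agent.Helper11K9.PC Pool.Agent.Helper11K9.MT Pool.Agent.Helper11K9.OD

section

variable {K : Type} [Field K] [Algebra ℂ K] {n : ℕ}
  {F : Fin n → IntermediateField ℂ K} [∀ i, IsFF ℂ (F i)] {D : ∀ i, Derivation ℂ (F i) (F i)}
  {L : IntermediateField ℂ K} [FiniteDimensional L K]

/-- **Two factors**, the general case. -/
theorem alg_of_two' (hD : ∀ i, D i ≠ 0) {γ : Fin n → ℕ}
    (hγ : ∀ i (t : F i), Transcendental ℂ t → γ i ≤ Module.finrank ℂ⟮t⟯ (F i))
    (hγ2 : ∀ i, 2 ≤ γ i) (N : IntermediateField ℂ L) {J : K} {g : ∀ i, F i}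
    (hg : ∀ i, RegD (D i) (g i)) (hTg : Algebra.trace L K (J * ∏ i, (g i : K)) ≠ 0)
    (hN : ∀ f : ∀ i, F i, (∀ i, RegD (D i) (f i)) →
      Algebra.trace L K (J * ∏ i, (f i : K)) / Algebra.trace L K (J * ∏ i, (g i : K)) ∈ N)
    {ℓ : ℕ} (hℓ : ∀ q, q ∣ Module.finrank L K → q ≠ 1 → ℓ ≤ q) {p q : Fin n} (hpq : p ≠ q)
    (hp : ¬ F p ≤ L) (hq : ¬ F q ≤ L)
    (hgp : Module.finrank L K ≤ Module.finrank ℂ (RR (D p) (hD p)))
    (hgq : Module.finrank L K ≤ Module.finrank ℂ (RR (D q) (hD q)))
    (hstr : (3 ≤ γ p ∧ Module.finrank L K + 2 ≤ Module.finrank ℂ (RR (D p) (hD p))) ∨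
      (3 ≤ γ q ∧ Module.finrank L K + 2 ≤ Module.finrank ℂ (RR (D q) (hD q))))
    (h12 : 2 * Module.finrank L K < ℓ * γ q ∨ 2 * Module.finrank L K < γ p + ℓ * (γ q - 2))
    (h21 : 2 * Module.finrank L K < ℓ * γ p ∨ 2 * Module.finrank L K < γ q + ℓ * (γ p - 2)) :
    (∀ u : F p, IsAlgebraic N (u : K)) ∨ ∀ u : F q, IsAlgebraic N (u : K) := by
  classical
  by_contra hcon
  push Not at hcon
  obtain ⟨⟨u, hu⟩, v, hv⟩ := hcon
  have hL0 : CharZero L := charZero_of_injective_algebraMap (algebraMap ℂ L).injective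
  have hqp : q ∈ Finset.univ.erase p := Finset.mem_erase.2 ⟨hpq.symm, Finset.mem_univ q⟩
  obtain ⟨M, hM⟩ : ∃ M : IntermediateField L K,
    M = IntermediateField.adjoin L ((F p : Set K) ∪ (F q : Set K)) := ⟨_, rfl⟩
  have hle₁ : ∀ g : F p, (g : K) ∈ M := fun g => by
    rw [hM]
    exact IntermediateField.subset_adjoin L _ (Or.inl g.2)
  have hle₂ : ∀ g : F q, (g : K) ∈ M := fun g => by
    rw [hM]
    exact IntermediateField.subset_adjoin L _ (Or.inr g.2)
  obtain ⟨τ₁, hτ₁⟩ : ∃ τ₁ : F p →ₐ[ℂ] M, ∀ f, ((τ₁ f : M) : K) = f :=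
    ⟨{ toFun := fun g => ⟨(g : K), hle₁ g⟩
       map_one' := Subtype.ext rfl
       map_mul' := fun a b => Subtype.ext rfl
       map_zero' := Subtype.ext rfl
       map_add' := fun a b => Subtype.ext rfl
       commutes' := fun c => Subtype.ext rfl }, fun _ => rfl⟩
  obtain ⟨τ₂, hτ₂⟩ : ∃ τ₂ : F q →ₐ[ℂ] M, ∀ f, ((τ₂ f : M) : K) = f :=
    ⟨{ toFun := fun g => ⟨(g : K), hle₂ g⟩
       map_one' := Subtype.ext rfl
       map_mul' := fun a b => Subtype.ext rfl
       map_zero' := Subtype.ext rfl
       map_add' := fun a b => Subtype.ext rfl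
       commutes' := fun c => Subtype.ext rfl }, fun _ => rfl⟩
  have hmul := Module.finrank_mul_finrank L M K
  have hadj : ∀ i : Fin n, ¬ F i ≤ L →
      Module.finrank L (IntermediateField.adjoin L (F i : Set K)) ≠ 1 := by
    intro i hi h1
    apply hi
    rw [IntermediateField.finrank_eq_one_iff] at h1
    intro w hw
    have h2 : w ∈ IntermediateField.adjoin L (F i : Set K) :=
      IntermediateField.subset_adjoin L _ hw
    rw [h1, IntermediateField.mem_bot] at h2
    obtain ⟨w', hw'⟩ := h2
    rw [← hw']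
    exact w'.2
  -- the coefficient
  obtain ⟨c, hc⟩ : ∃ c : M, c = Algebra.trace M K
    (J * ∏ l ∈ (Finset.univ.erase p).erase q, (g l : K)) := ⟨_, rfl⟩
  have hval : ∀ (f₁ : F p) (f₂ : F q), Algebra.trace L K
      (J * ∏ l, ((Function.update (Function.update g p f₁) q f₂ l : F l) : K)) =
      Algebra.trace L M (c * (τ₁ f₁ * τ₂ f₂)) := by
    intro f₁ f₂
    rw [← Finset.mul_prod_erase _ _ (Finset.mem_univ p), ← Finset.mul_prod_erase _ _ hqp,
      Function.update_of_ne hpq, Function.update_self, Function.update_self]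
    have h3 : ∏ l ∈ (Finset.univ.erase p).erase q,
        ((Function.update (Function.update g p f₁) q f₂ l : F l) : K) =
        ∏ l ∈ (Finset.univ.erase p).erase q, (g l : K) :=
      Finset.prod_congr rfl fun l hl => by
        rw [Function.update_of_ne (Finset.ne_of_mem_erase hl),
          Function.update_of_ne (Finset.ne_of_mem_erase (Finset.mem_of_mem_erase hl))]
    rw [h3]
    have h4 : J * ((f₁ : K) * ((f₂ : K) * ∏ l ∈ (Finset.univ.erase p).erase q, (g l : K))) =
        (τ₁ f₁ * τ₂ f₂) • (J * ∏ l ∈ (Finset.univ.erase p).erase q, (g l : K)) := by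
      rw [Algebra.smul_def]
      change _ = (((τ₁ f₁ : M) : K) * ((τ₂ f₂ : M) : K)) * _
      rw [hτ₁, hτ₂]
      ring
    rw [h4, ← Algebra.trace_trace (S := M), map_smul, smul_eq_mul, ← hc, mul_comm]
  have hself : Function.update (Function.update g p (g p)) q (g q) = g := by
    rw [Function.update_eq_self, Function.update_eq_self]
  have ht := hval (g p) (g q)
  rw [hself] at ht
  have hupd : ∀ (f₁ : F p) (f₂ : F q), RegD (D p) f₁ → RegD (D q) f₂ → ∀ l,
      RegD (D l) (Function.update (Function.update g p f₁) q f₂ l) := by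
    intro f₁ f₂ h₁ h₂ l
    by_cases hlq : l = q
    · subst hlq
      rw [Function.update_self]
      exact h₂
    · rw [Function.update_of_ne hlq]
      by_cases hlp : l = p
      · subst hlp
        rw [Function.update_self]
        exact h₁
      · rw [Function.update_of_ne hlp]
        exact hg l
  have hpos : 0 < Module.finrank L K := Module.finrank_pos
  refine pair_two (L := L) (M := M) (N := N) (hD p) (hD q) τ₁ τ₂ (hγ p) (hγ q) (hγ2 p) (hγ2 q)
    (gen_two hM τ₁ hτ₁ τ₂ hτ₂) hpos (Dvd.intro _ hmul) hℓ hgp hgq hstr (Or.inr h12) (Or.inr h21)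
    (by rw [adj_finrank M τ₁ hτ₁]; exact hadj p hp) (by rw [adj_finrank M τ₂ hτ₂]; exact hadj q hq)
    (c := c) (g₁ := g p) (g₂ := g q) (hg p) (hg q) (by rw [← ht]; exact hTg)
    (fun f₁ f₂ h₁ h₂ => ?_) (u := u) (fun h => hu ?_) (v := v) (fun h => hv ?_)
  · rw [← ht, ← hval]
    exact hN _ (hupd f₁ f₂ h₁ h₂)
  · have h1 := h.algebraMap (A := K)
    have h2 : algebraMap M K (τ₁ u) = (u : K) := hτ₁ u
    rwa [h2] at h1
  · have h1 := h.algebraMap (A := K)
    have h2 : algebraMap M K (τ₂ v) = (v : K) := hτ₂ v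
    rwa [h2] at h1

end

/-- **Images of products of curves of large genus.** -/
theorem main2 {K : Type} [Field K] [Algebra ℂ K] {n : ℕ} (F : Fin n → IntermediateField ℂ K)
    [∀ i, IsFF ℂ (F i)] (hsup : ⨆ i, F i = ⊤) (hn : Algebra.trdeg ℂ K = n) {γ : Fin n → ℕ}
    (hγ : ∀ i (t : F i), Transcendental ℂ t → γ i ≤ Module.finrank ℂ⟮t⟯ (F i))
    (hγ2 : ∀ i, 2 ≤ γ i) (L : IntermediateField ℂ K) [FiniteDimensional L K] {ℓ : ℕ}
    (hℓ : ∀ q, q ∣ Module.finrank L K → q ≠ 1 → ℓ ≤ q)
    (hg : ∀ i, Module.finrank L K ≤ Module.finrank ℂ (regularForms (F i)))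
    (hg2 : ∀ i, 2 ≤ Module.finrank ℂ (regularForms (F i)))
    (hstr : ∀ i j, i ≠ j →
      (3 ≤ γ i ∧ Module.finrank L K + 2 ≤ Module.finrank ℂ (regularForms (F i))) ∨
      (3 ≤ γ j ∧ Module.finrank L K + 2 ≤ Module.finrank ℂ (regularForms (F j))))
    (hH : (∀ i, F i ≤ L ∨ IntermediateField.adjoin L (F i : Set K) = ⊤) ∨
      ∀ i j, i ≠ j → 2 * Module.finrank L K < ℓ * γ j ∨
        2 * Module.finrank L K < γ i + ℓ * (γ j - 2)) :
    (GenusZero L n → IsUniruled ℂ L n) ∧
      (IsUniruled ℂ L n ∨ KodGe ℂ L n (fun _ => False) (n - 1)) ∧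
      (KodGe ℂ L n (fun _ => False) n ∨ CoveredLow L n) := by
  classical
  have hK0 : CharZero K := charZero_of_injective_algebraMap (algebraMap ℂ K).injective
  have hL0 : CharZero L := charZero_of_injective_algebraMap (algebraMap ℂ L).injective
  have hessK : Algebra.EssFiniteType ℂ K := ess_top F hsup
  have hessL : Algebra.EssFiniteType ℂ L := Pool.Agent.TH466.QG.ess_below (K := K)
  have hL : Algebra.trdeg ℂ L = n := Pool.Agent.Y184.NT.trdeg_below (K := K) hn
  obtain ⟨z, E, hz, hE⟩ := Pool.Agent.Y172.exists_crd (k := ℂ) (K := L) hL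
  choose E' hE' using fun i => Pool.Agent.Y172.exists_lift (k := ℂ) (K := L) (L := K) hL (E i)
  have hzK : IsTranscendenceBasis ℂ (fun j => algebraMap L K (z j)) := hz.algebraMap_comp
  have hE'd := Pool.Agent.Y172.lift_dual hE hE'
  obtain ⟨D, hDe⟩ : ∃ D : ∀ i, Derivation ℂ (F i) (F i), D = fun i => der ℂ (F i) := ⟨_, rfl⟩
  have hD : ∀ i, D i ≠ 0 := by
    intro i
    rw [hDe]
    exact der_ne
  have hfl : ∀ i, Module.finrank ℂ (regularForms (F i)) ≤ Module.finrank ℂ (RR (D i) (hD i)) :=
    fun i => forms_le (hD i)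
  have hpos : 0 < Module.finrank L K := Module.finrank_pos
  -- two regular differentials with a nonconstant ratio
  choose f1 f0 hf1 hf0 htr using fun i =>
    exists_ratio (hD i) ((hg2 i).trans (hfl i))
  choose x hx using fun i => IsFF.exists_transcendental (k := ℂ) (K := F i)
  have hxb : IsTranscendenceBasis ℂ fun i => algebraMap (F i) K (x i) :=
    Pool.Agent.W619.PQ.basis_of_iSup F hsup hn x hx
  obtain ⟨J, hJ⟩ : ∃ J : K, J = extForm 1 D x (fun _ => 1) E' := ⟨_, rfl⟩
  have hJ0 : J ≠ 0 := by
    obtain ⟨G, hG⟩ := Pool.Agent.W619.PQ.extForm_ne (K := K) 1 D x (fun _ => 1)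
      (fun i => one_ne_zero) (fun i => der_ne_zero (hD i) (hx i)) hxb
    have h1 := Pool.Agent.Y172.pluri_coord hzK hE'd (m := 1)
      (ω := extForm 1 D x (fun _ => 1)) (Pool.Agent.W619.PQ.extForm_pluri 1 D x _) G
    rw [h1] at hG
    rw [hJ]
    exact right_ne_zero_of_mul hG
  by_cases hTex : ∃ g : ∀ i, F i, (∀ i, RegD (D i) (g i)) ∧
      Algebra.trace L K (J * ∏ i, (g i : K)) ≠ 0
  swap
  · -- all traces vanish
    push Not at hTex
    have huni : IsUniruled ℂ L n := by
      rcases hH with hH | hH
      · have hne : ∃ p, ¬ F p ≤ L := by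
          by_contra hcon
          push Not at hcon
          have htop : L = ⊤ := by
            rw [eq_top_iff, ← hsup]
            exact iSup_le hcon
          have h1 := hTex f0 hf0
          obtain ⟨w, hw⟩ : ∃ w : L, algebraMap L K w = J * ∏ i, (f0 i : K) :=
            ⟨⟨J * ∏ i, (f0 i : K), by rw [htop]; trivial⟩, rfl⟩
          rw [← hw, Algebra.trace_algebraMap, smul_eq_zero] at h1
          rcases h1 with h1 | h1
          · omega
          · rw [h1, map_zero] at hw
            refine mul_ne_zero hJ0 (Finset.prod_ne_zero_iff.2 fun i _ h => ?_) hw.symm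
            exact (hf0 i).1 (Subtype.ext h)
        obtain ⟨p, hp⟩ := hne
        have hall : ∀ j, j ≠ p → F j ≤ L := by
          intro j hj
          by_contra hcon
          exact one_copy hD hJ0 hf0 hTex hj ((hH j).resolve_left hcon) ((hH p).resolve_left hp)
            (by have := hg j; have := hfl j; omega) (by have := hg p; have := hfl p; omega)
            (by
              rcases hstr j p hj with ⟨h, h'⟩ | ⟨h, h'⟩
              · exact Or.inl ⟨fun t ht => h.trans (hγ j t ht), by have := hfl j; omega⟩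
              · exact Or.inr ⟨fun t ht => h.trans (hγ p t ht), by have := hfl p; omega⟩)
        refine uni_of_line F hsup hn L hD hx hz hE hE' hJ p L le_rfl inferInstance hall
          (fun j _ => hf0 j) ?_
        intro f hf
        have h1 := hTex (Function.update f0 p (f p)) fun j => by
          by_cases hj : j = p
          · subst hj
            rw [Function.update_self]
            exact hf j (Finset.mem_singleton_self j)
          · rw [Function.update_of_ne hj]
            exact hf0 j
        obtain ⟨ε, hε⟩ : ∃ ε : L, algebraMap L K ε = ∏ l ∈ Finset.univ.erase p, (f0 l : K) :=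
          ⟨⟨∏ l ∈ Finset.univ.erase p, (f0 l : K), prod_mem fun l hl =>
            (hall l (Finset.ne_of_mem_erase hl)) (f0 l).2⟩, rfl⟩
        have hε0 : ε ≠ 0 := by
          intro h
          rw [h, map_zero] at hε
          refine Finset.prod_ne_zero_iff.2 (fun i _ h => ?_) hε.symm
          exact (hf0 i).1 (Subtype.ext h)
        have h2 : J * ∏ i, ((Function.update f0 p (f p) i : F i) : K) =
            ε • (J * (f p : K)) := by
          rw [← Finset.mul_prod_erase _ _ (Finset.mem_univ p), Function.update_self]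
          have h3 : ∏ l ∈ Finset.univ.erase p, ((Function.update f0 p (f p) l : F l) : K) =
              ∏ l ∈ Finset.univ.erase p, (f0 l : K) :=
            Finset.prod_congr rfl fun l hl => by
              rw [Function.update_of_ne (Finset.ne_of_mem_erase hl)]
          rw [h3, ← hε, Algebra.smul_def]
          ring
        rw [h2, map_smul, smul_eq_zero] at h1
        rw [Finset.prod_singleton]
        exact h1.resolve_left hε0
      · obtain ⟨i, E2, hLE, hfinE, hFE, hT2⟩ := rec_gen hD hsup hγ hγ2 hJ0 hpos hℓ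
          (fun i j hij => by
            have h1 := hfl i
            have h2 := hfl j
            rcases hstr i j hij with ⟨h, h'⟩ | ⟨h, h'⟩
            · exact Or.inr (Or.inl ⟨h, by omega⟩)
            · exact Or.inr (Or.inr ⟨h, by omega⟩))
          (fun i => by
            have h1 := hfl i
            have h2 := hg i
            omega) (fun i j hij => by
            rcases hH i j hij with h | h
            · exact Or.inl (by omega)
            · exact Or.inr (by omega)) n Finset.univ L
          (by simp) inferInstance dvd_rfl (fun j hj => absurd (Finset.mem_univ j) hj)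
          (fun f hf => hTex f fun i => hf i (Finset.mem_univ i))
        exact uni_of_line F hsup hn L hD hx hz hE hE' hJ i E2 hLE hfinE hFE
          (fun j _ => hf0 j) hT2
    exact ⟨fun _ => huni, Or.inl huni, Or.inr (covered_of_uniruled huni)⟩
  · obtain ⟨g, hgr, hTg⟩ := hTex
    obtain ⟨N, hN⟩ : ∃ N : IntermediateField ℂ L, N = IntermediateField.adjoin ℂ
      {t : L | ∃ f : ∀ i, F i, (∀ i, RegD (D i) (f i)) ∧
        t = Algebra.trace L K (J * ∏ i, (f i : K)) /
        Algebra.trace L K (J * ∏ i, (g i : K))} := ⟨_, rfl⟩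
    have hNm : ∀ f : ∀ i, F i, (∀ i, RegD (D i) (f i)) →
        Algebra.trace L K (J * ∏ i, (f i : K)) /
          Algebra.trace L K (J * ∏ i, (g i : K)) ∈ N := by
      intro f hf
      rw [hN]
      exact IntermediateField.subset_adjoin _ _ ⟨f, hf, rfl⟩
    have hkod : ∀ P : Finset (Fin n), (∀ p ∈ P, ∀ u : F p, IsAlgebraic N (u : K)) →
        KodGe ℂ L n (fun _ => False) P.card := fun P hP =>
      kod_of_alg F hsup hn L hD hx hz hE hE' hJ hgr hTg P fun p hp => by
        rw [← hN]
        exact hP p hp (x p)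
    -- the traces are regular forms
    obtain ⟨T, hT⟩ : ∃ T : (∀ i, F i) → L, T = fun f => Algebra.trace L K (J * ∏ i, (f i : K)) :=
      ⟨_, rfl⟩
    have hTreg : ∀ f : ∀ i, F i, (∀ i, RegD (D i) (f i)) → Rg z 1 (T f) := by
      intro f hf P hP
      have h1 := Pool.Agent.R882.LT.trForm_regAt hL hz hE hE' _
        (Pool.Agent.W619.PQ.extForm_pluri 1 D x f) P hP fun Q e hQ =>
          ext_reg hD hx hf Q (Pool.Agent.Y172.divisorial_up hQ hP)
      rw [ext_val, ← hJ] at h1
      have h2 : pf z 1 (T f) = Pool.Agent.Y184.NT.trForm z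
          (Algebra.trace L K (J * ∏ i, (f i : K))) := by
        funext G
        rw [pf, Pool.Agent.Y184.NT.trForm, pow_one, hT]
      rw [h2]
      exact h1
    have hT0 : T g ≠ 0 := by
      rw [hT]
      exact hTg
    -- factors in `L`
    have halgL : ∀ l, F l ≤ L → ∀ u : F l, IsAlgebraic N (u : K) := by
      intro l hl u
      refine alg_factor N (htr l) ?_ u
      have hf : ∀ w : F l, RegD (D l) w → ∀ j, RegD (D j) (Function.update g l w j) := by
        intro w hw j
        by_cases hj : j = l
        · subst hj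
          rw [Function.update_self]
          exact hw
        · rw [Function.update_of_ne hj]
          exact hgr j
      have h1 : ∀ w : F l, RegD (D l) w → IsAlgebraic N ((w : K) / (g l : K)) := by
        intro w hw
        have h2 := hNm _ (hf w hw)
        obtain ⟨w', hw'⟩ : ∃ w' : L, algebraMap L K w' = (w : K) / (g l : K) :=
          ⟨⟨(w : K) / (g l : K), L.div_mem (hl w.2) (hl (g l).2)⟩, rfl⟩
        have hgl : (g l : K) ≠ 0 := fun h => (hgr l).1 (Subtype.ext h)
        have h3 : J * ∏ i, ((Function.update g l w i : F i) : K) =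
            w' • (J * ∏ i, (g i : K)) := by
          rw [← Finset.mul_prod_erase _ _ (Finset.mem_univ l), Function.update_self,
            ← Finset.mul_prod_erase _ (fun i => (g i : K)) (Finset.mem_univ l)]
          have h3 : ∏ j ∈ Finset.univ.erase l, ((Function.update g l w j : F j) : K) =
              ∏ j ∈ Finset.univ.erase l, (g j : K) :=
            Finset.prod_congr rfl fun j hj => by
              rw [Function.update_of_ne (Finset.ne_of_mem_erase hj)]
          rw [h3, Algebra.smul_def, hw']
          field_simp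
        rw [h3, map_smul, smul_eq_mul, mul_div_assoc, div_self hTg, mul_one] at h2
        rw [← hw']
        exact isAlgebraic_algebraMap (A := K) (⟨w', h2⟩ : N)
      have h2 := (h1 (f1 l) (hf1 l)).mul (h1 (f0 l) (hf0 l)).inv
      have hgl : (g l : K) ≠ 0 := fun h => (hgr l).1 (Subtype.ext h)
      have h3 : (f1 l : K) / (g l : K) * ((f0 l : K) / (g l : K))⁻¹ =
          ((f1 l / f0 l : F l) : K) := by
        have h4 : ((f1 l / f0 l : F l) : K) = (f1 l : K) / (f0 l : K) := rfl
        rw [h4]
        have hfl0 : (f0 l : K) ≠ 0 := fun h => (hf0 l).1 (Subtype.ext h)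
        field_simp
      rw [← h3]
      exact h2
    -- at most one factor is not algebraic over `N`
    have hone : ∀ p q : Fin n, p ≠ q → (∀ u : F p, IsAlgebraic N (u : K)) ∨
        ∀ u : F q, IsAlgebraic N (u : K) := by
      intro p q hpq
      by_cases hp : F p ≤ L
      · exact Or.inl (halgL p hp)
      by_cases hq : F q ≤ L
      · exact Or.inr (halgL q hq)
      rcases hH with hH | hH
      · exact alg_of_two hD N hJ0 hgr hTg hNm hpq ((hH p).resolve_left hp)
          ((hH q).resolve_left hq)
          (by have := hg p; have := hfl p; omega) (by have := hg q; have := hfl q; omega)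
          (by
            rcases hstr p q hpq with ⟨h, h'⟩ | ⟨h, h'⟩
            · exact Or.inl ⟨fun t ht => h.trans (hγ p t ht), by have := hfl p; omega⟩
            · exact Or.inr ⟨fun t ht => h.trans (hγ q t ht), by have := hfl q; omega⟩)
      · exact alg_of_two' hD hγ hγ2 N hgr hTg hNm hℓ hpq hp hq
          (by have := hg p; have := hfl p; omega) (by have := hg q; have := hfl q; omega)
          (by
            rcases hstr p q hpq with ⟨h, h'⟩ | ⟨h, h'⟩
            · exact Or.inl ⟨h, by have := hfl p; omega⟩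
            · exact Or.inr ⟨h, by have := hfl q; omega⟩) (hH p q hpq) (hH q p hpq.symm)
    refine ⟨fun h0 => ?_, ?_, ?_⟩
    · exfalso
      apply hTg
      have h1 := Pool.Agent.Y692.NT.t_Tr L K n hL h0 (extForm 1 D x g)
        (Pool.Agent.W619.PQ.extForm_pluri 1 D x g)
        (fun P hP => ext_reg hD hx hgr P hP) E E' hE'
      rw [ext_val, ← hJ] at h1
      exact h1
    · right
      obtain ⟨P, hPd⟩ : ∃ P : Finset (Fin n), P = Finset.univ.filter fun p =>
        ∀ u : F p, IsAlgebraic N (u : K) := ⟨_, rfl⟩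
      have h1 := hkod P fun p hp => by
        rw [hPd, Finset.mem_filter] at hp
        exact hp.2
      refine Pool.Agent.R882.UA.kod_mono h1 ?_
      by_contra hcon
      have h2 : 1 < (Finset.univ \ P).card := by
        rw [Finset.card_sdiff_of_subset (Finset.subset_univ P), Finset.card_univ,
          Fintype.card_fin]
        omega
      obtain ⟨p, hp, q, hq, hpq⟩ := Finset.one_lt_card.1 h2
      rw [hPd, Finset.mem_sdiff, Finset.mem_filter] at hp hq
      rcases hone p q hpq with h | h
      · exact hp.2 ⟨Finset.mem_univ _, h⟩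
      · exact hq.2 ⟨Finset.mem_univ _, h⟩
    · by_cases hall : ∀ p, ∀ u : F p, IsAlgebraic N (u : K)
      · left
        have h1 := hkod Finset.univ fun p _ => hall p
        rwa [Finset.card_univ, Fintype.card_fin] at h1
      push Not at hall
      obtain ⟨p, hp⟩ := hall
      have hNN : N ≤ Nf z := by
        rw [hN, IntermediateField.adjoin_le_iff]
        rintro _ ⟨f, hf, rfl⟩
        refine mem_Nf.2 ⟨1, T f, T g, hTreg f hf, hTreg g hgr, hT0, ?_⟩
        rw [hT]
      have hup : ∀ u : K, IsAlgebraic N u → IsAlgebraic (Nf z) u := by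
        intro u hu
        let _ : Algebra N (Nf z) := (IntermediateField.inclusion hNN).toRingHom.toAlgebra
        have : IsScalarTower N (Nf z) K := IsScalarTower.of_algebraMap_eq fun _ => rfl
        exact hu.extendScalars (IntermediateField.inclusion hNN).toRingHom.injective
      have halg : ∀ j, j ≠ p → ∀ u : F j, IsAlgebraic N (u : K) := fun j hj =>
        (hone j p hj).resolve_right fun h => by
          obtain ⟨u, hu⟩ := hp
          exact hu (h u)
      exact low_or_general F hsup hn L hD hx hz hE hgr hT0 (hTreg g hgr)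
        (fun j hj u => hup _ (halg j hj u))

end Pool.Agent.Helper11K9.PR
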