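import Pool.Agent.Helper11K9.OD.Pair
import Pool.Agent.Helper11K9.MT.Two

/-!
Two factors, and the embeddings over a field together with their conjugates over a smaller field.
-/

set_option autoImplicit false
set_option linter.overlappingInstances false
set_option linter.unusedSectionVars false

open Polynomial FF IntermediateField

namespace Pool.Agent.Helper11K9.PR

open Pool.Agent.W603.LV Pool.Agent.W619.PQ Pool.Agent.Helper11K9.PC Pool.Agent.Helper11K9.MT
  Pool.Agent.Helper11K9.OD

section

variable {k F Ω : Type} [Field k] [Field F] [Algebra k F] [CharZero k] [IsFF k F] [IsAlgClosed k]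
  [Field Ω] [Algebra k Ω] {ι : Type} [Fintype ι]

/-- the span of the vectors of values of the regular differentials -/
def vec (D : Derivation k F F) (τ : ι → F →ₐ[k] Ω) : Submodule Ω (ι → Ω) :=
  Submodule.span Ω {x | ∃ f, RegD D f ∧ (fun s => τ s f) = x}

theorem vec_dim {D : Derivation k F F} (hD : D ≠ 0) (τ : ι → F →ₐ[k] Ω)
    (hτ : Function.Injective τ) :
    ∃ S : Finset (Place k F), S.card = Fintype.card ι ∧
      Module.finrank k (RR D hD) ≤ Module.finrank k (RRS D hD S) +
        Module.finrank Ω (vec D τ) := by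
  classical
  obtain ⟨T, S, hS, hT, hind⟩ := exists_indep_emb hD τ hτ
  refine ⟨S, hS, hT.trans (Nat.add_le_add_left ?_ _)⟩
  let Φ : (T → Ω) →ₗ[Ω] (vec D τ →ₗ[Ω] Ω) := Fintype.linearCombination Ω fun j : T =>
    (LinearMap.proj (j : ι)).comp (vec D τ).subtype
  have hΦ : Function.Injective Φ := by
    rw [← LinearMap.ker_eq_bot, LinearMap.ker_eq_bot']
    intro c hc
    obtain ⟨c', hc'⟩ : ∃ c' : ι → Ω, c' = fun j => if h : j ∈ T then c ⟨j, h⟩ else 0 := ⟨_, rfl⟩
    have hcv : ∀ j : T, c' j = c j := fun j => by
      rw [hc']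
      exact dif_pos j.2
    have h1 := hind c' (fun f hf => by
      have h1 : (fun s => τ s f) ∈ vec D τ := Submodule.subset_span ⟨f, hf, rfl⟩
      have h2 := DFunLike.congr_fun hc (⟨_, h1⟩ : vec D τ)
      simp only [Φ, Fintype.linearCombination_apply, LinearMap.sum_apply, LinearMap.smul_apply,
        smul_eq_mul, LinearMap.zero_apply] at h2
      rw [← h2, ← Finset.sum_coe_sort T]
      refine Finset.sum_congr rfl fun j _ => ?_
      rw [hcv]
      rfl)
    funext j
    have h2 := h1 j j.2
    rw [hcv] at h2
    exact h2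
  have h1 := LinearMap.finrank_le_finrank_of_injective hΦ
  rwa [Module.finrank_linearMap, Module.finrank_self, mul_one,
    Module.finrank_fintype_fun_eq_card, Fintype.card_coe] at h1

theorem vec_clif {D : Derivation k F F} (hD : D ≠ 0) (τ : ι → F →ₐ[k] Ω)
    (hτ : Function.Injective τ) (hg : Fintype.card ι ≤ 2 * Module.finrank k (RR D hD)) :
    Fintype.card ι ≤ 2 * Module.finrank Ω (vec D τ) := by
  obtain ⟨S, hS, h⟩ := vec_dim hD τ hτ
  by_cases hne : RRS D hD S = ⊥
  · rw [hne, finrank_bot] at h
    omega
  · have h2 := clifford S hne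
    omega

theorem vec_strict {D : Derivation k F F} (hD : D ≠ 0) (τ : ι → F →ₐ[k] Ω)
    (hτ : Function.Injective τ) (hpos : 0 < Fintype.card ι)
    (hγ : ∀ t : F, Transcendental k t → 3 ≤ Module.finrank k⟮t⟯ F)
    (hg : Fintype.card ι + 2 < 2 * Module.finrank k (RR D hD)) :
    Fintype.card ι < 2 * Module.finrank Ω (vec D τ) := by
  obtain ⟨S, hS, h⟩ := vec_dim hD τ hτ
  rcases Nat.lt_or_ge (Module.finrank k (RRS D hD S)) 2 with h2 | h2
  · omega
  · have h3 := clifford_strict hγ (S := S) (Finset.card_pos.1 (by omega)) h2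
    omega

end

section

variable {k F₁ F₂ Ω : Type} [Field k] [Field F₁] [Algebra k F₁] [Field F₂] [Algebra k F₂]
  [Field Ω] [Algebra k Ω] {ι : Type} [Fintype ι]

/-- orthogonality of the vectors of values -/
theorem vec_orth {D₁ : Derivation k F₁ F₁} {D₂ : Derivation k F₂ F₂} {τ₁ : ι → F₁ →ₐ[k] Ω}
    {τ₂ : ι → F₂ →ₐ[k] Ω} {C : ι → Ω} (hC : ∀ s, C s ≠ 0)
    (h : ∀ f₁ f₂, RegD D₁ f₁ → RegD D₂ f₂ → ∑ s, C s * (τ₁ s f₁ * τ₂ s f₂) = 0) :
    Module.finrank Ω (vec D₁ τ₁) + Module.finrank Ω (vec D₂ τ₂) ≤ Fintype.card ι := by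
  classical
  let Θ : (ι → Ω) →ₗ[Ω] Module.Dual Ω (ι → Ω) :=
    { toFun := fun x =>
        { toFun := fun y => ∑ s, C s * (x s * y s)
          map_add' := fun y z => by
            rw [← Finset.sum_add_distrib]
            refine Finset.sum_congr rfl fun s _ => ?_
            rw [Pi.add_apply]
            ring
          map_smul' := fun c y => by
            rw [RingHom.id_apply, smul_eq_mul, Finset.mul_sum]
            refine Finset.sum_congr rfl fun s _ => ?_
            rw [Pi.smul_apply, smul_eq_mul]
            ring }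
      map_add' := fun x z => by
        ext y
        change ∑ s, C s * ((x s + z s) * _) = ∑ s, C s * (x s * _) + ∑ s, C s * (z s * _)
        rw [← Finset.sum_add_distrib]
        exact Finset.sum_congr rfl fun s _ => by ring
      map_smul' := fun c x => by
        ext y
        change ∑ s, C s * ((c * x s) * _) = c * ∑ s, C s * (x s * _)
        rw [Finset.mul_sum]
        exact Finset.sum_congr rfl fun s _ => by ring }
  have hΘ : ∀ x y, Θ x y = ∑ s, C s * (x s * y s) := fun _ _ => rfl
  have hinj : Function.Injective Θ := by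
    rw [← LinearMap.ker_eq_bot, LinearMap.ker_eq_bot']
    intro x hx
    funext s
    have h1 := DFunLike.congr_fun hx (Pi.single s 1)
    rw [hΘ, LinearMap.zero_apply, Finset.sum_eq_single s (fun t _ hts => by
      rw [Pi.single_eq_of_ne hts, mul_zero, mul_zero]) (fun hs => absurd (Finset.mem_univ s) hs),
      Pi.single_eq_same, mul_one] at h1
    exact (mul_eq_zero.1 h1).resolve_left (hC s)
  have hle : (vec D₁ τ₁).map Θ ≤ (vec D₂ τ₂).dualAnnihilator := by
    rintro _ ⟨x, hx, rfl⟩
    rw [Submodule.mem_dualAnnihilator]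
    intro y hy
    rw [hΘ]
    induction hx using Submodule.span_induction with
    | mem x hx =>
      obtain ⟨f₁, hf₁, rfl⟩ := hx
      induction hy using Submodule.span_induction with
      | mem y hy =>
        obtain ⟨f₂, hf₂, rfl⟩ := hy
        exact h f₁ f₂ hf₁ hf₂
      | zero => simp
      | add a b _ _ ha hb =>
        have h1 : ∀ s, C s * (τ₁ s f₁ * (a + b) s) =
            C s * (τ₁ s f₁ * a s) + C s * (τ₁ s f₁ * b s) := fun s => by
          rw [Pi.add_apply]
          ring
        simp only [h1]
        rw [Finset.sum_add_distrib, ha, hb, add_zero]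
      | smul r a _ ha =>
        have h1 : ∀ s, C s * (τ₁ s f₁ * (r • a) s) = r * (C s * (τ₁ s f₁ * a s)) := fun s => by
          rw [Pi.smul_apply, smul_eq_mul]
          ring
        simp only [h1]
        rw [← Finset.mul_sum, ha, mul_zero]
    | zero => simp
    | add a b _ _ ha hb =>
      have h1 : ∀ s, C s * ((a + b) s * y s) = C s * (a s * y s) + C s * (b s * y s) :=
        fun s => by
          rw [Pi.add_apply]
          ring
      simp only [h1]
      rw [Finset.sum_add_distrib, ha, hb, add_zero]
    | smul r a _ ha =>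
      have h1 : ∀ s, C s * ((r • a) s * y s) = r * (C s * (a s * y s)) := fun s => by
        rw [Pi.smul_apply, smul_eq_mul]
        ring
      simp only [h1]
      rw [← Finset.mul_sum, ha, mul_zero]
  have h1 := Submodule.finrank_mono hle
  rw [← (Submodule.equivMapOfInjective _ hinj (vec D₁ τ₁)).finrank_eq] at h1
  have h2 := Subspace.finrank_add_finrank_dualAnnihilator_eq (vec D₂ τ₂)
  rw [Module.finrank_fintype_fun_eq_card] at h2
  omega

end

section

variable {K : Type} [Field K] [Algebra ℂ K] {n : ℕ}
  {F : Fin n → IntermediateField ℂ K} [∀ i, IsFF ℂ (F i)] {D : ∀ i, Derivation ℂ (F i) (F i)}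
  {L : IntermediateField ℂ K} [FiniteDimensional L K]

/-- an embedding over `L` is determined by its restriction to a generating subfield -/
theorem emb_eq {p : Fin n} (hp : IntermediateField.adjoin L (F p : Set K) = ⊤)
    {σ σ' : K →ₐ[L] AlgebraicClosure K} (h : ∀ u : F p, σ u = σ' u) : σ = σ' := by
  let C0 : IntermediateField L K :=
    { carrier := {z | σ z = σ' z}
      mul_mem' := fun {a b} ha hb => by
        change σ (a * b) = σ' (a * b)
        rw [map_mul, map_mul, show σ a = σ' a from ha, show σ b = σ' b from hb]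
      add_mem' := fun {a b} ha hb => by
        change σ (a + b) = σ' (a + b)
        rw [map_add, map_add, show σ a = σ' a from ha, show σ b = σ' b from hb]
      algebraMap_mem' := fun c => by
        change σ _ = σ' _
        rw [AlgHom.commutes, AlgHom.commutes]
      inv_mem' := fun a ha => by
        change σ a⁻¹ = σ' a⁻¹
        rw [map_inv₀, map_inv₀, show σ a = σ' a from ha] }
  have h3 : (⊤ : IntermediateField L K) ≤ C0 := by
    rw [← hp, IntermediateField.adjoin_le_iff]
    exact fun z hz => h ⟨z, hz⟩
  ext z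
  exact h3 (show z ∈ (⊤ : IntermediateField L K) from trivial)

/-- the restrictions of the embeddings and of their conjugates are distinct -/
theorem vl_inj {N : IntermediateField ℂ L} {Ω : Type} [Field Ω] [Algebra ℂ Ω]
    {a b : AlgebraicClosure K →ₐ[ℂ] Ω}
    (hab : ∀ u u' : AlgebraicClosure K, b u = a u' → IsAlgebraic N u') {p : Fin n}
    (hp : IntermediateField.adjoin L (F p : Set K) = ⊤) {u : F p}
    (hu : ¬ IsAlgebraic N (u : K)) : Function.Injective (vl F (phi L a b) p) := by
  rintro (σ | σ) (σ' | σ') h
  · congr 1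
    exact emb_eq hp fun v => a.injective (DFunLike.congr_fun h v)
  · exfalso
    have h1 : a (σ u) = b (σ' u) := DFunLike.congr_fun h u
    exact hu (alg_iff N σ (hab _ _ h1.symm))
  · exfalso
    have h1 : b (σ u) = a (σ' u) := DFunLike.congr_fun h u
    exact hu (alg_iff N σ' (hab _ _ h1))
  · congr 1
    exact emb_eq hp fun v => b.injective (DFunLike.congr_fun h v)

/-- **Two factors, two copies.** Among two factors which generate `K` over `L` one is algebraic over
the field generated by the ratios of the traces. -/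
theorem alg_of_two (hD : ∀ i, D i ≠ 0) (N : IntermediateField ℂ L) {J : K} (hJ : J ≠ 0)
    {g : ∀ i, F i} (hg : ∀ i, RegD (D i) (g i))
    (hTg : Algebra.trace L K (J * ∏ i, (g i : K)) ≠ 0)
    (hN : ∀ f : ∀ i, F i, (∀ i, RegD (D i) (f i)) →
      Algebra.trace L K (J * ∏ i, (f i : K)) / Algebra.trace L K (J * ∏ i, (g i : K)) ∈ N)
    {p q : Fin n} (hpq : p ≠ q) (hp : IntermediateField.adjoin L (F p : Set K) = ⊤)
    (hq : IntermediateField.adjoin L (F q : Set K) = ⊤)
    (hgp : 2 * Module.finrank L K ≤ 2 * Module.finrank ℂ (RR (D p) (hD p)))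
    (hgq : 2 * Module.finrank L K ≤ 2 * Module.finrank ℂ (RR (D q) (hD q)))
    (hstr : ((∀ t : F p, Transcendental ℂ t → 3 ≤ Module.finrank ℂ⟮t⟯ (F p)) ∧
        2 * Module.finrank L K + 2 < 2 * Module.finrank ℂ (RR (D p) (hD p))) ∨
      ((∀ t : F q, Transcendental ℂ t → 3 ≤ Module.finrank ℂ⟮t⟯ (F q)) ∧
        2 * Module.finrank L K + 2 < 2 * Module.finrank ℂ (RR (D q) (hD q)))) :
    (∀ u : F p, IsAlgebraic N (u : K)) ∨ ∀ u : F q, IsAlgebraic N (u : K) := by
  classical
  by_contra hcon
  push Not at hcon
  obtain ⟨⟨u, hu⟩, v, hv⟩ := hcon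
  obtain ⟨Ω, i1, i2, a, b, c, lam, hlam, hc, hc0, hab, hR⟩ := exists_rel N hJ hTg hN
  have hL0 : CharZero L := charZero_of_injective_algebraMap (algebraMap ℂ L).injective
  have hcard : Fintype.card ((K →ₐ[L] AlgebraicClosure K) ⊕ (K →ₐ[L] AlgebraicClosure K)) =
      2 * Module.finrank L K := by
    rw [Fintype.card_sum, AlgHom.card]
    ring
  have hpos : 0 < Module.finrank L K := Module.finrank_pos
  have hip := vl_inj (F := F) hab hp hu
  have hiq := vl_inj (F := F) hab hq hv
  have hqp : q ∈ Finset.univ.erase p := Finset.mem_erase.2 ⟨hpq.symm, Finset.mem_univ q⟩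
  have h1 := vec_orth (D₁ := D p) (D₂ := D q) (τ₁ := vl F (phi L a b) p)
    (τ₂ := vl F (phi L a b) q)
    (C := fun s => c s * ∏ l ∈ (Finset.univ.erase p).erase q, phi L a b s (g l))
    (fun s => mul_ne_zero (hc0 s) (Finset.prod_ne_zero_iff.2 fun l _ => by
      rw [_root_.map_ne_zero]
      intro h
      exact (hg l).1 (Subtype.ext h)))
    (fun f₁ f₂ h₁ h₂ => by
      have h2 := hR (Function.update (Function.update g p f₁) q f₂) fun l _ => by
        by_cases hlq : l = q
        · subst hlq
          rw [Function.update_self]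
          exact h₂
        · rw [Function.update_of_ne hlq]
          by_cases hlp : l = p
          · subst hlp
            rw [Function.update_self]
            exact h₁
          · rw [Function.update_of_ne hlp]
            exact hg l
      rw [← h2]
      refine Finset.sum_congr rfl fun s _ => ?_
      rw [← Finset.mul_prod_erase _ _ (Finset.mem_univ p), ← Finset.mul_prod_erase _ _ hqp,
        Function.update_of_ne hpq, Function.update_self, Function.update_self]
      have h3 : ∏ l ∈ (Finset.univ.erase p).erase q,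
          phi L a b s ((Function.update (Function.update g p f₁) q f₂ l : F l) : K) =
          ∏ l ∈ (Finset.univ.erase p).erase q, phi L a b s (g l) :=
        Finset.prod_congr rfl fun l hl => by
          rw [Function.update_of_ne (Finset.ne_of_mem_erase hl),
            Function.update_of_ne (Finset.ne_of_mem_erase (Finset.mem_of_mem_erase hl))]
      rw [h3]
      change _ * (phi L a b s f₁ * phi L a b s f₂) = _
      ring)
  rw [hcard] at h1
  have h2 := vec_clif (hD p) _ hip (by rw [hcard]; exact hgp)
  have h3 := vec_clif (hD q) _ hiq (by rw [hcard]; exact hgq)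
  rw [hcard] at h2 h3
  rcases hstr with ⟨h4, h5⟩ | ⟨h4, h5⟩
  · have h6 := vec_strict (hD p) _ hip (by rw [hcard]; omega) h4 (by rw [hcard]; exact h5)
    rw [hcard] at h6
    omega
  · have h6 := vec_strict (hD q) _ hiq (by rw [hcard]; omega) h4 (by rw [hcard]; exact h5)
    rw [hcard] at h6
    omega

end

end Pool.Agent.Helper11K9.PR
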