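import Pool.Agent.Helper11K9.PR.Pair2

/-!
The bilinear relation between the embeddings of a field generated by two curves and their conjugates,
and its consequences.
-/

set_option autoImplicit false
set_option linter.overlappingInstances false
set_option linter.unusedSectionVars false

open Polynomial FF IntermediateField

namespace Pool.Agent.Helper11K9.PR

open Pool.Agent.W603.LV Pool.Agent.W619.PQ Pool.Agent.Helper11K9.PC Pool.Agent.Helper11K9.MT
  Pool.Agent.Helper11K9.OD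

section

variable {L M : Type} [Field L] [Field M] [Algebra ℂ L] [Algebra ℂ M] [Algebra L M]
  [IsScalarTower ℂ L M] [FiniteDimensional L M]

/-- the embeddings and their conjugates -/
noncomputable def psi {Ω : Type} [Field Ω] [Algebra ℂ Ω] (a b : AlgebraicClosure L →ₐ[ℂ] Ω) :
    (M →ₐ[L] AlgebraicClosure L) ⊕ (M →ₐ[L] AlgebraicClosure L) → M →ₐ[ℂ] Ω :=
  Sum.elim (fun σ => a.comp (σ.restrictScalars ℂ)) (fun σ => b.comp (σ.restrictScalars ℂ))

theorem trace_emb' (u : M) : algebraMap L (AlgebraicClosure L) (Algebra.trace L M u) =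
    ∑ σ : M →ₐ[L] AlgebraicClosure L, σ u := by
  have h0 : CharZero L := charZero_of_injective_algebraMap (algebraMap ℂ L).injective
  exact trace_eq_sum_embeddings (AlgebraicClosure L)

/-- **The bilinear relation.** -/
theorem exists_rel2 {F₁ F₂ : Type} [Field F₁] [Field F₂] [Algebra ℂ F₁] [Algebra ℂ F₂]
    (τ₁ : F₁ →ₐ[ℂ] M) (τ₂ : F₂ →ₐ[ℂ] M) (N : IntermediateField ℂ L) {c : M} (hc : c ≠ 0)
    {g₁ : F₁} {g₂ : F₂} (ht : Algebra.trace L M (c * (τ₁ g₁ * τ₂ g₂)) ≠ 0)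
    {R₁ : F₁ → Prop} {R₂ : F₂ → Prop}
    (hN : ∀ f₁ f₂, R₁ f₁ → R₂ f₂ → Algebra.trace L M (c * (τ₁ f₁ * τ₂ f₂)) /
      Algebra.trace L M (c * (τ₁ g₁ * τ₂ g₂)) ∈ N) :
    ∃ (Ω : Type) (_ : Field Ω) (_ : Algebra ℂ Ω) (a b : AlgebraicClosure L →ₐ[ℂ] Ω)
      (C : (M →ₐ[L] AlgebraicClosure L) ⊕ (M →ₐ[L] AlgebraicClosure L) → Ω) (lam : Ω),
      lam ≠ 0 ∧ (∀ σ, C (Sum.inl σ) = lam * a (σ c)) ∧
      (∀ s, C s ≠ 0) ∧ (∀ u u' : AlgebraicClosure L, b u = a u' → IsAlgebraic N u') ∧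
      ∀ f₁ f₂, R₁ f₁ → R₂ f₂ → ∑ s, C s * (psi a b s (τ₁ f₁) * psi a b s (τ₂ f₂)) = 0 := by
  classical
  obtain ⟨Ω, i1, i2, τ, hτ1, hτ2⟩ := exists_tau N (AlgebraicClosure L)
  let i3 : Algebra ℂ Ω := ((algebraMap (AlgebraicClosure L) Ω).comp
    (algebraMap ℂ (AlgebraicClosure L))).toAlgebra
  let a : AlgebraicClosure L →ₐ[ℂ] Ω :=
    { algebraMap (AlgebraicClosure L) Ω with commutes' := fun _ => rfl }
  let b : AlgebraicClosure L →ₐ[ℂ] Ω :=
    { τ with
      commutes' := fun c => by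
        have h1 := hτ1 (algebraMap ℂ N c)
        have h2 : algebraMap N (AlgebraicClosure L) (algebraMap ℂ N c) =
            algebraMap ℂ (AlgebraicClosure L) c :=
          (IsScalarTower.algebraMap_apply ℂ N (AlgebraicClosure L) c).symm
        rw [h2] at h1
        exact h1 }
  have hab : ∀ q : L, q ∈ N → b (algebraMap L _ q) = a (algebraMap L _ q) := by
    intro q hq
    exact hτ1 ⟨q, hq⟩
  obtain ⟨tg, htg⟩ : ∃ tg : AlgebraicClosure L, tg = algebraMap L (AlgebraicClosure L)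
    (Algebra.trace L M (c * (τ₁ g₁ * τ₂ g₂))) := ⟨_, rfl⟩
  have htg0 : tg ≠ 0 := by
    rw [htg]
    exact (_root_.map_ne_zero _).2 ht
  have ha0 : a tg ≠ 0 := (_root_.map_ne_zero _).2 htg0
  have hb0 : b tg ≠ 0 := (_root_.map_ne_zero _).2 htg0
  refine ⟨Ω, i1, i3, a, b, Sum.elim (fun σ => b tg / a tg * a (σ c)) (fun σ => -b (σ c)),
    b tg / a tg, div_ne_zero hb0 ha0, fun σ => rfl, ?_, hτ2, ?_⟩
  · rintro (σ | σ)
    · exact mul_ne_zero (div_ne_zero hb0 ha0)
        ((_root_.map_ne_zero _).2 ((_root_.map_ne_zero _).2 hc))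
    · exact neg_ne_zero.2 ((_root_.map_ne_zero _).2 ((_root_.map_ne_zero _).2 hc))
  · intro f₁ f₂ hf₁ hf₂
    have h1 := hN f₁ f₂ hf₁ hf₂
    obtain ⟨q, hq⟩ : ∃ q : L, q = Algebra.trace L M (c * (τ₁ f₁ * τ₂ f₂)) /
      Algebra.trace L M (c * (τ₁ g₁ * τ₂ g₂)) := ⟨_, rfl⟩
    rw [← hq] at h1
    have h2 : Algebra.trace L M (c * (τ₁ f₁ * τ₂ f₂)) =
        q * Algebra.trace L M (c * (τ₁ g₁ * τ₂ g₂)) := by
      rw [hq, div_mul_cancel₀ _ ht]
    have h3 := congrArg (algebraMap L (AlgebraicClosure L)) h2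
    rw [trace_emb', map_mul, ← htg] at h3
    rw [Fintype.sum_sum_type]
    have h4 : ∑ σ : M →ₐ[L] AlgebraicClosure L, (b tg / a tg * a (σ c)) *
        (psi a b (Sum.inl σ) (τ₁ f₁) * psi a b (Sum.inl σ) (τ₂ f₂)) =
        b tg / a tg * a (∑ σ : M →ₐ[L] AlgebraicClosure L, σ (c * (τ₁ f₁ * τ₂ f₂))) := by
      rw [map_sum, Finset.mul_sum]
      refine Finset.sum_congr rfl fun σ _ => ?_
      rw [map_mul, map_mul, map_mul, map_mul, mul_assoc]
      rfl
    have h5 : ∑ σ : M →ₐ[L] AlgebraicClosure L, (-b (σ c)) *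
        (psi a b (Sum.inr σ) (τ₁ f₁) * psi a b (Sum.inr σ) (τ₂ f₂)) =
        -b (∑ σ : M →ₐ[L] AlgebraicClosure L, σ (c * (τ₁ f₁ * τ₂ f₂))) := by
      rw [map_sum, ← Finset.sum_neg_distrib]
      refine Finset.sum_congr rfl fun σ _ => ?_
      rw [map_mul, map_mul, map_mul, map_mul, neg_mul]
      rfl
    have h6 := hab q h1
    change ∑ σ : M →ₐ[L] AlgebraicClosure L, (b tg / a tg * a (σ c)) *
        (psi a b (Sum.inl σ) (τ₁ f₁) * psi a b (Sum.inl σ) (τ₂ f₂)) +
        ∑ σ : M →ₐ[L] AlgebraicClosure L, (-b (σ c)) *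
        (psi a b (Sum.inr σ) (τ₁ f₁) * psi a b (Sum.inr σ) (τ₂ f₂)) = 0
    rw [h4, h5, h3, map_mul, map_mul, h6]
    field_simp
    ring

end

section

variable {k F₁ F₂ Ω : Type} [Field k] [Field F₁] [Algebra k F₁] [Field F₂] [Algebra k F₂]
  [CharZero k] [IsFF k F₁] [IsFF k F₂] [IsAlgClosed k] [Field Ω] [Algebra k Ω]
  {ι : Type} [Fintype ι]

/-- **A bound for bilinear relations.** -/
theorem pair_abs {D₁ : Derivation k F₁ F₁} (hD₁ : D₁ ≠ 0) {D₂ : Derivation k F₂ F₂}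
    (hD₂ : D₂ ≠ 0) (a : ι → F₁ →ₐ[k] Ω) (b : ι → F₂ →ₐ[k] Ω)
    [DecidableEq (F₁ →ₐ[k] Ω)] [DecidableEq (F₂ →ₐ[k] Ω)] {γ₁ γ₂ k₁ k₂ : ℕ}
    (hγ₁ : ∀ t : F₁, Transcendental k t → γ₁ ≤ Module.finrank k⟮t⟯ F₁)
    (hγ₂ : ∀ t : F₂, Transcendental k t → γ₂ ≤ Module.finrank k⟮t⟯ F₂) (h2 : 2 ≤ γ₂)
    (hinj : ∀ s s', a s = a s' → b s = b s' → s = s')
    (hfib₁ : ∀ s', ((Finset.univ : Finset ι).filter fun s => a s = a s').card = k₁)
    (hfib₂ : ∀ s', ((Finset.univ : Finset ι).filter fun s => b s = b s').card = k₂)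
    (hm : γ₂ * k₂ ≤ Fintype.card ι) (hk : k₁ < γ₂) (s0 : ι) {C : ι → Ω} (hC : ∀ s, C s ≠ 0)
    (hrel : ∀ f₁ f₂, RegD D₁ f₁ → RegD D₂ f₂ → ∑ s, C s * (a s f₁ * b s f₂) = 0) :
    γ₁ + k₂ * (γ₂ - 2) ≤ Fintype.card ι := by
  classical
  have hk₂pos : 0 < k₂ := by
    rw [← hfib₂ s0]
    exact Finset.card_pos.2 ⟨s0, Finset.mem_filter.2 ⟨Finset.mem_univ _, rfl⟩⟩
  have hcardA : (Finset.univ : Finset ι).card = Fintype.card ι := Finset.card_univ
  obtain ⟨X, hX⟩ : ∃ X, X = (Finset.univ : Finset ι).image b := ⟨_, rfl⟩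
  have hXcard : X.card * k₂ = Fintype.card ι := by
    rw [← hcardA, Finset.card_eq_sum_card_fiberwise (f := b) (t := X) (fun σ _ => by
      rw [hX]
      exact Finset.mem_coe.2 (Finset.mem_image_of_mem _ (Finset.mem_univ σ)))]
    rw [Finset.sum_const_nat (m := k₂)]
    intro v hv
    rw [hX] at hv
    obtain ⟨σ', -, rfl⟩ := Finset.mem_image.1 hv
    exact hfib₂ σ'
  have hX2 : γ₂ ≤ X.card := by
    rw [← hXcard] at hm
    exact Nat.le_of_mul_le_mul_right hm hk₂pos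
  -- the points to be killed
  obtain ⟨R0, hR0⟩ : ∃ R0, R0 = (((Finset.univ : Finset ι).filter
    fun σ => a σ = a s0).image b).erase (b s0) := ⟨_, rfl⟩
  have hR0card : R0.card + 1 ≤ k₁ := by
    have h1 : b s0 ∈ ((Finset.univ : Finset ι).filter fun σ => a σ = a s0).image b :=
      Finset.mem_image_of_mem _ (Finset.mem_filter.2 ⟨Finset.mem_univ s0, rfl⟩)
    rw [hR0, Finset.card_erase_add_one h1]
    exact Finset.card_image_le.trans (hfib₁ s0).le
  have hR0X : R0 ⊆ X.erase (b s0) := by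
    rw [hR0, hX]
    exact Finset.erase_subset_erase _ (Finset.image_subset_image (Finset.filter_subset _ _))
  obtain ⟨T, hT1, hT2, hT3⟩ := Finset.exists_subsuperset_card_eq hR0X (n := γ₂ - 2) (by omega) (by
    rw [Finset.card_erase_of_mem (by
      rw [hX]
      exact Finset.mem_image_of_mem _ (Finset.mem_univ s0))]
    omega)
  have h0T : b s0 ∉ T := fun h => Finset.notMem_erase _ _ (hT2 h)
  obtain ⟨w, hw1, hw2, hw3⟩ := kill hD₂ T (b s0) h0T fun t ht => by
    have := hγ₂ t ht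
    omega
  -- the relation between the embeddings
  have hrel' : ∀ f₁, RegD D₁ f₁ → ∑ s, (C s * w.sum fun g t => t * b s g) * a s f₁ = 0 := by
    intro f₁ hf₁
    have h1 : ∀ g ∈ w.support, ∑ s, C s * (a s f₁ * b s g) = 0 := fun g hg =>
      hrel f₁ g hf₁ (hw1 g hg)
    have h3 : ∑ s, (C s * w.sum fun g t => t * b s g) * a s f₁ =
        ∑ g ∈ w.support, w g * ∑ s, C s * (a s f₁ * b s g) := by
      simp only [Finsupp.sum, Finset.mul_sum, Finset.sum_mul]
      rw [Finset.sum_comm]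
      refine Finset.sum_congr rfl fun g _ => Finset.sum_congr rfl fun σ _ => ?_
      ring
    rw [h3]
    exact Finset.sum_eq_zero fun g hg => by rw [h1 g hg, mul_zero]
  -- the coefficients
  obtain ⟨e, he⟩ : ∃ e : ι → Ω, e = fun σ => C σ * w.sum fun g s => s * b σ g := ⟨_, rfl⟩
  have heT : ∀ σ, b σ ∈ T → e σ = 0 := fun σ hσ => by
    rw [he]
    change C σ * _ = 0
    rw [hw2 _ hσ, mul_zero]
  obtain ⟨Y, hY⟩ : ∃ Y : Finset (F₁ →ₐ[k] Ω),
    Y = ((Finset.univ : Finset ι).filter fun σ => b σ ∉ T).image a := ⟨_, rfl⟩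
  have hYcard : Y.card + k₂ * (γ₂ - 2) ≤ Fintype.card ι := by
    have h1 : ((Finset.univ : Finset ι).filter fun σ => b σ ∈ T).card = k₂ * (γ₂ - 2) := by
      rw [Finset.card_eq_sum_card_fiberwise (f := b) (t := T)
        (s := (Finset.univ : Finset ι).filter fun σ => b σ ∈ T)
        (fun σ hσ => Finset.mem_coe.2 (Finset.mem_filter.1 (Finset.mem_coe.1 hσ)).2)]
      rw [Finset.sum_const_nat (m := k₂), hT3, mul_comm]
      intro v hv
      have h2 := Finset.mem_of_mem_erase (hT2 hv)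
      rw [hX] at h2
      obtain ⟨σ', -, rfl⟩ := Finset.mem_image.1 h2
      rw [← hfib₂ σ', Finset.filter_filter]
      congr 1
      ext σ
      simp only [Finset.mem_filter, Finset.mem_univ, true_and]
      constructor
      · rintro ⟨-, h⟩
        exact h
      · intro h
        exact ⟨h ▸ hv, h⟩
    have h2 := Finset.card_filter_add_card_filter_not
      (s := (Finset.univ : Finset ι)) (fun σ => b σ ∈ T)
    have h3 : Y.card ≤ ((Finset.univ : Finset ι).filter fun σ => b σ ∉ T).card := by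
      rw [hY]
      exact Finset.card_image_le
    rw [h1, hcardA] at h2
    omega
  by_contra hcon
  push Not at hcon
  -- the embeddings of the first field are independent
  have h4 := sep_emb (Ω := Ω) hD₁ (fun v : Y => (v : F₁ →ₐ[k] Ω))
    Subtype.val_injective (fun t ht => by
      rw [Fintype.card_coe]
      have := hγ₁ t ht
      omega) (fun v => ∑ σ ∈ (Finset.univ : Finset ι).filter
        (fun σ => a σ = v), e σ) (fun f hf0 hf => by
      have h5 := hrel' f ⟨hf0, hf⟩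
      have h6 : ∑ σ : ι, e σ * a σ f = 0 := by
        rw [he]
        exact h5
      have h7 : ∑ σ : ι, e σ * a σ f =
          ∑ σ ∈ (Finset.univ : Finset ι).filter (fun σ => a σ ∈ Y), e σ * a σ f := by
        symm
        refine Finset.sum_subset (Finset.filter_subset _ _) fun σ _ hσ => ?_
        have h8 : b σ ∈ T := by
          by_contra h9
          apply hσ
          rw [Finset.mem_filter, hY]
          exact ⟨Finset.mem_univ _, Finset.mem_image_of_mem _
            (Finset.mem_filter.2 ⟨Finset.mem_univ _, h9⟩)⟩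
        rw [heT σ h8, zero_mul]
      rw [h7, ← Finset.sum_fiberwise_of_maps_to (t := Y) (g := a) (fun σ hσ =>
        (Finset.mem_filter.1 hσ).2), ← Finset.sum_coe_sort Y] at h6
      rw [← h6]
      refine Finset.sum_congr rfl fun v _ => ?_
      rw [Finset.sum_mul, Finset.filter_filter]
      have h8 : (Finset.univ : Finset ι).filter (fun σ => a σ = (v : F₁ →ₐ[k] Ω)) =
          (Finset.univ : Finset ι).filter (fun σ => a σ ∈ Y ∧ a σ = (v : F₁ →ₐ[k] Ω)) := by
        ext σ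
        simp only [Finset.mem_filter, Finset.mem_univ, true_and]
        constructor
        · intro h
          exact ⟨h ▸ v.2, h⟩
        · rintro ⟨-, h⟩
          exact h
      rw [← h8]
      refine Finset.sum_congr rfl fun σ hσ => ?_
      rw [(Finset.mem_filter.1 hσ).2])
  have h0Y : a s0 ∈ Y := by
    rw [hY]
    exact Finset.mem_image_of_mem _ (Finset.mem_filter.2 ⟨Finset.mem_univ _, h0T⟩)
  have h5 := congrFun h4 ⟨a s0, h0Y⟩
  rw [Pi.zero_apply] at h5
  change ∑ σ ∈ (Finset.univ : Finset ι).filter (fun σ => a σ = a s0), e σ = 0 at h5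
  have hmem0 : s0 ∈ (Finset.univ : Finset ι).filter (fun σ => a σ = a s0) :=
    Finset.mem_filter.2 ⟨Finset.mem_univ _, rfl⟩
  rw [Finset.sum_eq_single_of_mem s0 hmem0] at h5
  · rw [he] at h5
    change C s0 * (w.sum fun g s => s * b s0 g) = 0 at h5
    rw [hw3, mul_one] at h5
    exact hC s0 h5
  · intro σ hσ hne
    apply heT
    apply hT1
    rw [hR0, Finset.mem_erase]
    exact ⟨fun h => hne (hinj σ s0 (Finset.mem_filter.1 hσ).2 h),
      Finset.mem_image_of_mem _ hσ⟩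

end

end Pool.Agent.Helper11K9.PR
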